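import Pool.Agent.DistinctMahler.Expansion

set_option autoImplicit false

namespace Pool.Agent.DistinctMahler

lemma log_one_sub_hasSum (a x : ℝ) (ha : 0 ≤ a) (ha1 : a < 1) :
    HasSum (fun n : ℕ => -(a ^ n / n) * Real.cos (2 * Real.pi * (n * x)))
      (Real.log ‖1 - (a : ℂ) * ee x‖) := by
  have hy : ‖(a : ℂ) * ee x‖ < 1 := by
    rw [norm_mul, norm_ee, mul_one, Complex.norm_real, Real.norm_of_nonneg ha]
    exact ha1
  have h := (Complex.hasSum_re (Complex.hasSum_taylorSeries_neg_log hy)).neg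
  rw [log_norm_one_sub, neg_neg] at h
  have e : (fun n : ℕ => -(a ^ n / n) * Real.cos (2 * Real.pi * (n * x))) =
      fun n : ℕ => -(((a : ℂ) * ee x) ^ n / n).re := by
    funext n
    have : ((a : ℂ) * ee x) ^ n / n = ((a ^ n / n : ℝ) : ℂ) * ee (n * x) := by
      rw [mul_pow, ee_natmul]
      push_cast
      ring
    rw [this, Complex.re_ofReal_mul, ee_re]
    ring
  rw [e]
  exact h

/-- coefficients of `log |1 - x_i|` -/
noncomputable def cA {k : ℕ} (α : Fin k → ℝ) (i : Fin k) (s : SignType) (v : Fin k → ℤ) : ℝ :=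
  if sgn v = Pi.single i s then -(α i ^ (v i).natAbs / (v i).natAbs) else 0

lemma single_inj {k : ℕ} (i : Fin k) (σ : ℤ) (hσ : σ ≠ 0) :
    Function.Injective (fun n : ℕ => (Pi.single i (σ * ((n + 1 : ℕ) : ℤ)) : Fin k → ℤ)) := by
  intro a b hab
  have h1 := congrFun hab i
  simp only [Pi.single_eq_same] at h1
  have := mul_left_cancel₀ hσ h1
  have h2 : a + 1 = b + 1 := by exact_mod_cast this
  omega

lemma sgn_single {k : ℕ} (i : Fin k) (m : ℤ) :
    sgn (Pi.single i m : Fin k → ℤ) = Pi.single i (SignType.sign m) := by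
  funext l
  unfold sgn
  by_cases h : l = i
  · subst h
    simp
  · simp [Pi.single_eq_of_ne h]

lemma mem_range_of_sgn {k : ℕ} (i : Fin k) (σ : ℤ) (hσ : σ = 1 ∨ σ = -1) (v : Fin k → ℤ)
    (hv : sgn v = Pi.single i (SignType.sign σ)) :
    v ∈ Set.range (fun n : ℕ => (Pi.single i (σ * ((n + 1 : ℕ) : ℤ)) : Fin k → ℤ)) := by
  have hi : SignType.sign (v i) = SignType.sign σ := by
    have := congrFun hv i
    simpa [sgn] using this
  have hne : v i ≠ 0 := by
    intro h0
    rw [h0, sign_zero] at hi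
    rcases hσ with h | h <;> subst h <;> simp at hi
  have hl : ∀ l, l ≠ i → v l = 0 := by
    intro l hl
    have := congrFun hv l
    rw [Pi.single_eq_of_ne hl] at this
    exact sign_eq_zero_iff.mp this
  refine ⟨(v i).natAbs - 1, ?_⟩
  funext l
  by_cases h : l = i
  · subst h
    simp only [Pi.single_eq_same]
    have h1 : 1 ≤ (v l).natAbs := Nat.one_le_iff_ne_zero.mpr (Int.natAbs_ne_zero.mpr hne)
    rw [Nat.sub_add_cancel h1]
    rcases hσ with h | h
    · subst h
      have : 0 < v l := by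
        rw [← sign_eq_one_iff]
        simpa using hi
      omega
    · subst h
      have : v l < 0 := by
        rw [← sign_eq_neg_one_iff]
        simpa using hi
      omega
  · simp only [Pi.single_eq_of_ne h]
    exact (hl l h).symm

lemma A_part_aux {k : ℕ} (α : Fin k → ℝ) (i : Fin k) (hα : 0 ≤ α i) (hα1 : α i < 1)
    (σ : ℤ) (hσ : σ = 1 ∨ σ = -1) (θ : Fin k → ℝ) :
    HasSum (fun v : Fin k → ℤ =>
      cA α i (SignType.sign σ) v * Real.cos (2 * Real.pi * ∑ l, (v l : ℝ) * θ l))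
      (Real.log ‖1 - (α i : ℂ) * ee ((σ : ℝ) * θ i)‖) := by
  have hσ0 : σ ≠ 0 := by rcases hσ with h | h <;> simp [h]
  rw [← Function.Injective.hasSum_iff (single_inj i σ hσ0)]
  · have h := log_one_sub_hasSum (α i) ((σ : ℝ) * θ i) hα hα1
    rw [hasSum_nat_add_iff' 1 |>.symm] at h
    simp only [Finset.range_one, Finset.sum_singleton, CharP.cast_eq_zero, div_zero, neg_zero,
      zero_mul, sub_zero] at h
    have e : ((fun v : Fin k → ℤ =>
        cA α i (SignType.sign σ) v * Real.cos (2 * Real.pi * ∑ l, (v l : ℝ) * θ l)) ∘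
        fun n : ℕ => (Pi.single i (σ * ((n + 1 : ℕ) : ℤ)) : Fin k → ℤ)) =
        fun n : ℕ => -(α i ^ (n + 1) / ((n + 1 : ℕ) : ℝ)) *
          Real.cos (2 * Real.pi * (((n + 1 : ℕ) : ℝ) * ((σ : ℝ) * θ i))) := by
      funext n
      simp only [Function.comp]
      have h1 : cA α i (SignType.sign σ) (Pi.single i (σ * ((n + 1 : ℕ) : ℤ)) : Fin k → ℤ) =
          -(α i ^ (n + 1) / ((n + 1 : ℕ) : ℝ)) := by
        unfold cA
        have hpos : (0 : ℤ) < ((n + 1 : ℕ) : ℤ) := by positivity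
        rw [if_pos (by rw [sgn_single, sign_mul, sign_pos hpos, mul_one])]
        have hab : (σ * ((n + 1 : ℕ) : ℤ)).natAbs = n + 1 := by
          rw [Int.natAbs_mul]
          rcases hσ with h | h <;> subst h <;> simp <;> omega
        rw [Pi.single_eq_same, hab]
      have h2 : ∑ l, ((Pi.single i (σ * ((n + 1 : ℕ) : ℤ)) : Fin k → ℤ) l : ℝ) * θ l =
          ((n + 1 : ℕ) : ℝ) * ((σ : ℝ) * θ i) := by
        rw [Finset.sum_eq_single i]
        · rw [Pi.single_eq_same]
          push_cast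
          ring
        · intro l _ hl
          rw [Pi.single_eq_of_ne hl]
          simp
        · intro h
          exact absurd (Finset.mem_univ i) h
      rw [h1, h2]
    rw [e]
    exact h
  · intro v hv
    unfold cA
    rw [if_neg, zero_mul]
    intro hcon
    exact hv (mem_range_of_sgn i σ hσ v hcon)

lemma A_summable_aux {k : ℕ} (α : Fin k → ℝ) (i : Fin k) (hα : 0 ≤ α i) (hα1 : α i < 1)
    (σ : ℤ) (hσ : σ = 1 ∨ σ = -1) : Summable (cA α i (SignType.sign σ)) := by
  have h := (A_part_aux α i hα hα1 σ hσ 0).summable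
  refine h.congr ?_
  intro v
  simp

lemma A_part {k : ℕ} (α : Fin k → ℝ) (i : Fin k) (hα : 0 ≤ α i) (hα1 : α i < 1)
    (s : SignType) (hs : s ≠ 0) (θ : Fin k → ℝ) :
    HasSum (fun v : Fin k → ℤ =>
      cA α i s v * Real.cos (2 * Real.pi * ∑ l, (v l : ℝ) * θ l))
      (Real.log ‖1 - (α i : ℂ) * ee (((s : ℤ) : ℝ) * θ i)‖) := by
  cases s with
  | zero => exact absurd rfl hs
  | neg => simpa using A_part_aux α i hα hα1 (-1) (Or.inr rfl) θ
  | pos => simpa using A_part_aux α i hα hα1 1 (Or.inl rfl) θ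

lemma A_summable {k : ℕ} (α : Fin k → ℝ) (i : Fin k) (hα : 0 ≤ α i) (hα1 : α i < 1)
    (s : SignType) (hs : s ≠ 0) : Summable (cA α i s) := by
  cases s with
  | zero => exact absurd rfl hs
  | neg => simpa using A_summable_aux α i hα hα1 (-1) (Or.inr rfl)
  | pos => simpa using A_summable_aux α i hα hα1 1 (Or.inl rfl)

end Pool.Agent.DistinctMahler
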