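import Pool.Agent.DistinctMahler.Main

set_option autoImplicit false

namespace Pool.Agent.DistinctMahler

lemma sum_ne_zero_of_inj {ι : Type*} [DecidableEq ι] (r : ℕ) [hr : Fact r.Prime] (T : Finset ι)
    (f : ι → ℚ) (hf : ∀ i ∈ T, f i ≠ 0) (hinj : Set.InjOn (fun i => padicValRat r (f i)) T)
    (hne : T.Nonempty) : ∑ i ∈ T, f i ≠ 0 := by
  obtain ⟨v0, hv0, hmin⟩ := T.exists_min_image (fun i => padicValRat r (f i)) hne
  rw [← Finset.add_sum_erase T _ hv0]
  have hrest : padicNorm r (∑ v ∈ T.erase v0, f v) < padicNorm r (f v0) := by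
    apply padicNorm.sum_lt'
    · intro v hv
      have hvT := Finset.mem_of_mem_erase hv
      have hvne := Finset.ne_of_mem_erase hv
      apply norm_lt_of_val_lt _ _ _ (hf v0 hv0)
      right
      apply lt_of_le_of_ne (hmin v hvT)
      intro heq
      exact hvne (hinj hvT hv0 heq.symm)
    · exact lt_of_le_of_ne (padicNorm.nonneg _) (padicNorm.nonzero (hf v0 hv0)).symm
  intro h0
  have h1 : padicNorm r (f v0) = padicNorm r (∑ v ∈ T.erase v0, f v) := by
    rw [eq_neg_of_add_eq_zero_left h0, padicNorm.neg]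
  exact hrest.ne' h1

lemma axis_ne {k : ℕ} (R : ℕ) (hR : 2 ≤ R) (e : Fin k → ℤ)
    (he : ∀ i, e i = 0 ∨ e i = 1 ∨ e i = -1) (h0 : ∃ i, e i ≠ 0) :
    ∑ i, e i * (aa k R i : ℤ) ≠ 0 := by
  have : Fact (pr 1).Prime := ⟨pr_prime 1⟩
  intro hcon
  have h1 : ∑ i ∈ Finset.univ.filter (fun i => e i ≠ 0), (e i : ℚ) * (aa k R i : ℚ) = 0 := by
    rw [Finset.sum_filter]
    have h2 : ∑ i, (e i : ℚ) * (aa k R i : ℚ) = 0 := by exact_mod_cast hcon
    refine Eq.trans ?_ h2
    apply Finset.sum_congr rfl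
    intro i _
    split_ifs with h
    · rfl
    · push Not at h
      simp [h]
  revert h1
  apply sum_ne_zero_of_inj (pr 1)
  · intro i hi
    have h3 := (Finset.mem_filter.mp hi).2
    have h4 := (aa_pos k R i).ne'
    exact mul_ne_zero (by exact_mod_cast h3) (by exact_mod_cast h4)
  · have hval : ∀ i ∈ Finset.univ.filter (fun i => e i ≠ 0),
        padicValRat (pr 1) ((e i : ℚ) * (aa k R i : ℚ)) = (2 : ℤ) ^ ((i : ℕ) + 1) := by
      intro i hi
      have h3 := (Finset.mem_filter.mp hi).2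
      have h4 : padicValRat (pr 1) (aa k R i : ℚ) = (2 : ℤ) ^ ((i : ℕ) + 1) := by
        rw [padicValRat.of_nat, aa_val k R i 1 (by omega)]
        norm_num
      rcases he i with h | h | h
      · exact absurd h h3
      · rw [h]
        simpa using h4
      · rw [h]
        simpa [padicValRat.neg] using h4
    intro i hi j hj hij
    simp only at hij
    rw [hval i hi, hval j hj] at hij
    have h5 := Int.pow_right_injective (by norm_num : 1 < (2 : ℤ).natAbs) hij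
    apply Fin.ext
    omega
  · obtain ⟨i, hi⟩ := h0
    exact ⟨i, Finset.mem_filter.mpr ⟨Finset.mem_univ i, hi⟩⟩

lemma eps_neg {k : ℕ} (L L' : AddSubgroup (Fin k → ℤ)) (v : Fin k → ℤ) :
    eps L L' (-v) = eps L L' v := by
  have h1 : -v ∈ L ↔ v ∈ L := neg_mem_iff
  have h2 : -v ∈ L' ↔ v ∈ L' := neg_mem_iff
  unfold eps
  by_cases h3 : v ∈ L
  · by_cases h4 : v ∈ L'
    · rw [if_pos h3, if_pos h4, if_pos (h1.mpr h3), if_pos (h2.mpr h4)]
    · rw [if_pos h3, if_neg h4, if_pos (h1.mpr h3), if_neg (fun h => h4 (h2.mp h))]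
  · by_cases h4 : v ∈ L'
    · rw [if_neg h3, if_pos h4, if_neg (fun h => h3 (h1.mp h)), if_pos (h2.mpr h4)]
    · rw [if_neg h3, if_neg h4, if_neg (fun h => h3 (h1.mp h)), if_neg (fun h => h4 (h2.mp h))]

lemma eps_cases {k : ℕ} (L L' : AddSubgroup (Fin k → ℤ)) (v : Fin k → ℤ) :
    eps L L' v = 0 ∨ eps L L' v = 1 ∨ eps L L' v = -1 := by
  by_cases h : v ∈ TT L L'
  · exact Or.inr (eps_of_mem h)
  · exact Or.inl (eps_of_not_mem h)

/-- the vectors `± e_i` -/
noncomputable def axisSet (k : ℕ) : Finset (Fin k → ℤ) :=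
  (Finset.univ.image (fun i : Fin k => (Pi.single i 1 : Fin k → ℤ))) ∪
  (Finset.univ.image (fun i : Fin k => (Pi.single i (-1) : Fin k → ℤ)))

lemma mem_axisSet_of_lenN {k : ℕ} (v : Fin k → ℤ) (hv : lenN v = 1) : v ∈ axisSet k := by
  have hv0 : v ≠ 0 := by
    rintro rfl
    rw [lenN_zero] at hv
    omega
  obtain ⟨i, hi⟩ := exists_ne_of_ne hv0
  have h1 : 1 ≤ (v i).natAbs := Int.natAbs_pos.mpr hi
  have hsplit : lenN v = (v i).natAbs + ∑ l ∈ Finset.univ.erase i, (v l).natAbs := by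
    unfold lenN
    rw [Finset.add_sum_erase Finset.univ (fun l => (v l).natAbs) (Finset.mem_univ i)]
  have h2 : ∑ l ∈ Finset.univ.erase i, (v l).natAbs = 0 := by omega
  have h3 : (v i).natAbs = 1 := by omega
  have h4 : ∀ l, l ≠ i → v l = 0 := by
    intro l hl
    have := (Finset.sum_eq_zero_iff.mp h2) l (Finset.mem_erase.mpr ⟨hl, Finset.mem_univ l⟩)
    exact Int.natAbs_eq_zero.mp this
  unfold axisSet
  rw [Finset.mem_union, Finset.mem_image, Finset.mem_image]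
  rcases Int.natAbs_eq_iff.mp h3 with h5 | h5
  · left
    refine ⟨i, Finset.mem_univ i, ?_⟩
    funext l
    by_cases hl : l = i
    · subst hl
      rw [Pi.single_eq_same, h5]
      rfl
    · rw [Pi.single_eq_of_ne hl, h4 l hl]
  · right
    refine ⟨i, Finset.mem_univ i, ?_⟩
    funext l
    by_cases hl : l = i
    · subst hl
      rw [Pi.single_eq_same, h5]
      rfl
    · rw [Pi.single_eq_of_ne hl, h4 l hl]

lemma single_injective (k : ℕ) (m : ℤ) (hm : m ≠ 0) :
    Function.Injective (fun i : Fin k => (Pi.single i m : Fin k → ℤ)) := by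
  intro i j hij
  by_contra hne
  have h1 := congrFun hij i
  simp only at h1
  rw [Pi.single_eq_same, Pi.single_eq_of_ne hne] at h1
  exact hm h1

lemma lower_axis {k : ℕ} (hk : 2 ≤ k) (R n : ℕ) (hR : 2 ≤ R) (L L' : AddSubgroup (Fin k → ℤ))
    (h1 : ∃ v ∈ TT L L', lenN v = 1) :
    1 ≤ ((2 ^ n : ℕ) : ℝ) *
      |∑ v ∈ axisSet k, (eps L L' v : ℝ) * cc (2 ^ n) (aa k R) (EE k R) v| := by
  have hdisj : Disjoint (Finset.univ.image (fun i : Fin k => (Pi.single i 1 : Fin k → ℤ)))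
      (Finset.univ.image (fun i : Fin k => (Pi.single i (-1) : Fin k → ℤ))) := by
    rw [Finset.disjoint_left]
    intro v hv hv'
    obtain ⟨i, _, rfl⟩ := Finset.mem_image.mp hv
    obtain ⟨j, _, hj⟩ := Finset.mem_image.mp hv'
    have h2 := congrFun hj i
    rw [Pi.single_eq_same] at h2
    by_cases h : i = j
    · subst h
      rw [Pi.single_eq_same] at h2
      omega
    · rw [Pi.single_eq_of_ne h] at h2
      omega
  have hM : (0 : ℝ) < ((3 ^ (k - 1) - 1 : ℕ) : ℝ) := by exact_mod_cast MM_pos k hk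
  have hM1 : (1 : ℝ) ≤ ((3 ^ (k - 1) - 1 : ℕ) : ℝ) := by exact_mod_cast MM_pos k hk
  have hN : (0 : ℝ) < ((2 ^ n : ℕ) : ℝ) := by positivity
  have hc1 : ∀ i : Fin k, cc (2 ^ n) (aa k R) (EE k R) (Pi.single i 1) =
      -(((3 ^ (k - 1) - 1 : ℕ) : ℝ) * ((aa k R i : ℝ) / ((2 ^ n : ℕ) : ℝ))) := by
    intro i
    rw [cc_single _ _ _ i 1 one_ne_zero, MM_eq k i _ (by simp)]
    simp [al]
  have hc2 : ∀ i : Fin k, cc (2 ^ n) (aa k R) (EE k R) (Pi.single i (-1)) =
      -(((3 ^ (k - 1) - 1 : ℕ) : ℝ) * ((aa k R i : ℝ) / ((2 ^ n : ℕ) : ℝ))) := by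
    intro i
    rw [cc_single _ _ _ i (-1) (by norm_num), MM_eq k i _ (by simp)]
    simp [al]
  have heps : ∀ i : Fin k, eps L L' (Pi.single i (-1)) = eps L L' (Pi.single i 1) := by
    intro i
    rw [← eps_neg L L' (Pi.single i 1), ← Pi.single_neg]
  have hsum : ∑ v ∈ axisSet k, (eps L L' v : ℝ) * cc (2 ^ n) (aa k R) (EE k R) v =
      -(2 * ((3 ^ (k - 1) - 1 : ℕ) : ℝ) / ((2 ^ n : ℕ) : ℝ)) *
        ((∑ i, eps L L' (Pi.single i 1) * (aa k R i : ℤ) : ℤ) : ℝ) := by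
    unfold axisSet
    rw [Finset.sum_union hdisj, Finset.sum_image (fun i _ j _ h => single_injective k 1 one_ne_zero h),
      Finset.sum_image (fun i _ j _ h => single_injective k (-1) (by norm_num) h),
      ← Finset.sum_add_distrib, Int.cast_sum, Finset.mul_sum]
    apply Finset.sum_congr rfl
    intro i _
    rw [heps, hc1, hc2]
    push_cast
    ring
  have hne : ∑ i, eps L L' (Pi.single i 1) * (aa k R i : ℤ) ≠ 0 := by
    apply axis_ne R hR _ (fun i => eps_cases L L' _)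
    obtain ⟨v, hv, hv1⟩ := h1
    have hmem := mem_axisSet_of_lenN v hv1
    unfold axisSet at hmem
    rw [Finset.mem_union, Finset.mem_image, Finset.mem_image] at hmem
    rcases hmem with ⟨i, _, rfl⟩ | ⟨i, _, rfl⟩
    · refine ⟨i, ?_⟩
      rcases eps_of_mem hv with h | h <;> rw [h] <;> norm_num
    · refine ⟨i, ?_⟩
      rw [← heps]
      rcases eps_of_mem hv with h | h <;> rw [h] <;> norm_num
  rw [hsum, abs_mul, abs_neg, abs_of_pos (by positivity)]
  have h3 : (1 : ℝ) ≤ |((∑ i, eps L L' (Pi.single i 1) * (aa k R i : ℤ) : ℤ) : ℝ)| := by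
    have := Int.one_le_abs hne
    exact_mod_cast this
  have h4 : ((2 ^ n : ℕ) : ℝ) * (2 * ((3 ^ (k - 1) - 1 : ℕ) : ℝ) / ((2 ^ n : ℕ) : ℝ) *
      |((∑ i, eps L L' (Pi.single i 1) * (aa k R i : ℤ) : ℤ) : ℝ)|) =
      2 * ((3 ^ (k - 1) - 1 : ℕ) : ℝ) *
      |((∑ i, eps L L' (Pi.single i 1) * (aa k R i : ℤ) : ℤ) : ℝ)| := by
    field_simp
  rw [h4]
  nlinarith

end Pool.Agent.DistinctMahler
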