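import Pool.Agent.DistinctMahler.Poly

set_option autoImplicit false

namespace Pool.Agent.DistinctMahler

/-- natural `ℓ¹` length -/
def lenN {k : ℕ} (v : Fin k → ℤ) : ℕ := ∑ i, (v i).natAbs

lemma len_eq_lenN {k : ℕ} (v : Fin k → ℤ) : len v = (lenN v : ℤ) := by
  unfold len lenN
  push_cast
  rfl

/-- the integer products of binomial coefficients -/
def bprod {k : ℕ} (j : ℕ) (v : Fin k → ℤ) : ℕ :=
  ∏ i, if v i = 0 then 1 else Nat.choose ((v i).natAbs - 1) (j - 1)

/-- `β_v` -/
def bet {k : ℕ} (E : ℕ) (v : Fin k → ℤ) : ℚ :=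
  ∑ j ∈ Finset.Icc 1 (lenN v), ((E : ℚ) ^ j / j) * (bprod j v : ℚ)

lemma wt_eq {k : ℕ} (α : Fin k → ℝ) (j : ℕ) (v : Fin k → ℤ) :
    wt α j v = (bprod j v : ℝ) * ∏ i, α i ^ (v i).natAbs := by
  unfold wt bprod
  rw [Nat.cast_prod, ← Finset.prod_mul_distrib]
  apply Finset.prod_congr rfl
  intro i _
  split_ifs with h
  · simp [h]
  · rfl

lemma natAbs_le_lenN {k : ℕ} (v : Fin k → ℤ) (i : Fin k) : (v i).natAbs ≤ lenN v :=
  Finset.single_le_sum (f := fun i => (v i).natAbs) (fun _ _ => Nat.zero_le _) (Finset.mem_univ i)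

lemma exists_ne_of_ne {k : ℕ} {v : Fin k → ℤ} (hv : v ≠ 0) : ∃ i, v i ≠ 0 := by
  by_contra hcon
  push Not at hcon
  exact hv (funext hcon)

lemma bprod_eq_zero {k : ℕ} (j : ℕ) (v : Fin k → ℤ) (i : Fin k) (hi : v i ≠ 0)
    (hj : (v i).natAbs < j) : bprod j v = 0 := by
  unfold bprod
  apply Finset.prod_eq_zero (Finset.mem_univ i)
  rw [if_neg hi]
  apply Nat.choose_eq_zero_of_lt
  have : (v i).natAbs ≠ 0 := Int.natAbs_ne_zero.mpr hi
  omega

lemma cR_eq {k : ℕ} (E : ℕ) (α : Fin k → ℝ) (u : Fin k → SignType) (v : Fin k → ℤ) (hv : v ≠ 0) :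
    cR (E : ℝ) α u v = if sgn v = u then -((bet E v : ℝ) * ∏ i, α i ^ (v i).natAbs) else 0 := by
  unfold cR gg
  split_ifs with h
  · congr 1
    rw [tsum_eq_sum (s := Finset.Icc 1 (lenN v))]
    · unfold bet
      push_cast
      rw [Finset.sum_mul]
      apply Finset.sum_congr rfl
      intro j _
      rw [wt_eq]
      ring
    · intro j hj
      rcases Nat.eq_zero_or_pos j with h0 | h0
      · subst h0
        simp
      · obtain ⟨i, hi⟩ := exists_ne_of_ne hv
        have h1 : lenN v < j := by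
          by_contra hcon
          push Not at hcon
          exact hj (Finset.mem_Icc.mpr ⟨h0, hcon⟩)
        rw [wt_eq, bprod_eq_zero j v i hi (lt_of_le_of_lt (natAbs_le_lenN v i) h1)]
        simp
  · simp

/-- number of nonzero coordinates -/
def supc {k : ℕ} (v : Fin k → ℤ) : ℕ := (Finset.univ.filter (fun i => v i ≠ 0)).card

lemma sgn_mem_UU {k : ℕ} (v : Fin k → ℤ) : sgn v ∈ UU k ↔ 2 ≤ supc v := by
  unfold UU supc sgn
  simp only [Finset.mem_filter, Finset.mem_univ, true_and, ne_eq, sign_eq_zero_iff]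

lemma supc_single {k : ℕ} (v : Fin k → ℤ) (i : Fin k) (s : SignType)
    (h : sgn v = Pi.single i s) : supc v ≤ 1 := by
  unfold supc
  rw [Finset.card_le_one]
  intro a ha b hb
  simp only [Finset.mem_filter, Finset.mem_univ, true_and] at ha hb
  have key : ∀ l, v l ≠ 0 → l = i := by
    intro l hl
    by_contra hne
    have := congrFun h l
    rw [Pi.single_eq_of_ne hne] at this
    exact hl (sign_eq_zero_iff.mp this)
  rw [key a ha, key b hb]

/-- the rational value of `cc` at vectors with at least two nonzero coordinates -/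
noncomputable def qq {k : ℕ} (N : ℕ) (a : Fin k → ℕ) (E : (Fin k → SignType) → ℕ) (v : Fin k → ℤ) : ℚ :=
  -(bet (E (fun i => SignType.sign (v i))) v * ∏ i, ((a i : ℚ) / N) ^ (v i).natAbs)

lemma cc_eq_qq {k : ℕ} (N : ℕ) (a : Fin k → ℕ) (E : (Fin k → SignType) → ℕ) (v : Fin k → ℤ)
    (hv : 2 ≤ supc v) : cc N a E v = (qq N a E v : ℝ) := by
  have hv0 : v ≠ 0 := by
    rintro rfl
    simp [supc] at hv
  unfold cc
  rw [Finset.sum_eq_single (sgn v)]
  · rw [if_neg hv0, zero_add, cR_eq _ _ _ _ hv0, if_pos rfl, Finset.sum_eq_zero, zero_add]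
    · unfold qq al
      push_cast
      rfl
    · intro i _
      split_ifs
      · rfl
      · unfold cA
        rw [if_neg]
        intro hcon
        have := supc_single v i _ hcon
        omega
  · intro u _ hu
    rw [if_neg hv0, zero_add, cR_eq _ _ _ _ hv0, if_neg (fun h => hu h.symm), add_zero]
    apply Finset.sum_eq_zero
    intro i _
    split_ifs
    · rfl
    · unfold cA
      rw [if_neg]
      intro hcon
      have := supc_single v i _ hcon
      omega
  · intro h
    exact absurd ((sgn_mem_UU v).mpr hv) h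

lemma bprod_one {k : ℕ} (v : Fin k → ℤ) : bprod 1 v = 1 := by
  unfold bprod
  apply Finset.prod_eq_one
  intro i _
  split_ifs <;> simp

lemma lenN_pos {k : ℕ} {v : Fin k → ℤ} (hv : v ≠ 0) : 1 ≤ lenN v := by
  obtain ⟨i, hi⟩ := exists_ne_of_ne hv
  have h1 := natAbs_le_lenN v i
  have h2 : (v i).natAbs ≠ 0 := Int.natAbs_ne_zero.mpr hi
  omega

lemma bet_ge {k : ℕ} (E : ℕ) (v : Fin k → ℤ) (hv : v ≠ 0) : (E : ℚ) ≤ bet E v := by
  unfold bet
  have h1 : (1 : ℕ) ∈ Finset.Icc 1 (lenN v) := Finset.mem_Icc.mpr ⟨le_rfl, lenN_pos hv⟩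
  have h2 := Finset.single_le_sum (f := fun j : ℕ => ((E : ℚ) ^ j / j) * (bprod j v : ℚ))
    (fun j _ => by positivity) h1
  simpa [bprod_one] using h2

lemma bet_pos {k : ℕ} (E : ℕ) (hE : 0 < E) (v : Fin k → ℤ) (hv : v ≠ 0) : 0 < bet E v :=
  lt_of_lt_of_le (by exact_mod_cast hE) (bet_ge E v hv)

/-- vectors with exactly one nonzero coordinate -/
lemma eq_single_of_supc {k : ℕ} (v : Fin k → ℤ) (hv : v ≠ 0) (h : supc v < 2) :
    ∃ i, v i ≠ 0 ∧ v = Pi.single i (v i) := by
  obtain ⟨i, hi⟩ := exists_ne_of_ne hv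
  refine ⟨i, hi, ?_⟩
  have hc : (Finset.univ.filter (fun i => v i ≠ 0)).card ≤ 1 := by
    unfold supc at h
    omega
  rw [Finset.card_le_one] at hc
  funext l
  by_cases hl : l = i
  · subst hl
    simp
  · rw [Pi.single_eq_of_ne hl]
    by_contra hne
    exact hl (hc l (by simp [hne]) i (by simp [hi]))

/-- the number of sign vectors in `UU k` with `i`-th sign `s` -/
def MM (k : ℕ) (i : Fin k) (s : SignType) : ℕ := ((UU k).filter (fun u => u i = s)).card

lemma cc_single {k : ℕ} (N : ℕ) (a : Fin k → ℕ) (E : (Fin k → SignType) → ℕ) (i : Fin k)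
    (m : ℤ) (hm : m ≠ 0) :
    cc N a E (Pi.single i m) =
      -((MM k i (SignType.sign m) : ℝ) * (al N a i ^ m.natAbs / m.natAbs)) := by
  have hv0 : (Pi.single i m : Fin k → ℤ) ≠ 0 := by
    intro h
    have := congrFun h i
    simp at this
    exact hm this
  have hs : SignType.sign m ≠ 0 := by
    intro h
    exact hm (sign_eq_zero_iff.mp h)
  unfold cc
  have hterm : ∀ u ∈ UU k, ((if (Pi.single i m : Fin k → ℤ) = 0 then
      (∑ i, if u i = 0 then 0 else Real.log N) else 0) +
      ((∑ l, if u l = 0 then 0 else cA (al N a) l (u l) (Pi.single i m)) +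
        cR (E u) (al N a) u (Pi.single i m))) =
      if u i = SignType.sign m then -(al N a i ^ m.natAbs / m.natAbs) else 0 := by
    intro u hu
    rw [if_neg hv0, zero_add, cR_eq _ _ _ _ hv0, if_neg, add_zero]
    · rw [Finset.sum_eq_single i]
      · by_cases h1 : u i = SignType.sign m
        · rw [if_neg (by rw [h1]; exact hs), if_pos h1]
          unfold cA
          rw [if_pos (by rw [sgn_single, h1]), Pi.single_eq_same]
        · rw [if_neg h1]
          split_ifs with h2
          · rfl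
          · unfold cA
            rw [if_neg]
            intro hcon
            rw [sgn_single] at hcon
            have := congrFun hcon i
            rw [Pi.single_eq_same, Pi.single_eq_same] at this
            exact h1 this.symm
      · intro l _ hl
        split_ifs with h2
        · rfl
        · unfold cA
          rw [if_neg]
          intro hcon
          rw [sgn_single] at hcon
          have := congrFun hcon l
          rw [Pi.single_eq_same, Pi.single_eq_of_ne hl] at this
          exact h2 this.symm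
      · intro h
        exact absurd (Finset.mem_univ i) h
    · intro hcon
      rw [← hcon, sgn_mem_UU] at hu
      have h3 := supc_single (Pi.single i m : Fin k → ℤ) i (SignType.sign m) (sgn_single i m)
      omega
  rw [Finset.sum_congr rfl hterm, ← Finset.sum_filter, Finset.sum_const]
  unfold MM
  rw [nsmul_eq_mul]
  ring

lemma MM_eq (k : ℕ) (i : Fin k) (s : SignType) (hs : s ≠ 0) : MM k i s = 3 ^ (k - 1) - 1 := by
  unfold MM
  have h1 : (UU k).filter (fun u => u i = s) =
      (Fintype.piFinset (fun l : Fin k => if l = i then ({s} : Finset SignType)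
        else Finset.univ)).erase (Pi.single i s) := by
    ext u
    simp only [UU, Finset.mem_filter, Finset.mem_univ, true_and, Finset.mem_erase,
      Fintype.mem_piFinset]
    constructor
    · rintro ⟨h2, h3⟩
      refine ⟨?_, ?_⟩
      · rintro rfl
        have : (Finset.univ.filter (fun l : Fin k => (Pi.single i s : Fin k → SignType) l ≠ 0)).card
            ≤ 1 := by
          rw [Finset.card_le_one]
          intro a ha b hb
          simp only [Finset.mem_filter, Finset.mem_univ, true_and] at ha hb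
          have key : ∀ l, (Pi.single i s : Fin k → SignType) l ≠ 0 → l = i := by
            intro l hl
            by_contra hne
            rw [Pi.single_eq_of_ne hne] at hl
            exact hl rfl
          rw [key a ha, key b hb]
        omega
      · intro l
        split_ifs with h
        · subst h
          simpa using h3
        · simp
    · rintro ⟨h2, h3⟩
      have h4 : u i = s := by
        have := h3 i
        simpa using this
      refine ⟨?_, h4⟩
      by_contra hcon
      push Not at hcon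
      have hc : (Finset.univ.filter (fun l => u l ≠ 0)).card ≤ 1 := by omega
      rw [Finset.card_le_one] at hc
      apply h2
      funext l
      by_cases hl : l = i
      · subst hl
        simpa using h4
      · rw [Pi.single_eq_of_ne hl]
        by_contra hne
        exact hl (hc l (by simp [hne]) i (by simp [h4, hs]))
  rw [h1, Finset.card_erase_of_mem]
  · rw [Fintype.card_piFinset]
    congr 1
    rw [← Finset.mul_prod_erase Finset.univ _ (Finset.mem_univ i)]
    rw [if_pos rfl, Finset.card_singleton, one_mul]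
    rw [Finset.prod_congr rfl (g := fun _ => 3)]
    · rw [Finset.prod_const, Finset.card_erase_of_mem (Finset.mem_univ i), Finset.card_univ,
        Fintype.card_fin]
    · intro l hl
      rw [if_neg (Finset.ne_of_mem_erase hl)]
      rfl
  · rw [Fintype.mem_piFinset]
    intro l
    split_ifs with h
    · subst h
      simp
    · simp

lemma MM_pos (k : ℕ) (hk : 2 ≤ k) : 1 ≤ 3 ^ (k - 1) - 1 := by
  have : 3 ^ 1 ≤ 3 ^ (k - 1) := Nat.pow_le_pow_right (by norm_num) (by omega)
  omega

/-- all coefficients away from the origin are negative -/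
lemma cc_neg {k : ℕ} (hk : 2 ≤ k) (N : ℕ) (hN : 0 < N) (a : Fin k → ℕ) (ha : ∀ i, 0 < a i)
    (E : (Fin k → SignType) → ℕ) (hE : ∀ u, 0 < E u) (v : Fin k → ℤ) (hv : v ≠ 0) :
    cc N a E v < 0 := by
  rcases Nat.lt_or_ge (supc v) 2 with h | h
  · obtain ⟨i, hi, hvi⟩ := eq_single_of_supc v hv h
    rw [hvi, cc_single N a E i (v i) hi, MM_eq k i _ (by
      intro h; exact hi (sign_eq_zero_iff.mp h))]
    have h1 : (0 : ℝ) < ((3 ^ (k - 1) - 1 : ℕ) : ℝ) := by
      exact_mod_cast MM_pos k hk
    have h2 : 0 < al N a i := by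
      unfold al
      have := ha i
      positivity
    have h3 : 0 < ((v i).natAbs : ℝ) := by
      exact_mod_cast Int.natAbs_pos.mpr hi
    have : 0 < ((3 ^ (k - 1) - 1 : ℕ) : ℝ) * (al N a i ^ (v i).natAbs / (v i).natAbs) := by
      positivity
    linarith
  · rw [cc_eq_qq N a E v h]
    have h1 : qq N a E v < 0 := by
      unfold qq
      have h2 := bet_pos (E (fun i => SignType.sign (v i))) (hE _) v hv
      have h3 : 0 < ∏ i, ((a i : ℚ) / N) ^ (v i).natAbs := by
        apply Finset.prod_pos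
        intro i _
        have := ha i
        positivity
      have := mul_pos h2 h3
      linarith
    exact_mod_cast h1

/-- integrality: `|v_i| * β_v` is an integer -/
lemma bet_integral {k : ℕ} (E : ℕ) (v : Fin k → ℤ) (i : Fin k) (hi : v i ≠ 0) :
    ∃ z : ℤ, ((v i).natAbs : ℚ) * bet E v = z := by
  unfold bet
  rw [Finset.mul_sum]
  have hterm : ∀ j ∈ Finset.Icc 1 (lenN v),
      ((v i).natAbs : ℚ) * (((E : ℚ) ^ j / j) * (bprod j v : ℚ)) =
      ((E ^ j * ((v i).natAbs.choose j * ∏ l ∈ Finset.univ.erase i,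
        (if v l = 0 then 1 else Nat.choose ((v l).natAbs - 1) (j - 1))) : ℕ) : ℚ) := by
    intro j hj
    have hj1 : 1 ≤ j := (Finset.mem_Icc.mp hj).1
    have hb : bprod j v = Nat.choose ((v i).natAbs - 1) (j - 1) * ∏ l ∈ Finset.univ.erase i,
        (if v l = 0 then 1 else Nat.choose ((v l).natAbs - 1) (j - 1)) := by
      unfold bprod
      rw [← Finset.mul_prod_erase Finset.univ _ (Finset.mem_univ i), if_neg hi]
    have hn : (v i).natAbs ≠ 0 := Int.natAbs_ne_zero.mpr hi
    have hc : (v i).natAbs * Nat.choose ((v i).natAbs - 1) (j - 1) =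
        (v i).natAbs.choose j * j := by
      obtain ⟨n, hn'⟩ := Nat.exists_eq_succ_of_ne_zero hn
      obtain ⟨j', hj'⟩ := Nat.exists_eq_succ_of_ne_zero (by omega : j ≠ 0)
      rw [hn', hj']
      simp only [Nat.succ_eq_add_one, Nat.add_sub_cancel]
      exact Nat.add_one_mul_choose_eq n j'
    have hc' : ((v i).natAbs : ℚ) * (Nat.choose ((v i).natAbs - 1) (j - 1) : ℚ) =
        ((v i).natAbs.choose j : ℚ) * j := by exact_mod_cast hc
    rw [hb]
    push_cast
    have hj0 : (j : ℚ) ≠ 0 := by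
      have : j ≠ 0 := by omega
      exact_mod_cast this
    calc ((v i).natAbs : ℚ) * ((E : ℚ) ^ j / j * ((Nat.choose ((v i).natAbs - 1) (j - 1) : ℚ) *
          ∏ l ∈ Finset.univ.erase i,
            (if v l = 0 then 1 else (Nat.choose ((v l).natAbs - 1) (j - 1) : ℚ))))
        = (((v i).natAbs : ℚ) * (Nat.choose ((v i).natAbs - 1) (j - 1) : ℚ)) * ((E : ℚ) ^ j / j) *
          ∏ l ∈ Finset.univ.erase i,
            (if v l = 0 then 1 else (Nat.choose ((v l).natAbs - 1) (j - 1) : ℚ)) := by ring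
      _ = _ := by
        rw [hc']
        field_simp
  rw [Finset.sum_congr rfl hterm, ← Nat.cast_sum]
  exact ⟨((∑ j ∈ Finset.Icc 1 (lenN v), E ^ j * ((v i).natAbs.choose j *
    ∏ l ∈ Finset.univ.erase i,
      (if v l = 0 then 1 else Nat.choose ((v l).natAbs - 1) (j - 1))) : ℕ) : ℤ), by norm_cast⟩

lemma prod_pow_len {k : ℕ} (N : ℕ) (v : Fin k → ℤ) :
    ∏ i : Fin k, (N : ℚ) ^ (v i).natAbs = (N : ℚ) ^ lenN v := by
  unfold lenN
  rw [Finset.prod_pow_eq_pow_sum]

lemma qq_integral {k : ℕ} (N : ℕ) (hN : 0 < N) (a : Fin k → ℕ) (E : (Fin k → SignType) → ℕ)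
    (v : Fin k → ℤ) (i : Fin k) (hi : v i ≠ 0) :
    ∃ z : ℤ, (N : ℚ) ^ lenN v * ((v i).natAbs : ℚ) * qq N a E v = z := by
  obtain ⟨z, hz⟩ := bet_integral (E (fun i => SignType.sign (v i))) v i hi
  refine ⟨-(z * ∏ i, ((a i : ℤ)) ^ (v i).natAbs), ?_⟩
  unfold qq
  push_cast
  rw [← hz]
  have h1 : ∏ i, ((a i : ℚ) / N) ^ (v i).natAbs =
      (∏ i, (a i : ℚ) ^ (v i).natAbs) / (N : ℚ) ^ lenN v := by
    rw [← prod_pow_len, ← Finset.prod_div_distrib]
    apply Finset.prod_congr rfl
    intro l _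
    rw [div_pow]
  rw [h1]
  have hN' : (N : ℚ) ^ lenN v ≠ 0 := by positivity
  field_simp

lemma bprod_le {k : ℕ} (j : ℕ) (v : Fin k → ℤ) : bprod j v ≤ 2 ^ lenN v := by
  unfold bprod lenN
  rw [← Finset.prod_pow_eq_pow_sum]
  apply Finset.prod_le_prod'
  intro i _
  split_ifs with h
  · exact Nat.one_le_two_pow
  · refine (Nat.choose_le_two_pow _ _).trans ?_
    exact Nat.pow_le_pow_right (by norm_num) (Nat.sub_le _ _)

lemma bet_le {k : ℕ} (E E' : ℕ) (h1 : E ≤ E') (h2 : 1 ≤ E') (v : Fin k → ℤ) :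
    bet E v ≤ ((4 * E' : ℕ) : ℚ) ^ lenN v := by
  unfold bet
  have hterm : ∀ j ∈ Finset.Icc 1 (lenN v), ((E : ℚ) ^ j / j) * (bprod j v : ℚ) ≤
      (E' : ℚ) ^ lenN v * 2 ^ lenN v := by
    intro j hj
    obtain ⟨hj1, hj2⟩ := Finset.mem_Icc.mp hj
    have hE1 : (E : ℚ) ^ j ≤ (E' : ℚ) ^ lenN v := by
      calc (E : ℚ) ^ j ≤ (E' : ℚ) ^ j := by
            apply pow_le_pow_left₀ (Nat.cast_nonneg _)
            exact_mod_cast h1
        _ ≤ (E' : ℚ) ^ lenN v := pow_le_pow_right₀ (by exact_mod_cast h2) hj2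
    have hj0 : (1 : ℚ) ≤ j := by exact_mod_cast hj1
    have h3 : (E : ℚ) ^ j / j ≤ (E' : ℚ) ^ lenN v := by
      refine (div_le_self (by positivity) hj0).trans hE1
    have h4 : (bprod j v : ℚ) ≤ 2 ^ lenN v := by exact_mod_cast bprod_le j v
    exact mul_le_mul h3 h4 (Nat.cast_nonneg _) (by positivity)
  refine (Finset.sum_le_sum hterm).trans ?_
  rw [Finset.sum_const, Nat.card_Icc, nsmul_eq_mul]
  have h5 : ((lenN v + 1 - 1 : ℕ) : ℚ) ≤ 2 ^ lenN v := by
    rw [Nat.add_sub_cancel]
    exact_mod_cast (Nat.lt_two_pow_self).le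
  calc ((lenN v + 1 - 1 : ℕ) : ℚ) * ((E' : ℚ) ^ lenN v * 2 ^ lenN v)
      ≤ 2 ^ lenN v * ((E' : ℚ) ^ lenN v * 2 ^ lenN v) :=
        mul_le_mul_of_nonneg_right h5 (by positivity)
    _ = ((4 * E' : ℕ) : ℚ) ^ lenN v := by
      rw [← mul_pow, ← mul_pow]
      congr 1
      push_cast
      ring

/-- the constant in the upper bound -/
def BB {k : ℕ} (a : Fin k → ℕ) (E : (Fin k → SignType) → ℕ) : ℕ :=
  4 * (∑ u, E u + 1) * (∑ i, a i + 1) * 3 ^ k

lemma prod_al_le {k : ℕ} (N : ℕ) (a : Fin k → ℕ) (v : Fin k → ℤ) :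
    ∏ i, ((a i : ℚ) / N) ^ (v i).natAbs ≤ (((∑ i, a i + 1 : ℕ) : ℚ) / N) ^ lenN v := by
  unfold lenN
  rw [← Finset.prod_pow_eq_pow_sum]
  apply Finset.prod_le_prod
  · intro i _
    positivity
  · intro i _
    apply pow_le_pow_left₀ (by positivity)
    apply div_le_div_of_nonneg_right _ (Nat.cast_nonneg N)
    have : a i ≤ ∑ i, a i + 1 :=
      (Finset.single_le_sum (f := a) (fun _ _ => Nat.zero_le _) (Finset.mem_univ i)).trans
        (Nat.le_succ _)
    exact_mod_cast this

lemma abs_cc_le {k : ℕ} (N : ℕ) (hN : 0 < N) (a : Fin k → ℕ)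
    (E : (Fin k → SignType) → ℕ) (v : Fin k → ℤ) (hv : v ≠ 0) :
    |cc N a E v| ≤ ((BB a E : ℝ) / N) ^ lenN v := by
  have hNr : (0 : ℝ) < N := by exact_mod_cast hN
  rcases Nat.lt_or_ge (supc v) 2 with h | h
  · obtain ⟨i, hi, hvi⟩ := eq_single_of_supc v hv h
    have hlen : lenN v = (v i).natAbs := by
      unfold lenN
      apply Finset.sum_eq_single i
      · intro l _ hl
        rw [hvi, Pi.single_eq_of_ne hl]
        rfl
      · intro h
        exact absurd (Finset.mem_univ i) h
    have hm1 : 1 ≤ (v i).natAbs := Int.natAbs_pos.mpr hi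
    rw [hlen]
    conv_lhs => rw [hvi]
    rw [cc_single N a E i (v i) hi, MM_eq k i _ (by
      intro h; exact hi (sign_eq_zero_iff.mp h)), abs_neg]
    have hal := al_nonneg N a i
    rw [abs_of_nonneg (by positivity)]
    have h1 : ((3 ^ (k - 1) - 1 : ℕ) : ℝ) ≤ (3 : ℝ) ^ k := by
      have : 3 ^ (k - 1) - 1 ≤ 3 ^ k :=
        (Nat.sub_le _ _).trans (Nat.pow_le_pow_right (by norm_num) (Nat.sub_le _ _))
      exact_mod_cast this
    have h2 : al N a i ^ (v i).natAbs / (v i).natAbs ≤ al N a i ^ (v i).natAbs :=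
      div_le_self (by positivity) (by exact_mod_cast hm1)
    have h3 : al N a i ≤ ((∑ i, a i + 1 : ℕ) : ℝ) / N := by
      unfold al
      apply div_le_div_of_nonneg_right _ hNr.le
      have : a i ≤ ∑ i, a i + 1 :=
        (Finset.single_le_sum (f := a) (fun _ _ => Nat.zero_le _) (Finset.mem_univ i)).trans
          (Nat.le_succ _)
      exact_mod_cast this
    calc ((3 ^ (k - 1) - 1 : ℕ) : ℝ) * (al N a i ^ (v i).natAbs / (v i).natAbs)
        ≤ (3 : ℝ) ^ k * al N a i ^ (v i).natAbs :=
          mul_le_mul h1 h2 (by positivity) (by positivity)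
      _ ≤ ((3 : ℝ) ^ k) ^ (v i).natAbs * (((∑ i, a i + 1 : ℕ) : ℝ) / N) ^ (v i).natAbs := by
          apply mul_le_mul
          · exact le_self_pow₀ (one_le_pow₀ (by norm_num)) (by omega)
          · exact pow_le_pow_left₀ hal h3 _
          · positivity
          · positivity
      _ = ((3 : ℝ) ^ k * (((∑ i, a i + 1 : ℕ) : ℝ) / N)) ^ (v i).natAbs := by rw [mul_pow]
      _ ≤ ((BB a E : ℝ) / N) ^ (v i).natAbs := by
          apply pow_le_pow_left₀ (by positivity)
          rw [← mul_div_assoc]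
          apply div_le_div_of_nonneg_right _ hNr.le
          have : 3 ^ k * (∑ i, a i + 1) ≤ BB a E := by
            unfold BB
            nlinarith [Nat.zero_le (∑ u, E u), Nat.zero_le (∑ i, a i),
              Nat.zero_le (3 ^ k * (∑ i, a i + 1)),
              Nat.zero_le ((∑ u, E u) * (3 ^ k * (∑ i, a i + 1)))]
          exact_mod_cast this
  · rw [cc_eq_qq N a E v h]
    have h1 : |qq N a E v| ≤ ((BB a E : ℚ) / N) ^ lenN v := by
      unfold qq
      rw [abs_neg]
      have hb0 : 0 ≤ bet (E fun i => SignType.sign (v i)) v := by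
        unfold bet
        positivity
      rw [abs_of_nonneg (by positivity)]
      have hE : E (fun i => SignType.sign (v i)) ≤ ∑ u, E u + 1 :=
        (Finset.single_le_sum (f := E) (fun _ _ => Nat.zero_le _) (Finset.mem_univ _)).trans
          (Nat.le_succ _)
      have h2 := bet_le (E fun i => SignType.sign (v i)) (∑ u, E u + 1) hE (by omega) v
      have h3 := prod_al_le N a v
      calc bet (E fun i => SignType.sign (v i)) v * ∏ i, ((a i : ℚ) / N) ^ (v i).natAbs
          ≤ ((4 * (∑ u, E u + 1) : ℕ) : ℚ) ^ lenN v *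
              (((∑ i, a i + 1 : ℕ) : ℚ) / N) ^ lenN v :=
            mul_le_mul h2 h3 (by positivity) (by positivity)
        _ = (((4 * (∑ u, E u + 1) : ℕ) : ℚ) * (((∑ i, a i + 1 : ℕ) : ℚ) / N)) ^ lenN v := by
            rw [mul_pow]
        _ ≤ ((BB a E : ℚ) / N) ^ lenN v := by
            apply pow_le_pow_left₀ (by positivity)
            rw [← mul_div_assoc]
            apply div_le_div_of_nonneg_right _ (by exact_mod_cast hN.le)
            have : 4 * (∑ u, E u + 1) * (∑ i, a i + 1) ≤ BB a E := by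
              unfold BB
              exact Nat.le_mul_of_pos_right _ (by positivity)
            exact_mod_cast this
    have h4 : ((|qq N a E v| : ℚ) : ℝ) ≤ ((((BB a E : ℚ) / N) ^ lenN v : ℚ) : ℝ) := by
      exact_mod_cast h1
    push_cast at h4
    exact h4

end Pool.Agent.DistinctMahler
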