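import Mathlib

set_option autoImplicit false

namespace Pool.Agent.DistinctMahler
open Polynomial

lemma circle_inv_inside (a : ℂ) (ha : ‖a‖ < 1) :
    (∮ z in C(0, 1), (z - a)⁻¹) = 2 * Real.pi * Complex.I :=
  circleIntegral.integral_sub_inv_of_mem_ball (by simpa using ha)

lemma circle_inv_outside (a : ℂ) (ha : 1 < ‖a‖) :
    (∮ z in C(0, 1), (z - a)⁻¹) = 0 := by
  apply DiffContOnCl.circleIntegral_eq_zero zero_le_one
  have hU : DifferentiableOn ℂ (fun z : ℂ => (z - a)⁻¹) (Metric.closedBall 0 1) := by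
    intro z hz
    have hz1 : ‖z‖ ≤ 1 := by simpa using hz
    have hne : z - a ≠ 0 := by
      intro h
      have : z = a := sub_eq_zero.mp h
      rw [this] at hz1
      linarith
    exact ((differentiableAt_id.sub_const a).inv hne).differentiableWithinAt
  exact DifferentiableOn.diffContOnCl (hU.mono Metric.closure_ball_subset_closedBall)

lemma circleIntegrable_inv (a : ℂ) (ha : ‖a‖ ≠ 1) :
    CircleIntegrable (fun z : ℂ => (z - a)⁻¹) 0 1 := by
  apply ContinuousOn.circleIntegrable zero_le_one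
  intro z hz
  have hz1 : ‖z‖ = 1 := by simpa using hz
  have hne : z - a ≠ 0 := by
    intro h
    have : z = a := sub_eq_zero.mp h
    rw [this] at hz1
    exact ha hz1
  exact ((continuousAt_id.sub continuousAt_const).inv₀ hne).continuousWithinAt

lemma circle_sum (s : Multiset ℂ) (hs : ∀ a ∈ s, ‖a‖ ≠ 1) :
    CircleIntegrable (fun z : ℂ => (s.map (fun a => (z - a)⁻¹)).sum) 0 1 ∧
    (∮ z in C(0, 1), (s.map (fun a => (z - a)⁻¹)).sum) =
      2 * Real.pi * Complex.I * ((s.filter (fun a => ‖a‖ < 1)).card : ℂ) := by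
  induction s using Multiset.induction_on with
  | empty => simp [circleIntegral]
  | cons a s ih =>
    obtain ⟨h1, h2⟩ := ih (fun b hb => hs b (Multiset.mem_cons_of_mem hb))
    have ha := hs a (Multiset.mem_cons_self a s)
    have hI := circleIntegrable_inv a ha
    simp only [Multiset.map_cons, Multiset.sum_cons]
    refine ⟨hI.add h1, ?_⟩
    rw [circleIntegral.integral_add hI h1, h2]
    rcases lt_or_gt_of_ne ha with h | h
    · have e1 : (a ::ₘ s).filter (fun a => ‖a‖ < 1) = a ::ₘ s.filter (fun a => ‖a‖ < 1) :=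
        Multiset.filter_cons_of_pos s h
      rw [circle_inv_inside a h, e1, Multiset.card_cons]
      push_cast
      ring
    · have e1 : (a ::ₘ s).filter (fun a => ‖a‖ < 1) = s.filter (fun a => ‖a‖ < 1) :=
        Multiset.filter_cons_of_neg s (not_lt.mpr h.le)
      rw [circle_inv_outside a h, e1]
      ring

/-- A polynomial dominated on the unit circle by its monomial `c z^e` has exactly `e` roots in the
open unit disc and none on the unit circle. -/
theorem card_inside (Q : ℂ[X]) (c : ℂ) (hc : c ≠ 0) (e : ℕ)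
    (h : ∀ z : ℂ, ‖z‖ = 1 → ‖Q.eval z - c * z ^ e‖ < ‖c‖) :
    (∀ a ∈ Q.roots, ‖a‖ ≠ 1) ∧ (Q.roots.filter (fun a => ‖a‖ < 1)).card = e := by
  have hQ : ∀ z : ℂ, ‖z‖ = 1 → Q.eval z ≠ 0 := by
    intro z hz h0
    have := h z hz
    rw [h0, zero_sub, norm_neg, norm_mul, norm_pow, hz, one_pow, mul_one] at this
    exact lt_irrefl _ this
  have hr : ∀ a ∈ Q.roots, ‖a‖ ≠ 1 := by
    intro a ha h1
    exact hQ a h1 (isRoot_of_mem_roots ha)
  refine ⟨hr, ?_⟩
  have hzne : ∀ z : ℂ, ‖z‖ = 1 → z ≠ 0 := by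
    rintro z hz rfl
    simp at hz
  have hprim : (∮ z in C(0, 1), (Q.derivative.eval z / Q.eval z - (e : ℂ) * (z - 0)⁻¹)) = 0 := by
    apply circleIntegral.integral_eq_zero_of_hasDerivWithinAt
      (f := fun z => Complex.log (Q.eval z / (c * z ^ e))) zero_le_one
    intro z hz
    have hz1 : ‖z‖ = 1 := by simpa using hz
    have hz0 := hzne z hz1
    have hcz : c * z ^ e ≠ 0 := mul_ne_zero hc (pow_ne_zero _ hz0)
    have hQz := hQ z hz1
    have hslit : Q.eval z / (c * z ^ e) ∈ Complex.slitPlane := by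
      have h1 : ‖Q.eval z / (c * z ^ e) - 1‖ < 1 := by
        rw [div_sub_one hcz, norm_div, norm_mul, norm_pow, hz1, one_pow, mul_one,
          div_lt_one (norm_pos_iff.mpr hc)]
        exact h z hz1
      have h2 := Complex.mem_slitPlane_of_norm_lt_one h1
      rwa [add_sub_cancel] at h2
    have hd1 : HasDerivAt (fun z => Q.eval z) (Q.derivative.eval z) z := Q.hasDerivAt z
    have hd2 : HasDerivAt (fun z : ℂ => c * z ^ e) (c * ((e : ℂ) * z ^ (e - 1))) z :=
      (hasDerivAt_pow e z).const_mul c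
    have hd3 := (hd1.div hd2 hcz).clog hslit
    have hval : ((Q.derivative.eval z * (c * z ^ e) - Q.eval z * (c * ((e : ℂ) * z ^ (e - 1)))) /
        (c * z ^ e) ^ 2) / (Q.eval z / (c * z ^ e)) =
        Q.derivative.eval z / Q.eval z - (e : ℂ) * (z - 0)⁻¹ := by
      rw [sub_zero]
      rcases Nat.eq_zero_or_pos e with he | he
      · subst he
        field_simp
        simp
      · obtain ⟨d, rfl⟩ : ∃ d, e = d + 1 := ⟨e - 1, by omega⟩
        rw [Nat.add_sub_cancel]
        field_simp
        ring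
    rw [← hval]
    exact hd3.hasDerivWithinAt
  have hsplit := IsAlgClosed.splits Q
  have hEq : (∮ z in C(0, 1), (Q.derivative.eval z / Q.eval z - (e : ℂ) * (z - 0)⁻¹)) =
      (∮ z in C(0, 1), ((Q.roots.map (fun a => (z - a)⁻¹)).sum - (e : ℂ) * (z - 0)⁻¹)) := by
    apply circleIntegral.integral_congr zero_le_one
    intro z hz
    have hz1 : ‖z‖ = 1 := by simpa using hz
    simp only
    rw [hsplit.eval_derivative_div_eval_of_ne_zero (hQ z hz1)]
    simp only [one_div]
  obtain ⟨hI, hS⟩ := circle_sum Q.roots hr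
  have hI0 : CircleIntegrable (fun z : ℂ => (e : ℂ) * (z - 0)⁻¹) 0 1 :=
    IntervalIntegrable.const_mul (circleIntegrable_inv 0 (by simp)) (e : ℂ)
  rw [hprim, circleIntegral.integral_sub hI hI0, hS, circleIntegral.integral_const_mul,
    circle_inv_inside 0 (by simp)] at hEq
  have h2pi : (2 * Real.pi * Complex.I : ℂ) ≠ 0 := Complex.two_pi_I_ne_zero
  have h3 : (2 * Real.pi * Complex.I : ℂ) * (((Q.roots.filter (fun a => ‖a‖ < 1)).card : ℂ) - e) = 0 := by
    rw [mul_sub]
    rw [mul_comm (e : ℂ)] at hEq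
    exact hEq.symm
  rcases mul_eq_zero.mp h3 with h4 | h4
  · exact absurd h4 h2pi
  · have h5 : ((Q.roots.filter (fun a => ‖a‖ < 1)).card : ℂ) = (e : ℂ) := sub_eq_zero.mp h4
    exact_mod_cast h5

end Pool.Agent.DistinctMahler
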