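import Pool.Agent.DistinctMahler.Defs

set_option autoImplicit false

namespace Pool.Agent.DistinctMahler
open MeasureTheory

/-- the point `exp(2 pi i x)` -/
noncomputable def ee (x : ℝ) : ℂ := Complex.exp (2 * Real.pi * Complex.I * (x : ℂ))

lemma ee_zero : ee 0 = 1 := by simp [ee]

lemma ee_add (x y : ℝ) : ee (x + y) = ee x * ee y := by
  simp only [ee, ← Complex.exp_add]
  congr 1
  push_cast
  ring

lemma norm_ee (x : ℝ) : ‖ee x‖ = 1 := by
  have : (2 * Real.pi * Complex.I * (x : ℂ)) = ((2 * Real.pi * x : ℝ) : ℂ) * Complex.I := by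
    push_cast; ring
  rw [ee, this, Complex.norm_exp_ofReal_mul_I]

lemma ee_re (x : ℝ) : (ee x).re = Real.cos (2 * Real.pi * x) := by
  have : (2 * Real.pi * Complex.I * (x : ℂ)) = ((2 * Real.pi * x : ℝ) : ℂ) * Complex.I := by
    push_cast; ring
  rw [ee, this, Complex.exp_ofReal_mul_I_re]

lemma ee_neg (x : ℝ) : ee (-x) = (ee x)⁻¹ := by
  simp only [ee, ← Complex.exp_neg]
  congr 1
  push_cast
  ring

lemma ee_natmul (n : ℕ) (x : ℝ) : ee (n * x) = (ee x) ^ n := by
  simp only [ee, ← Complex.exp_nat_mul]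
  congr 1
  push_cast
  ring

lemma ee_sum {ι : Type*} (s : Finset ι) (f : ι → ℝ) : ee (∑ i ∈ s, f i) = ∏ i ∈ s, ee (f i) := by
  classical
  induction s using Finset.induction_on with
  | empty => simp [ee_zero]
  | insert a s ha ih => rw [Finset.sum_insert ha, Finset.prod_insert ha, ee_add, ih]

/-- the character of `ℤ^l` given by a point of the torus -/
noncomputable def chr {l : ℕ} (t : Fin l → ℝ) : Multiplicative (Fin l → ℤ) →* ℂ where
  toFun v := ee (∑ i, (Multiplicative.toAdd v i : ℝ) * t i)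
  map_one' := by simp [ee_zero]
  map_mul' x y := by
    rw [← ee_add, ← Finset.sum_add_distrib]
    congr 1
    apply Finset.sum_congr rfl
    intro i _
    simp
    ring

lemma torusEval_eq_lift {l : ℕ} (G : Laurent l) (t : Fin l → ℝ) :
    torusEval G t = AddMonoidAlgebra.lift ℤ ℂ (Fin l → ℤ) (chr t) G := by
  rw [AddMonoidAlgebra.lift_apply]
  unfold torusEval
  apply Finsupp.sum_congr
  intro v _
  simp [chr, ee]

lemma torusEval_spec {l k : ℕ} (F : MvPolynomial (Fin k) ℤ) (A : Matrix (Fin l) (Fin k) ℤ)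
    (t : Fin l → ℝ) :
    torusEval (spec F A) t = MvPolynomial.aeval (fun j => ee (∑ i, (A i j : ℝ) * t i)) F := by
  rw [torusEval_eq_lift, spec]
  have h := MvPolynomial.comp_aeval (R := ℤ)
    (fun j : Fin k => (AddMonoidAlgebra.single (fun i => A i j) (1 : ℤ) : Laurent l))
    (AddMonoidAlgebra.lift ℤ ℂ (Fin l → ℤ) (chr t))
  have h2 := congrArg (fun φ => φ F) h
  simp only [AlgHom.comp_apply] at h2
  refine h2.trans ?_
  congr 2
  funext j
  rw [AddMonoidAlgebra.lift_single]
  simp [chr]

lemma continuous_ee : Continuous ee := by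
  unfold ee
  fun_prop

lemma ee_int (n : ℤ) : ee (n : ℝ) = 1 := by
  have : (2 * Real.pi * Complex.I * ((n : ℝ) : ℂ)) = (n : ℂ) * (2 * Real.pi * Complex.I) := by
    push_cast; ring
  rw [ee, this]
  exact Complex.exp_int_mul_two_pi_mul_I n

lemma integral_ee_int (n : ℤ) :
    ∫ x in Set.Icc (0 : ℝ) 1, ee ((n : ℝ) * x) = if n = 0 then 1 else 0 := by
  rw [integral_Icc_eq_integral_Ioc, ← intervalIntegral.integral_of_le zero_le_one]
  split_ifs with h
  · subst h
    simp [ee_zero]
  · have hc : (2 * Real.pi * Complex.I * (n : ℂ)) ≠ 0 := by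
      simp [h, Real.pi_ne_zero]
    have h1 : ∀ x : ℝ, ee ((n : ℝ) * x) = Complex.exp ((2 * Real.pi * Complex.I * (n : ℂ)) * x) := by
      intro x
      unfold ee
      congr 1
      push_cast
      ring
    simp_rw [h1]
    rw [integral_exp_mul_complex hc]
    have h2 : Complex.exp (2 * Real.pi * Complex.I * (n : ℂ) * ((1 : ℝ) : ℂ)) = 1 := by
      have := ee_int n
      unfold ee at this
      rw [← this]
      congr 1
      push_cast
      ring
    rw [h2]
    simp

lemma integral_cube_ee {l : ℕ} (w : Fin l → ℤ) :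
    ∫ t in Set.Icc (0 : Fin l → ℝ) 1, ee (∑ i, (w i : ℝ) * t i) = if w = 0 then 1 else 0 := by
  have h1 : (Set.Icc (0 : Fin l → ℝ) 1) = Set.univ.pi (fun _ => Set.Icc (0 : ℝ) 1) := by
    rw [Set.pi_univ_Icc]
    rfl
  rw [h1, volume_pi, Measure.restrict_pi_pi]
  simp_rw [ee_sum]
  rw [integral_fintype_prod_eq_prod (fun i (x : ℝ) => ee ((w i : ℝ) * x))]
  simp_rw [integral_ee_int]
  split_ifs with h
  · subst h
    simp
  · have : ∃ i, w i ≠ 0 := by
      by_contra hcon
      push Not at hcon
      exact h (funext hcon)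
    obtain ⟨i, hi⟩ := this
    exact Finset.prod_eq_zero (Finset.mem_univ i) (if_neg hi)

lemma integrable_cube {l : ℕ} {f : (Fin l → ℝ) → ℂ} (hf : Continuous f) :
    Integrable f (volume.restrict (Set.Icc (0 : Fin l → ℝ) 1)) :=
  hf.continuousOn.integrableOn_compact isCompact_Icc

lemma integral_cube_cos {l : ℕ} (w : Fin l → ℤ) :
    ∫ t in Set.Icc (0 : Fin l → ℝ) 1, Real.cos (2 * Real.pi * ∑ i, (w i : ℝ) * t i) =
      if w = 0 then 1 else 0 := by
  have hcont : Continuous (fun t : Fin l → ℝ => ee (∑ i, (w i : ℝ) * t i)) :=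
    continuous_ee.comp (by fun_prop)
  have h := integral_cube_ee w
  have h2 := congrArg Complex.re h
  have h3 := integral_re (𝕜 := ℂ) (integrable_cube hcont)
  simp only [RCLike.re_eq_complex_re] at h3
  rw [← h3] at h2
  simp_rw [ee_re] at h2
  rw [h2]
  split_ifs <;> simp

theorem mahler_spec_eq {l k : ℕ} (F : MvPolynomial (Fin k) ℤ) (c : (Fin k → ℤ) → ℝ)
    (hc : Summable c)
    (hF : ∀ θ : Fin k → ℝ, Real.log ‖(MvPolynomial.aeval (fun j => ee (θ j)) F : ℂ)‖ =
      ∑' v, c v * Real.cos (2 * Real.pi * ∑ j, (v j : ℝ) * θ j))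
    (A : Matrix (Fin l) (Fin k) ℤ) :
    mahler (spec F A) = ∑' v, if A.mulVec v = 0 then c v else 0 := by
  unfold mahler
  simp_rw [torusEval_spec, hF]
  have key : ∀ (v : Fin k → ℤ) (t : Fin l → ℝ),
      ∑ j, (v j : ℝ) * ∑ i, (A i j : ℝ) * t i = ∑ i, ((A.mulVec v) i : ℝ) * t i := by
    intro v t
    simp_rw [Finset.mul_sum, Matrix.mulVec, dotProduct]
    rw [Finset.sum_comm]
    apply Finset.sum_congr rfl
    intro i _
    push_cast
    rw [Finset.sum_mul]
    apply Finset.sum_congr rfl
    intro j _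
    ring
  simp_rw [key]
  rw [← integral_tsum_of_summable_integral_norm]
  · apply tsum_congr
    intro v
    rw [integral_const_mul, integral_cube_cos]
    split_ifs <;> simp
  · intro v
    apply ContinuousOn.integrableOn_compact isCompact_Icc
    apply Continuous.continuousOn
    fun_prop
  · apply Summable.of_nonneg_of_le _ _ hc.norm
    · intro v
      exact integral_nonneg (fun t => norm_nonneg _)
    · intro v
      have h1 : ∫ t in Set.Icc (0 : Fin l → ℝ) 1,
          ‖c v * Real.cos (2 * Real.pi * ∑ i, ((A.mulVec v) i : ℝ) * t i)‖ ≤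
          ∫ t in Set.Icc (0 : Fin l → ℝ) 1, ‖c v‖ := by
        apply integral_mono_of_nonneg
        · exact Filter.Eventually.of_forall (fun t => norm_nonneg _)
        · exact continuous_const.continuousOn.integrableOn_compact isCompact_Icc
        · apply Filter.Eventually.of_forall
          intro t
          simp only [norm_mul]
          have := Real.abs_cos_le_one (2 * Real.pi * ∑ i, ((A.mulVec v) i : ℝ) * t i)
          rw [Real.norm_eq_abs (Real.cos _)]
          nlinarith [norm_nonneg (c v)]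
      refine h1.trans ?_
      rw [integral_const]
      have hv : volume.real (Set.Icc (0 : Fin l → ℝ) 1) = 1 := by
        simp [Measure.real, Real.volume_Icc_pi]
      simp [hv]

end Pool.Agent.DistinctMahler
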