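import Pool.Agent.DistinctMahler.Tri
import Pool.Agent.DistinctMahler.Fourier

set_option autoImplicit false

namespace Pool.Agent.DistinctMahler
open Polynomial MeasureTheory

lemma integral_fin_one (g : ℝ → ℝ) :
    ∫ t in Set.Icc (0 : Fin 1 → ℝ) 1, g (t 0) = ∫ x in (0 : ℝ)..1, g x := by
  rw [intervalIntegral.integral_of_le zero_le_one, ← integral_Icc_eq_integral_Ioc]
  have h := (volume_preserving_funUnique (Fin 1) ℝ).setIntegral_preimage_emb
    (MeasurableEquiv.measurableEmbedding _) g (Set.Icc (0 : ℝ) 1)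
  rw [← h]
  have hset : (MeasurableEquiv.funUnique (Fin 1) ℝ) ⁻¹' (Set.Icc (0 : ℝ) 1) =
      Set.Icc (0 : Fin 1 → ℝ) 1 := by
    ext t
    simp only [Set.mem_preimage, Set.mem_Icc, Pi.le_def, Fin.forall_fin_one]
    rfl
  rw [hset]
  rfl

lemma log_norm_mu (Q : ℤ[X]) (hQ : Q ≠ 0) :
    Real.log ‖mu (toC Q)‖ = ∫ x in (0 : ℝ)..1, Real.log ‖Q.aeval (ee x)‖ := by
  rw [norm_mu, mahlerMeasure_def_of_ne_zero (toC_ne_zero hQ), Real.log_exp]
  have h2 := intervalIntegral.integral_comp_mul_left (a := 0) (b := 1)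
    (fun x => Real.log ‖eval (circleMap 0 1 x) (toC Q)‖)
    (c := 2 * Real.pi) (by positivity)
  rw [mul_zero, mul_one, smul_eq_mul] at h2
  rw [← h2]
  apply intervalIntegral.integral_congr
  intro x _
  simp only
  rw [eval_toC]
  congr 3
  unfold circleMap ee
  push_cast
  simp only [zero_add, one_mul]
  congr 1
  ring_nf

lemma mahler_one {k : ℕ} (F : MvPolynomial (Fin k) ℤ) (A : Matrix (Fin 1) (Fin k) ℤ) (Q : ℤ[X])
    (hQ : Q ≠ 0)
    (h : ∀ x : ℝ, ‖(MvPolynomial.aeval (fun j => ee ((A 0 j : ℝ) * x)) F : ℂ)‖ =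
      ‖Q.aeval (ee x)‖) :
    mahler (spec F A) = Real.log ‖mu (toC Q)‖ := by
  rw [log_norm_mu Q hQ]
  unfold mahler
  simp_rw [torusEval_spec]
  rw [← integral_fin_one]
  apply integral_congr_ae
  apply Filter.Eventually.of_forall
  intro t
  simp only [Fin.sum_univ_one]
  rw [h]

/-- sum of the absolute values of the coefficients -/
def coefSum {k : ℕ} (G : MvPolynomial (Fin k) ℤ) : ℕ := ∑ m ∈ G.support, (G.coeff m).natAbs

lemma exists_oneVar {k : ℕ} (G : MvPolynomial (Fin k) ℤ) (r : Fin k → ℤ)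
    (hne : (MvPolynomial.aeval (fun j => ee ((r j : ℝ) * 0)) G : ℂ) ≠ 0) :
    ∃ Q : ℤ[X], Q.coeff 0 ≠ 0 ∧ (∀ n, (Q.coeff n).natAbs ≤ coefSum G) ∧
      ∀ x : ℝ, ‖(MvPolynomial.aeval (fun j => ee ((r j : ℝ) * x)) G : ℂ)‖ = ‖Q.aeval (ee x)‖ := by
  classical
  set ε : (Fin k →₀ ℕ) → ℤ := fun m => ∑ j, (m j : ℤ) * r j with hε
  set e : ℕ := ∑ m ∈ G.support, (ε m).natAbs with he
  have hpos : ∀ m ∈ G.support, 0 ≤ ε m + e := by
    intro m hm
    have h1 : (ε m).natAbs ≤ e := Finset.single_le_sum (f := fun m => (ε m).natAbs)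
      (fun _ _ => Nat.zero_le _) hm
    omega
  set Q0 : ℤ[X] := ∑ m ∈ G.support, C (G.coeff m) * X ^ (ε m + e).toNat with hQ0
  have heval : ∀ x : ℝ, Q0.aeval (ee x) =
      ee (e * x) * (MvPolynomial.aeval (fun j => ee ((r j : ℝ) * x)) G : ℂ) := by
    intro x
    rw [hQ0, map_sum, MvPolynomial.aeval_def, MvPolynomial.eval₂_eq', Finset.mul_sum]
    apply Finset.sum_congr rfl
    intro m hm
    rw [map_mul, map_pow, aeval_X, aeval_C]
    have h1 : ee x ^ (ε m + e).toNat = ee (e * x) * ∏ j, ee ((r j : ℝ) * x) ^ m j := by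
      have h2 : ∏ j, ee ((r j : ℝ) * x) ^ m j = ee ((ε m : ℝ) * x) := by
        have h3 : (ε m : ℝ) * x = ∑ j, (m j : ℝ) * ((r j : ℝ) * x) := by
          rw [hε]
          push_cast
          rw [Finset.sum_mul]
          apply Finset.sum_congr rfl
          intro j _
          ring
        rw [h3, ee_sum]
        apply Finset.prod_congr rfl
        intro j _
        rw [← ee_natmul]
      rw [h2, ← ee_add, ← ee_natmul]
      congr 1
      have h4 : (((ε m + e).toNat : ℤ) : ℝ) = ((ε m + e : ℤ) : ℝ) := by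
        rw [Int.toNat_of_nonneg (hpos m hm)]
      have h5 : (((ε m + e).toNat : ℕ) : ℝ) = ((ε m : ℤ) : ℝ) + (e : ℝ) := by
        have : (((ε m + e).toNat : ℕ) : ℝ) = (((ε m + e).toNat : ℤ) : ℝ) := by push_cast; rfl
        rw [this, h4]
        push_cast
        rfl
      rw [h5]
      ring
    rw [h1]
    simp only [eq_intCast]
    ring
  have hQ0ne : Q0 ≠ 0 := by
    intro h
    have h1 := heval 0
    rw [h, map_zero] at h1
    rcases mul_eq_zero.mp h1.symm with h2 | h2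
    · have := norm_ee ((e : ℝ) * 0)
      rw [h2, norm_zero] at this
      exact zero_ne_one this
    · exact hne h2
  have hcoeff : ∀ n, (Q0.coeff n).natAbs ≤ coefSum G := by
    intro n
    rw [hQ0, finsetSum_coeff]
    refine (Int.natAbs_sum_le _ _).trans ?_
    unfold coefSum
    apply Finset.sum_le_sum
    intro m _
    rw [coeff_C_mul, coeff_X_pow]
    split_ifs <;> simp
  obtain ⟨Q, hQ1, hQ2⟩ := exists_eq_pow_rootMultiplicity_mul_and_not_dvd Q0 hQ0ne 0
  obtain ⟨d, hd⟩ : ∃ d, d = rootMultiplicity 0 Q0 := ⟨_, rfl⟩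
  rw [C_0, sub_zero, ← hd] at hQ1
  rw [C_0, sub_zero] at hQ2
  refine ⟨Q, ?_, ?_, ?_⟩
  · intro h
    exact hQ2 (X_dvd_iff.mpr h)
  · intro n
    have h1 : Q.coeff n = Q0.coeff (n + d) := by
      rw [hQ1, coeff_X_pow_mul]
    rw [h1]
    exact hcoeff _
  · intro x
    have h1 : ‖Q0.aeval (ee x)‖ = ‖Q.aeval (ee x)‖ := by
      rw [hQ1, map_mul, map_pow, aeval_X, norm_mul, norm_pow, norm_ee, one_pow, one_mul]
    rw [← h1, heval, norm_mul, norm_ee, one_mul]

/-- the value of `mu` of the one-variable specialisation is a unit at large primes -/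
lemma val_mu_large (B : ValuationSubring ℂ) (p : ℕ) (hp : p.Prime)
    (hv : B.valuation (p : ℂ) < 1) (Q : ℤ[X]) (S : ℕ) (hS : S < p) (h0 : Q.coeff 0 ≠ 0)
    (hQ : ∀ n, (Q.coeff n).natAbs ≤ S) : B.valuation (mu (toC Q)) = 1 := by
  have hunit : ∀ n, Q.coeff n ≠ 0 → B.valuation ((Q.coeff n : ℤ) : ℂ) = 1 := by
    intro n hn
    apply val_int_eq_one B p hp hv
    intro hdvd
    have h1 := Int.natAbs_dvd_natAbs.mpr hdvd
    rw [Int.natAbs_natCast] at h1
    have h2 := Nat.le_of_dvd (Int.natAbs_pos.mpr hn) h1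
    have h3 := hQ n
    omega
  apply val_mu_eq_one
  · apply hunit
    intro h
    have h1 : Q = 0 := leadingCoeff_eq_zero.mp h
    rw [h1] at h0
    simp at h0
  · exact hunit 0 h0

end Pool.Agent.DistinctMahler
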