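import Pool.Agent.DistinctMahler.TF
import Pool.Agent.DistinctMahler.OneVar

set_option autoImplicit false

namespace Pool.Agent.DistinctMahler
open Polynomial

/-- the index set of the trinomial factors -/
def SS (k : ℕ) : Finset (Fin k × Fin k × SignType) :=
  Finset.univ.filter (fun t => t.1 ≠ t.2.1 ∧ t.2.2 ≠ 0)

lemma mem_SS {k : ℕ} (t : Fin k × Fin k × SignType) : t ∈ SS k ↔ t.1 ≠ t.2.1 ∧ t.2.2 ≠ 0 := by
  unfold SS
  rw [Finset.mem_filter]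
  exact ⟨fun h => h.2, fun h => ⟨Finset.mem_univ _, h⟩⟩

/-- the product of the trinomial factors -/
noncomputable def TF (k N : ℕ) (P : Fin k × Fin k × SignType → ℕ) : MvPolynomial (Fin k) ℤ :=
  ∏ t ∈ SS k, Tp N (P t) t.1 t.2.1 t.2.2

/-- the two exponents of the trinomial `t` at the row `r` -/
def ex1 {k : ℕ} (t : Fin k × Fin k × SignType) (r : Fin k → ℤ) : ℤ := r t.1

/-- the two exponents of the trinomial `t` at the row `r` -/
def ex2 {k : ℕ} (t : Fin k × Fin k × SignType) (r : Fin k → ℤ) : ℤ := (t.2.2 : ℤ) * r t.2.1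

/-- what we know about the one-variable trinomial -/
def TriProp (N a : ℕ) (α β : ℤ) (Q : ℤ[X]) : Prop :=
  Q ≠ 0 ∧
  (0 ≤ α * β → ∃ I : ℤ, I ≠ 0 ∧ mu (toC Q) = I) ∧
  (α * β < 0 → ∀ B : ValuationSubring ℂ, B.valuation (a : ℂ) = 1 → B.valuation (mu (toC Q)) = 1) ∧
  (α * β < 0 → ∀ B : ValuationSubring ℂ, B.valuation (a : ℂ) < 1 →
    B.valuation (N : ℂ) ≤ B.valuation (a : ℂ) →
    B.valuation (mu (toC Q)) ^ (α.natAbs + β.natAbs) = B.valuation (a : ℂ) ^ β.natAbs)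

lemma ee_zpow (n : ℤ) (x : ℝ) : ee (n * x) = ee x ^ n := by
  obtain ⟨m, rfl | rfl⟩ := n.eq_nat_or_neg
  · rw [zpow_natCast, ← ee_natmul]
    push_cast
    rfl
  · rw [zpow_neg, zpow_natCast, ← ee_natmul, ← ee_neg]
    push_cast
    rw [neg_mul]

/-- the total one-variable polynomial -/
noncomputable def tot {k : ℕ} (N : ℕ) (QG : ℤ[X]) (Q : Fin k × Fin k × SignType → ℤ[X]) : ℤ[X] :=
  QG * ∏ t ∈ SS k, (C (N : ℤ) * Q t)

lemma total_spec {k : ℕ} (G : MvPolynomial (Fin k) ℤ) (N : ℕ) (hN0 : N ≠ 0)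
    (P : Fin k × Fin k × SignType → ℕ)
    (hP : ∀ t ∈ SS k, 0 < P t ∧ P t + 1 < N ∧ ∀ l, al N (ap t.1 (P t)) l < 1)
    (A : Matrix (Fin 1) (Fin k) ℤ)
    (hG : (MvPolynomial.aeval (fun j => ee ((A 0 j : ℝ) * 0)) G : ℂ) ≠ 0) :
    ∃ (QG : ℤ[X]) (Q : Fin k × Fin k × SignType → ℤ[X]), QG.coeff 0 ≠ 0 ∧
      (∀ n, (QG.coeff n).natAbs ≤ coefSum G) ∧
      (∀ t ∈ SS k, TriProp N (P t) (ex1 t (A 0)) (ex2 t (A 0)) (Q t)) ∧
      tot N QG Q ≠ 0 ∧
      mahler (spec (G * TF k N P) A) = Real.log ‖mu (toC (tot N QG Q))‖ := by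
  obtain ⟨QG, hQG0, hQG1, hQG2⟩ := exists_oneVar G (A 0) hG
  have htri : ∀ t : Fin k × Fin k × SignType, ∃ Q : ℤ[X], t ∈ SS k →
      (∀ z : ℂ, ‖z‖ = 1 → ‖(N : ℂ) - (P t : ℕ) * z ^ (ex1 t (A 0)) -
        (1 : ℕ) * z ^ (ex2 t (A 0))‖ = ‖Q.aeval z‖) ∧
      TriProp N (P t) (ex1 t (A 0)) (ex2 t (A 0)) Q := by
    intro t
    by_cases ht : t ∈ SS k
    · obtain ⟨h1, h2, _⟩ := hP t ht
      obtain ⟨Q, hQ0, hQ1, hQ2, hQ3, hQ4⟩ := tri_spec N (P t) 1 h1 one_pos (by omega)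
        (ex1 t (A 0)) (ex2 t (A 0))
      refine ⟨Q, fun _ => ⟨hQ1, hQ0, hQ2, ?_, ?_⟩⟩
      · intro h B hB
        exact hQ3 h B hB (by simp)
      · intro h B hB1 hB2
        exact hQ4 h B _ hB1 rfl (by simp) hB2
    · exact ⟨0, fun h => absurd h ht⟩
  choose Q hQ using htri
  have hQG : QG ≠ 0 := by
    intro h
    rw [h] at hQG0
    simp at hQG0
  have hNz : (C (N : ℤ) : ℤ[X]) ≠ 0 := by
    rw [Ne, C_eq_zero]
    exact_mod_cast hN0
  have htot : tot N QG Q ≠ 0 := by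
    unfold tot
    apply mul_ne_zero hQG
    rw [Finset.prod_ne_zero_iff]
    intro t ht
    exact mul_ne_zero hNz (hQ t ht).2.1
  refine ⟨QG, Q, hQG0, hQG1, fun t ht => (hQ t ht).2, htot, ?_⟩
  apply mahler_one _ _ _ htot
  intro x
  unfold tot TF
  rw [map_mul, map_mul, norm_mul, norm_mul, hQG2 x, map_prod, map_prod, norm_prod, norm_prod]
  congr 1
  apply Finset.prod_congr rfl
  intro t ht
  obtain ⟨h1, h2, h3⟩ := hP t ht
  obtain ⟨h4, h5⟩ := (mem_SS t).mp ht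
  rw [norm_Tp N (P t) t.1 t.2.1 h4 t.2.2 h5 hN0 h3, map_mul, norm_mul, ← (hQ t ht).1 (ee x) (norm_ee x)]
  congr 1
  · simp
  · have e1 : ee ((A 0 t.1 : ℝ) * x) = ee x ^ (ex1 t (A 0)) := ee_zpow _ x
    have e2 : ee (((t.2.2 : ℤ) : ℝ) * ((A 0 t.2.1 : ℝ) * x)) = ee x ^ (ex2 t (A 0)) := by
      rw [← ee_zpow]
      congr 1
      unfold ex2
      push_cast
      ring
    rw [e1, e2]

lemma mu_C (n : ℤ) : mu (toC (C n)) = (n : ℂ) := by
  unfold mu toC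
  rw [Polynomial.map_C, leadingCoeff_C, roots_C]
  simp

lemma mu_tot {k : ℕ} (N : ℕ) (hN0 : N ≠ 0) (QG : ℤ[X]) (hQG : QG ≠ 0)
    (Q : Fin k × Fin k × SignType → ℤ[X]) (hQ : ∀ t ∈ SS k, Q t ≠ 0) :
    mu (toC (tot N QG Q)) = mu (toC QG) * ∏ t ∈ SS k, ((N : ℂ) * mu (toC (Q t))) := by
  have hNz : (C (N : ℤ) : ℤ[X]) ≠ 0 := by
    rw [Ne, C_eq_zero]
    exact_mod_cast hN0
  unfold tot
  rw [toC_mul, toC_prod, mu_mul, mu_prod]
  · congr 1
    apply Finset.prod_congr rfl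
    intro t ht
    rw [toC_mul, mu_mul _ _ (toC_ne_zero hNz) (toC_ne_zero (hQ t ht)), mu_C]
    push_cast
    rfl
  · intro t ht
    exact toC_ne_zero (mul_ne_zero hNz (hQ t ht))
  · exact toC_ne_zero hQG
  · rw [Finset.prod_ne_zero_iff]
    intro t ht
    exact toC_ne_zero (mul_ne_zero hNz (hQ t ht))

/-- the valuation of the total `mu` at the prime of the trinomial `s` -/
lemma val_tot {k : ℕ} (S N : ℕ) (hN0 : N ≠ 0) (P : Fin k × Fin k × SignType → ℕ)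
    (hPp : ∀ t ∈ SS k, (P t).Prime) (hPinj : ∀ t ∈ SS k, ∀ s ∈ SS k, P t = P s → t = s)
    (hPS : ∀ t ∈ SS k, S < P t) (hPN : ∀ t ∈ SS k, P t ∣ N)
    (r : Fin k → ℤ) (QG : ℤ[X]) (Q : Fin k × Fin k × SignType → ℤ[X]) (hQG0 : QG.coeff 0 ≠ 0)
    (hQG1 : ∀ n, (QG.coeff n).natAbs ≤ S)
    (hQ : ∀ t ∈ SS k, TriProp N (P t) (ex1 t r) (ex2 t r) (Q t))
    (s : Fin k × Fin k × SignType) (hs : s ∈ SS k) (B : ValuationSubring ℂ)
    (hB : B.valuation (P s : ℂ) < 1) :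
    (0 ≤ ex1 s r * ex2 s r → ∃ z : ℤ, B.valuation (mu (toC (tot N QG Q))) =
      B.valuation (P s : ℂ) ^ z) ∧
    (ex1 s r * ex2 s r < 0 → ∃ z : ℤ, B.valuation (mu (toC (tot N QG Q))) ^
      ((ex1 s r).natAbs + (ex2 s r).natAbs) = B.valuation (P s : ℂ) ^
      (z * (((ex1 s r).natAbs + (ex2 s r).natAbs : ℕ) : ℤ) + (((ex2 s r).natAbs : ℕ) : ℤ))) := by
  have hQG : QG ≠ 0 := by
    intro h
    rw [h] at hQG0
    simp at hQG0
  have hps := hPp s hs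
  have hps0 : (P s : ℂ) ≠ 0 := by exact_mod_cast hps.ne_zero
  have hπ0 : B.valuation (P s : ℂ) ≠ 0 := val_ne_zero B hps0
  rw [mu_tot N hN0 QG hQG Q (fun t ht => (hQ t ht).1)]
  have h1 : B.valuation (mu (toC QG)) = 1 :=
    val_mu_large B (P s) hps hB QG S (hPS s hs) hQG0 hQG1
  obtain ⟨zN, hzN⟩ : ∃ z : ℤ, B.valuation (N : ℂ) = B.valuation (P s : ℂ) ^ z := by
    have := val_int_zpow B (P s) hps hB (N : ℤ) (by exact_mod_cast hN0)
    simpa using this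
  have hother : ∀ t ∈ SS k, t ≠ s → ∃ z : ℤ, B.valuation (mu (toC (Q t))) =
      B.valuation (P s : ℂ) ^ z := by
    intro t ht hts
    obtain ⟨_, h2, h3, _⟩ := hQ t ht
    rcases lt_or_ge (ex1 t r * ex2 t r) 0 with h4 | h4
    · refine ⟨0, ?_⟩
      rw [zpow_zero]
      apply h3 h4 B
      have := val_int_eq_one B (P s) hps hB (P t : ℤ) (by
        intro hdvd
        have h5 : P s ∣ P t := by exact_mod_cast hdvd
        rw [Nat.prime_dvd_prime_iff_eq hps (hPp t ht)] at h5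
        exact hts (hPinj t ht s hs h5.symm))
      simpa using this
    · obtain ⟨I, hI0, hI⟩ := h2 h4
      rw [hI]
      exact val_int_zpow B (P s) hps hB I hI0
  obtain ⟨Z, hZ⟩ : ∃ z : ℤ, ∏ t ∈ (SS k).erase s, (B.valuation (N : ℂ) *
      B.valuation (mu (toC (Q t)))) = B.valuation (P s : ℂ) ^ z := by
    apply Finset.prod_induction _ (fun x => ∃ z : ℤ, x = B.valuation (P s : ℂ) ^ z)
    · rintro a b ⟨z1, rfl⟩ ⟨z2, rfl⟩
      exact ⟨z1 + z2, (zpow_add₀ hπ0 z1 z2).symm⟩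
    · exact ⟨0, (zpow_zero _).symm⟩
    · intro t ht
      rw [Finset.mem_erase] at ht
      obtain ⟨z, hz⟩ := hother t ht.2 ht.1
      refine ⟨zN + z, ?_⟩
      rw [hzN, hz, zpow_add₀ hπ0]
  have hval : B.valuation (mu (toC QG) * ∏ t ∈ SS k, ((N : ℂ) * mu (toC (Q t)))) =
      B.valuation (P s : ℂ) ^ (zN + Z) * B.valuation (mu (toC (Q s))) := by
    rw [map_mul, h1, one_mul, map_prod]
    simp_rw [map_mul]
    rw [← Finset.mul_prod_erase (SS k) _ hs, hZ, hzN, zpow_add₀ hπ0]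
    rw [mul_right_comm]
  rw [hval]
  obtain ⟨_, h2, _, h4⟩ := hQ s hs
  constructor
  · intro h5
    obtain ⟨I, hI0, hI⟩ := h2 h5
    obtain ⟨z, hz⟩ := val_int_zpow B (P s) hps hB I hI0
    refine ⟨zN + Z + z, ?_⟩
    rw [hI, hz, zpow_add₀ hπ0 (zN + Z) z]
  · intro h5
    refine ⟨zN + Z, ?_⟩
    have hNle : B.valuation (N : ℂ) ≤ B.valuation (P s : ℂ) := by
      obtain ⟨c, hc⟩ := hPN s hs
      have h6 : (N : ℂ) = (P s : ℂ) * ((c : ℤ) : ℂ) := by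
        rw [hc]
        push_cast
        rfl
      rw [h6, map_mul]
      exact mul_le_of_le_one_right' (val_int_le B c)
    rw [mul_pow, h4 h5 B hB hNle,
      zpow_add₀ hπ0 ((zN + Z) * (((ex1 s r).natAbs + (ex2 s r).natAbs : ℕ) : ℤ)), zpow_mul,
      zpow_natCast, zpow_natCast]

lemma arith1 (D n z z' : ℤ) (hn : 0 < n) (hnD : n < D) (h : z' * D = z * D + n) : False := by
  have h1 : (z' - z) * D = n := by linarith [sub_mul z' z D]
  rcases lt_trichotomy (z' - z) 0 with h2 | h2 | h2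
  · nlinarith
  · rw [h2, zero_mul] at h1
    omega
  · nlinarith

lemma arith2 (D n z D' n' z' : ℤ) (hn : 0 < n) (hnD : n < D) (hn' : 0 < n') (hnD' : n' < D')
    (h : (z * D + n) * D' = (z' * D' + n') * D) : n * D' = n' * D := by
  have h1 : (z - z') * (D * D') = n' * D - n * D' := by linarith [sub_mul z z' (D * D')]
  have hD : 0 < D := by omega
  have hD' : 0 < D' := by omega
  have h2 : n' * D < D * D' := by nlinarith
  have h3 : n * D' < D * D' := by nlinarith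
  have h4 : 0 < n' * D := mul_pos hn' hD
  have h5 : 0 < n * D' := mul_pos hn hD'
  have h6 : 0 < D * D' := mul_pos hD hD'
  rcases lt_trichotomy (z - z') 0 with h7 | h7 | h7
  · nlinarith
  · rw [h7, zero_mul] at h1
    omega
  · nlinarith

/-- equal values have proportional exponents -/
lemma decode_one {k : ℕ} (B : ValuationSubring ℂ) (π : B.ValueGroup) (hπ0 : π ≠ 0) (hπ1 : π < 1)
    (s : Fin k × Fin k × SignType) (r r' : Fin k → ℤ) (x : B.ValueGroup)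
    (h1 : 0 ≤ ex1 s r * ex2 s r → ∃ z : ℤ, x = π ^ z)
    (h2 : ex1 s r * ex2 s r < 0 → ∃ z : ℤ, x ^ ((ex1 s r).natAbs + (ex2 s r).natAbs) =
      π ^ (z * (((ex1 s r).natAbs + (ex2 s r).natAbs : ℕ) : ℤ) + (((ex2 s r).natAbs : ℕ) : ℤ)))
    (h1' : 0 ≤ ex1 s r' * ex2 s r' → ∃ z : ℤ, x = π ^ z)
    (h2' : ex1 s r' * ex2 s r' < 0 → ∃ z : ℤ, x ^ ((ex1 s r').natAbs + (ex2 s r').natAbs) =
      π ^ (z * (((ex1 s r').natAbs + (ex2 s r').natAbs : ℕ) : ℤ) + (((ex2 s r').natAbs : ℕ) : ℤ))) :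
    (ex1 s r * ex2 s r < 0 ↔ ex1 s r' * ex2 s r' < 0) ∧
    (ex1 s r * ex2 s r < 0 → (ex2 s r).natAbs * (ex1 s r').natAbs =
      (ex2 s r').natAbs * (ex1 s r).natAbs) := by
  have hpos : ∀ a b : ℤ, a * b < 0 → 0 < a.natAbs ∧ 0 < b.natAbs := by
    intro a b h
    constructor
    · rw [Int.natAbs_pos]
      rintro rfl
      rw [zero_mul] at h
      exact lt_irrefl _ h
    · rw [Int.natAbs_pos]
      rintro rfl
      rw [mul_zero] at h
      exact lt_irrefl _ h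
  have hmix : ∀ a b : ℤ, a * b < 0 → ∀ z z' : ℤ, x = π ^ z' →
      x ^ (a.natAbs + b.natAbs) = π ^ (z * ((a.natAbs + b.natAbs : ℕ) : ℤ) + ((b.natAbs : ℕ) : ℤ)) →
      False := by
    intro a b hab z z' hx hx2
    obtain ⟨ha, hb⟩ := hpos a b hab
    rw [hx, ← zpow_natCast, ← zpow_mul] at hx2
    have h3 := zpow_inj B hπ0 hπ1 hx2
    exact arith1 ((a.natAbs + b.natAbs : ℕ) : ℤ) (b.natAbs : ℤ) z z' (by omega) (by omega) h3
  constructor
  · constructor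
    · intro h
      by_contra hcon
      obtain ⟨z', hz'⟩ := h1' (not_lt.mp hcon)
      obtain ⟨z, hz⟩ := h2 h
      exact hmix _ _ h z z' hz' hz
    · intro h
      by_contra hcon
      obtain ⟨z', hz'⟩ := h1 (not_lt.mp hcon)
      obtain ⟨z, hz⟩ := h2' h
      exact hmix _ _ h z z' hz' hz
  · intro h
    by_cases h' : ex1 s r' * ex2 s r' < 0
    · obtain ⟨z, hz⟩ := h2 h
      obtain ⟨z', hz'⟩ := h2' h'
      obtain ⟨ha, hb⟩ := hpos _ _ h
      obtain ⟨ha', hb'⟩ := hpos _ _ h'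
      set D : ℕ := (ex1 s r).natAbs + (ex2 s r).natAbs with hD
      set D' : ℕ := (ex1 s r').natAbs + (ex2 s r').natAbs with hD'
      have h3 : (x ^ D) ^ D' = (x ^ D') ^ D := by rw [← pow_mul, ← pow_mul, mul_comm]
      rw [hz, hz', ← zpow_natCast, ← zpow_natCast, ← zpow_mul, ← zpow_mul] at h3
      have h4 := zpow_inj B hπ0 hπ1 h3
      have h5 := arith2 (D : ℤ) ((ex2 s r).natAbs : ℤ) z (D' : ℤ) ((ex2 s r').natAbs : ℤ) z'
        (by omega) (by omega) (by omega) (by omega) h4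
      have h6 : (ex2 s r).natAbs * D' = (ex2 s r').natAbs * D := by exact_mod_cast h5
      rw [hD, hD'] at h6
      nlinarith
    · exfalso
      obtain ⟨z', hz'⟩ := h1' (not_lt.mp h')
      obtain ⟨z, hz⟩ := h2 h
      exact hmix _ _ h z z' hz' hz

end Pool.Agent.DistinctMahler
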