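import Mathlib

/-!
Definitions for MP_5d730e_nt: Mahler measures of monomial specialisations `F_A`,
matrices in saturated Hermite normal form, dimension of a polynomial.
-/

set_option autoImplicit false

namespace Pool.Agent.DistinctMahler

/-- Laurent polynomials in `ℓ` variables with integer coefficients. -/
abbrev Laurent (l : ℕ) := AddMonoidAlgebra ℤ (Fin l → ℤ)

/-- The value of the Laurent polynomial `G` at the point
`(exp(2 pi i t_1), ..., exp(2 pi i t_l))` of the torus. -/
noncomputable def torusEval {l : ℕ} (G : Laurent l) (t : Fin l → ℝ) : ℂ :=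
  G.coeff.sum fun v c =>
    (c : ℂ) * Complex.exp (2 * Real.pi * Complex.I * ((∑ i, (v i : ℝ) * t i : ℝ) : ℂ))

/-- The (logarithmic) Mahler measure of `G`: the integral over the unit cube of
`log |G(exp(2 pi i t_1), ..., exp(2 pi i t_l))|`. -/
noncomputable def mahler {l : ℕ} (G : Laurent l) : ℝ :=
  ∫ t in Set.Icc (0 : Fin l → ℝ) 1, Real.log ‖torusEval G t‖

/-- The specialisation `F_A(z_1, ..., z_l) = F(z^A)`: the `j`-th variable of `F` is replaced by the
monomial `z_1^(A 1 j) ... z_l^(A l j)`. -/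
noncomputable def spec {l k : ℕ} (F : MvPolynomial (Fin k) ℤ) (A : Matrix (Fin l) (Fin k) ℤ) :
    Laurent l :=
  MvPolynomial.aeval (fun j => AddMonoidAlgebra.single (fun i => A i j) (1 : ℤ)) F

/-- The dimension of `F`: the dimension of the convex hull of its exponent vectors. -/
noncomputable def dimension {k : ℕ} (F : MvPolynomial (Fin k) ℤ) : ℕ :=
  Module.finrank ℝ (vectorSpan ℝ (convexHull ℝ
    ((fun (m : Fin k →₀ ℕ) (i : Fin k) => ((m i : ℕ) : ℝ)) '' (F.support : Set (Fin k →₀ ℕ)))))

/-- Saturated Hermite normal form. -/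
structure IsSHNF {l k : ℕ} (H : Matrix (Fin l) (Fin k) ℤ) : Prop where
  /-- Hermite normal form: there are pivot columns `p 1 < ... < p l`, with positive pivots,
  zeros to the left of each pivot, and entries above a pivot in `[0, pivot)`. -/
  hnf : ∃ p : Fin l → Fin k, StrictMono p ∧ (∀ i, 1 ≤ H i (p i)) ∧
    (∀ i j, j < p i → H i j = 0) ∧
    (∀ i' i, i' < i → 0 ≤ H i' (p i) ∧ H i' (p i) < H i (p i))
  /-- every integer vector in the real span of the rows is an integer combination of rows -/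
  saturated : ∀ v : Fin k → ℤ, (∃ c : Fin l → ℝ, ∀ j, (v j : ℝ) = ∑ i, c i * (H i j : ℝ)) →
    ∃ c : Fin l → ℤ, ∀ j, v j = ∑ i, c i * H i j

/-- The `ℓ¹` length of an integer vector. -/
def len {k : ℕ} (v : Fin k → ℤ) : ℤ := ∑ i, |v i|

/-- The polynomial `z_1 ... z_k (N - (z_1 + 1/z_1) - ... - (z_k + 1/z_k))`. -/
noncomputable def latticePoly (k N : ℕ) : MvPolynomial (Fin k) ℤ :=
  MvPolynomial.C (N : ℤ) * ∏ j, MvPolynomial.X j -
    ∑ i, (MvPolynomial.X i ^ 2 + 1) * ∏ j ∈ Finset.univ.erase i, MvPolynomial.X j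

end Pool.Agent.DistinctMahler
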