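import Pool.Agent.DistinctMahler.Fourier

set_option autoImplicit false

namespace Pool.Agent.DistinctMahler

lemma mul_aux {ι κ : Type*} (f : ι → ℂ) (g : κ → ℂ) (a b : ℂ) (hf : Summable (fun x => ‖f x‖))
    (hg : Summable (fun x => ‖g x‖)) (ha : HasSum f a) (hb : HasSum g b) :
    Summable (fun x : ι × κ => ‖f x.1 * g x.2‖) ∧ HasSum (fun x : ι × κ => f x.1 * g x.2) (a * b) := by
  have h := Summable.mul_norm hf hg
  exact ⟨h, ha.mul hb h.of_norm⟩

/-- product of finitely many absolutely convergent series indexed by `ℤ` -/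
lemma hasSum_pi_prod {k : ℕ} (f : Fin k → ℤ → ℂ) (hf : ∀ i, Summable (fun m => ‖f i m‖)) :
    Summable (fun v : Fin k → ℤ => ‖∏ i, f i (v i)‖) ∧
      HasSum (fun v : Fin k → ℤ => ∏ i, f i (v i)) (∏ i, ∑' m, f i m) := by
  induction k with
  | zero =>
    constructor
    · exact (hasSum_fintype _).summable
    · convert hasSum_fintype (fun v : Fin 0 → ℤ => ∏ i, f i (v i)) using 1
      simp
  | succ k ih =>
    have h1 : Summable (fun v : Fin k → ℤ => ‖∏ i, f i.succ (v i)‖) :=
      (ih (fun i => f i.succ) (fun i => hf i.succ)).1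
    have h2 : HasSum (fun v : Fin k → ℤ => ∏ i, f i.succ (v i)) (∏ i : Fin k, ∑' m, f i.succ m) :=
      (ih (fun i => f i.succ) (fun i => hf i.succ)).2
    have h0 : Summable (fun m : ℤ => ‖f 0 m‖) := hf 0
    have h0' : HasSum (fun m : ℤ => f 0 m) (∑' m, f 0 m) := h0.of_norm.hasSum
    obtain ⟨h3n, h4⟩ := mul_aux _ _ _ _ h0 h1 h0' h2
    let e := Fin.consEquiv (fun _ : Fin (k + 1) => ℤ)
    have he : ∀ x : ℤ × (Fin k → ℤ),
        (∏ i : Fin (k + 1), f i (e x i)) = f 0 x.1 * ∏ i : Fin k, f i.succ (x.2 i) := by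
      intro x
      rw [Fin.prod_univ_succ]
      rfl
    constructor
    · rw [← e.summable_iff]
      refine h3n.congr ?_
      intro x
      simp only [Function.comp]
      rw [he]
    · rw [Fin.prod_univ_succ, ← e.hasSum_iff]
      convert h4 using 1
      funext x
      exact he x

/-- the one-variable term -/
noncomputable def term1 (s : SignType) (j : ℕ) (x : ℂ) (m : ℤ) : ℂ :=
  if SignType.sign m = s then
    (if m = 0 then 1 else (Nat.choose (m.natAbs - 1) (j - 1) : ℂ) * x ^ m.natAbs) else 0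

lemma hasSum_term1_ne (σ : ℤ) (hσ : σ = 1 ∨ σ = -1) (j : ℕ) (hj : 1 ≤ j) (x : ℂ) (hx : ‖x‖ < 1) :
    HasSum (term1 (SignType.sign σ) j x) ((x / (1 - x)) ^ j) := by
  have hσ0 : σ ≠ 0 := by rcases hσ with h | h <;> simp [h]
  have hinj : Function.Injective (fun n : ℕ => σ * ((n + j : ℕ) : ℤ)) := by
    intro a b hab
    have := mul_left_cancel₀ hσ0 hab
    have h2 : a + j = b + j := by exact_mod_cast this
    omega
  have hterm : ∀ n : ℕ, term1 (SignType.sign σ) j x (σ * ((n + j : ℕ) : ℤ)) =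
      x ^ j * (((n + (j - 1)).choose (j - 1) : ℂ) * x ^ n) := by
    intro n
    have hpos : (0 : ℤ) < ((n + j : ℕ) : ℤ) := by positivity
    have hs : SignType.sign (σ * ((n + j : ℕ) : ℤ)) = SignType.sign σ := by
      rw [sign_mul, sign_pos hpos, mul_one]
    have hne : σ * ((n + j : ℕ) : ℤ) ≠ 0 := mul_ne_zero hσ0 hpos.ne'
    have hab : (σ * ((n + j : ℕ) : ℤ)).natAbs = n + j := by
      rw [Int.natAbs_mul]
      rcases hσ with h | h <;> subst h <;> simp <;> omega
    unfold term1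
    rw [if_pos hs, if_neg hne, hab]
    have : n + j - 1 = n + (j - 1) := by omega
    rw [this, pow_add]
    ring
  rw [← Function.Injective.hasSum_iff hinj]
  · have h := (hasSum_choose_mul_geometric_of_norm_lt_one (𝕜 := ℂ) (j - 1) hx).mul_left (x ^ j)
    have hj' : j - 1 + 1 = j := by omega
    rw [hj'] at h
    have e1 : (term1 (SignType.sign σ) j x ∘ fun n : ℕ => σ * ((n + j : ℕ) : ℤ)) =
        fun n : ℕ => x ^ j * (((n + (j - 1)).choose (j - 1) : ℂ) * x ^ n) := by
      funext n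
      exact hterm n
    have e2 : (x / (1 - x)) ^ j = x ^ j * (1 / (1 - x) ^ j) := by
      rw [div_pow]
      ring
    rw [e1, e2]
    exact h
  · intro m hm
    unfold term1
    split_ifs with h1 h2
    · exfalso
      subst h2
      rw [sign_zero] at h1
      rcases hσ with h | h <;> subst h <;> simp at h1
    · -- |m| < j
      have hlt : m.natAbs < j := by
        by_contra hge
        push Not at hge
        apply hm
        refine ⟨m.natAbs - j, ?_⟩
        simp only
        have : m.natAbs - j + j = m.natAbs := by omega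
        rw [this]
        rcases hσ with h | h
        · subst h
          have : 0 < m := by
            rw [← sign_eq_one_iff]
            simpa using h1
          omega
        · subst h
          have : m < 0 := by
            rw [← sign_eq_neg_one_iff]
            simpa using h1
          omega
      rw [Nat.choose_eq_zero_of_lt]
      · simp
      · have : m.natAbs ≠ 0 := Int.natAbs_ne_zero.mpr h2
        omega
    · rfl

lemma hasSum_term1_zero (j : ℕ) (x : ℂ) : HasSum (term1 0 j x) 1 := by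
  convert hasSum_single (0 : ℤ) _ using 1
  · simp [term1]
  · intro m hm
    unfold term1
    rw [if_neg]
    rwa [sign_eq_zero_iff]

lemma hasSum_term1 (s : SignType) (j : ℕ) (hj : 1 ≤ j) (x : ℂ) (hx : ‖x‖ < 1) :
    HasSum (term1 s j x) (if s = 0 then 1 else (x / (1 - x)) ^ j) := by
  cases s with
  | zero => simpa using hasSum_term1_zero j x
  | neg => simpa using hasSum_term1_ne (-1) (Or.inr rfl) j hj x hx
  | pos => simpa using hasSum_term1_ne 1 (Or.inl rfl) j hj x hx

lemma norm_term1 (s : SignType) (j : ℕ) (x : ℂ) (m : ℤ) :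
    ‖term1 s j x m‖ = (term1 s j (‖x‖ : ℂ) m).re := by
  unfold term1
  split_ifs with h1 h2
  · simp
  · rw [norm_mul, norm_pow, Complex.norm_natCast, ← Complex.ofReal_pow, ← Complex.ofReal_natCast,
      ← Complex.ofReal_mul, Complex.ofReal_re]
  · simp

lemma summable_norm_term1 (s : SignType) (j : ℕ) (hj : 1 ≤ j) (x : ℂ) (hx : ‖x‖ < 1) :
    Summable (fun m => ‖term1 s j x m‖) := by
  simp_rw [norm_term1]
  have h := (hasSum_term1 s j hj (‖x‖ : ℂ) (by simpa using hx)).summable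
  exact (Complex.hasSum_re h.hasSum).summable

/-- the sign vector of an integer vector -/
noncomputable def sgn {k : ℕ} (v : Fin k → ℤ) : Fin k → SignType := fun i => SignType.sign (v i)

/-- product weight -/
noncomputable def wt {k : ℕ} (α : Fin k → ℝ) (j : ℕ) (v : Fin k → ℤ) : ℝ :=
  ∏ i, (if v i = 0 then 1 else (Nat.choose ((v i).natAbs - 1) (j - 1) : ℝ) * α i ^ (v i).natAbs)

lemma wt_nonneg {k : ℕ} (α : Fin k → ℝ) (hα : ∀ i, 0 ≤ α i) (j : ℕ) (v : Fin k → ℤ) :
    0 ≤ wt α j v := by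
  unfold wt
  apply Finset.prod_nonneg
  intro i _
  split_ifs
  · exact zero_le_one
  · exact mul_nonneg (Nat.cast_nonneg _) (pow_nonneg (hα i) _)

/-- the points `x_i` -/
noncomputable def pt {k : ℕ} (α : Fin k → ℝ) (u : Fin k → SignType) (θ : Fin k → ℝ) (i : Fin k) :
    ℂ := (α i : ℂ) * ee (((u i : ℤ) : ℝ) * θ i)

lemma norm_pt {k : ℕ} (α : Fin k → ℝ) (hα : ∀ i, 0 ≤ α i) (u : Fin k → SignType) (θ : Fin k → ℝ)
    (i : Fin k) : ‖pt α u θ i‖ = α i := by
  unfold pt
  rw [norm_mul, norm_ee, mul_one, Complex.norm_real, Real.norm_of_nonneg (hα i)]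

lemma natAbs_cast_eq (m : ℤ) : (((SignType.sign m : SignType) : ℤ) : ℝ) * (m.natAbs : ℝ) = (m : ℝ) := by
  rcases lt_trichotomy m 0 with h | h | h
  · rw [sign_neg h]
    have : ((m.natAbs : ℤ) : ℝ) = ((-m : ℤ) : ℝ) := by
      congr 1
      omega
    rw [Int.cast_natCast] at this
    rw [this]
    simp
  · subst h
    simp
  · rw [sign_pos h]
    have : ((m.natAbs : ℤ) : ℝ) = (m : ℝ) := by
      congr 1
      omega
    rw [Int.cast_natCast] at this
    rw [this]
    simp

lemma prod_term1 {k : ℕ} (α : Fin k → ℝ) (u : Fin k → SignType) (θ : Fin k → ℝ) (j : ℕ)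
    (v : Fin k → ℤ) :
    ∏ i, term1 (u i) j (pt α u θ i) (v i) =
      if sgn v = u then (wt α j v : ℂ) * ee (∑ i, (v i : ℝ) * θ i) else 0 := by
  split_ifs with h
  · rw [ee_sum, wt, Complex.ofReal_prod, ← Finset.prod_mul_distrib]
    apply Finset.prod_congr rfl
    intro i _
    have hi : SignType.sign (v i) = u i := congrFun h i
    unfold term1
    rw [if_pos hi]
    by_cases h0 : v i = 0
    · rw [if_pos h0, if_pos h0, h0]
      simp [ee_zero]
    · rw [if_neg h0, if_neg h0]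
      have h1 : pt α u θ i ^ (v i).natAbs =
          (α i : ℂ) ^ (v i).natAbs * ee ((v i : ℝ) * θ i) := by
        unfold pt
        rw [mul_pow, ← ee_natmul, ← hi]
        congr 2
        rw [← mul_assoc, mul_comm ((v i).natAbs : ℝ), natAbs_cast_eq]
      rw [h1]
      push_cast
      ring
  · have : ∃ i, sgn v i ≠ u i := by
      by_contra hcon
      push Not at hcon
      exact h (funext hcon)
    obtain ⟨i, hi⟩ := this
    apply Finset.prod_eq_zero (Finset.mem_univ i)
    unfold term1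
    rw [if_neg (show ¬ SignType.sign (v i) = u i from hi)]

/-- the product `∏ x_i / (1 - x_i)` over the support of `u` -/
noncomputable def RR {k : ℕ} (u : Fin k → SignType) (x : Fin k → ℂ) : ℂ :=
  ∏ i, if u i = 0 then 1 else x i / (1 - x i)

lemma hasSum_RR_pow {k : ℕ} (α : Fin k → ℝ) (hα : ∀ i, 0 ≤ α i) (hα1 : ∀ i, α i < 1)
    (u : Fin k → SignType) (θ : Fin k → ℝ) (j : ℕ) (hj : 1 ≤ j) :
    Summable (fun v : Fin k → ℤ => if sgn v = u then wt α j v else 0) ∧
    HasSum (fun v : Fin k → ℤ =>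
      if sgn v = u then (wt α j v : ℂ) * ee (∑ i, (v i : ℝ) * θ i) else 0)
      (RR u (pt α u θ) ^ j) := by
  have hx : ∀ i, ‖pt α u θ i‖ < 1 := fun i => by rw [norm_pt α hα]; exact hα1 i
  obtain ⟨h1, h2⟩ := hasSum_pi_prod (fun i => term1 (u i) j (pt α u θ i))
    (fun i => summable_norm_term1 (u i) j hj _ (hx i))
  simp_rw [prod_term1] at h1 h2
  constructor
  · refine h1.congr ?_
    intro v
    split_ifs with h
    · rw [norm_mul, norm_ee, mul_one, Complex.norm_real, Real.norm_of_nonneg (wt_nonneg α hα j v)]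
    · simp
  · convert h2 using 1
    unfold RR
    rw [← Finset.prod_pow]
    apply Finset.prod_congr rfl
    intro i _
    rw [(hasSum_term1 (u i) j hj _ (hx i)).tsum_eq]
    split_ifs <;> simp

noncomputable def RRr {k : ℕ} (α : Fin k → ℝ) (u : Fin k → SignType) : ℝ :=
  ∏ i, if u i = 0 then 1 else α i / (1 - α i)

lemma RRr_nonneg {k : ℕ} (α : Fin k → ℝ) (hα : ∀ i, 0 ≤ α i) (hα1 : ∀ i, α i < 1)
    (u : Fin k → SignType) : 0 ≤ RRr α u := by
  apply Finset.prod_nonneg
  intro i _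
  split_ifs
  · exact zero_le_one
  · exact div_nonneg (hα i) (by linarith [hα1 i])

lemma RR_zero {k : ℕ} (α : Fin k → ℝ) (u : Fin k → SignType) :
    RR u (pt α u 0) = (RRr α u : ℂ) := by
  unfold RR RRr
  rw [Complex.ofReal_prod]
  apply Finset.prod_congr rfl
  intro i _
  split_ifs
  · simp
  · simp [pt, ee_zero]

lemma norm_RR_le {k : ℕ} (α : Fin k → ℝ) (hα : ∀ i, 0 ≤ α i) (hα1 : ∀ i, α i < 1)
    (u : Fin k → SignType) (θ : Fin k → ℝ) : ‖RR u (pt α u θ)‖ ≤ RRr α u := by
  unfold RR RRr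
  rw [norm_prod]
  apply Finset.prod_le_prod
  · intro i _
    exact norm_nonneg _
  · intro i _
    split_ifs
    · simp
    · rw [norm_div, norm_pt α hα]
      have h1 : 1 - α i ≤ ‖1 - pt α u θ i‖ := by
        have := norm_sub_norm_le (1 : ℂ) (pt α u θ i)
        rw [norm_one, norm_pt α hα] at this
        exact this
      have h2 : 0 < 1 - α i := by linarith [hα1 i]
      exact div_le_div_of_nonneg_left (hα i) h2 h1

/-- the double series terms -/
noncomputable def gg {k : ℕ} (E : ℝ) (α : Fin k → ℝ) (u : Fin k → SignType) (j : ℕ)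
    (v : Fin k → ℤ) : ℝ := (E ^ j / j) * (if sgn v = u then wt α j v else 0)

lemma gg_nonneg {k : ℕ} (E : ℝ) (hE : 0 ≤ E) (α : Fin k → ℝ) (hα : ∀ i, 0 ≤ α i)
    (u : Fin k → SignType) (j : ℕ) (v : Fin k → ℤ) : 0 ≤ gg E α u j v := by
  unfold gg
  apply mul_nonneg
  · positivity
  · split_ifs
    · exact wt_nonneg α hα j v
    · exact le_rfl

lemma gg_fiber {k : ℕ} (E : ℝ) (α : Fin k → ℝ) (hα : ∀ i, 0 ≤ α i)
    (hα1 : ∀ i, α i < 1) (u : Fin k → SignType) (θ : Fin k → ℝ) (j : ℕ) :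
    Summable (fun v => gg E α u j v) ∧
    HasSum (fun v : Fin k → ℤ => (gg E α u j v : ℂ) * ee (∑ i, (v i : ℝ) * θ i))
      (((E : ℂ) * RR u (pt α u θ)) ^ j / j) := by
  rcases Nat.eq_zero_or_pos j with h0 | hj
  · subst h0
    constructor
    · simp [gg, summable_zero]
    · simp [gg, hasSum_zero]
  · obtain ⟨h1, h2⟩ := hasSum_RR_pow α hα hα1 u θ j hj
    constructor
    · exact h1.mul_left _
    · have h3 := h2.mul_left ((E ^ j / j : ℝ) : ℂ)
      have e1 : ((E ^ j / j : ℝ) : ℂ) * RR u (pt α u θ) ^ j =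
          ((E : ℂ) * RR u (pt α u θ)) ^ j / j := by
        push_cast
        rw [mul_pow]
        ring
      rw [e1] at h3
      have e2 : (fun v : Fin k → ℤ => (gg E α u j v : ℂ) * ee (∑ i, (v i : ℝ) * θ i)) =
          fun v : Fin k → ℤ => ((E ^ j / j : ℝ) : ℂ) *
            (if sgn v = u then (wt α j v : ℂ) * ee (∑ i, (v i : ℝ) * θ i) else 0) := by
        funext v
        unfold gg
        split_ifs
        · push_cast
          ring
        · simp
      rw [e2]
      exact h3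

/-- coefficients of the `R`-part -/
noncomputable def cR {k : ℕ} (E : ℝ) (α : Fin k → ℝ) (u : Fin k → SignType) (v : Fin k → ℤ) : ℝ :=
  -∑' j, gg E α u j v

lemma log_norm_one_sub (y : ℂ) :
    (-Complex.log (1 - y)).re = -Real.log ‖1 - y‖ := by
  rw [Complex.neg_re, Complex.log_re]

lemma gg_summable {k : ℕ} (E : ℝ) (hE : 0 ≤ E) (α : Fin k → ℝ) (hα : ∀ i, 0 ≤ α i)
    (hα1 : ∀ i, α i < 1) (u : Fin k → SignType) (hER : E * RRr α u < 1) :
    Summable (fun p : ℕ × (Fin k → ℤ) => gg E α u p.1 p.2) := by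
  have hRn := RRr_nonneg α hα hα1 u
  have hfib0 : ∀ j, ∑' v, gg E α u j v = (E * RRr α u) ^ j / j := by
    intro j
    have h := (gg_fiber E α hα hα1 u 0 j).2
    have e1 : (fun v : Fin k → ℤ => (gg E α u j v : ℂ) * ee (∑ i, (v i : ℝ) * (0 : Fin k → ℝ) i)) =
        fun v : Fin k → ℤ => ((gg E α u j v : ℝ) : ℂ) := by
      funext v
      simp [ee_zero]
    have e2 : ((E : ℂ) * RR u (pt α u 0)) ^ j / j = (((E * RRr α u) ^ j / j : ℝ) : ℂ) := by
      rw [RR_zero]
      push_cast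
      rfl
    rw [e1, e2] at h
    exact (Complex.hasSum_ofReal.mp h).tsum_eq
  have hnn : ∀ p : ℕ × (Fin k → ℤ), 0 ≤ gg E α u p.1 p.2 :=
    fun p => gg_nonneg E hE α hα u p.1 p.2
  rw [summable_prod_of_nonneg hnn]
  constructor
  · intro j
    exact (gg_fiber E α hα hα1 u 0 j).1
  · simp_rw [hfib0]
    have hy : ‖((E * RRr α u : ℝ) : ℂ)‖ < 1 := by
      rw [Complex.norm_real, Real.norm_of_nonneg (mul_nonneg hE hRn)]
      exact hER
    have h2 := (Complex.hasSum_taylorSeries_neg_log hy).summable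
    have h3 : Summable (fun n : ℕ => (((E * RRr α u) ^ n / n : ℝ) : ℂ)) := by
      refine h2.congr ?_
      intro n
      push_cast
      rfl
    exact Complex.summable_ofReal.mp h3

lemma gg_summable' {k : ℕ} (E : ℝ) (hE : 0 ≤ E) (α : Fin k → ℝ) (hα : ∀ i, 0 ≤ α i)
    (hα1 : ∀ i, α i < 1) (u : Fin k → SignType) (hER : E * RRr α u < 1) :
    Summable (fun p : (Fin k → ℤ) × ℕ => gg E α u p.2 p.1) := by
  have h := (gg_summable E hE α hα hα1 u hER).prod_symm
  exact h

lemma swap_fiber {ι κ : Type*} (g : ι → κ → ℝ) (hg0 : ∀ i j, 0 ≤ g i j)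
    (hg : Summable (fun p : ι × κ => g p.1 p.2))
    (w : κ → ℂ) (hw : ∀ x, ‖w x‖ = 1) (S : ι → ℂ) (L : ℂ)
    (hS : ∀ i, HasSum (fun x => (g i x : ℂ) * w x) (S i)) (hL : HasSum S L) :
    HasSum (fun x => ((∑' i, g i x : ℝ) : ℂ) * w x) L := by
  have hF : Summable (fun p : ι × κ => (g p.1 p.2 : ℂ) * w p.2) := by
    apply Summable.of_norm
    refine hg.congr ?_
    intro p
    rw [norm_mul, hw, mul_one, Complex.norm_real, Real.norm_of_nonneg (hg0 p.1 p.2)]
  have h1 : HasSum S (∑' p : ι × κ, (g p.1 p.2 : ℂ) * w p.2) :=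
    hF.hasSum.prod_fiberwise hS
  have h3 := h1.unique hL
  have h4 : HasSum (fun p : κ × ι => (g p.2 p.1 : ℂ) * w p.1) L := by
    rw [← h3]
    have h5 := (Equiv.hasSum_iff (Equiv.prodComm κ ι)
      (f := fun p : ι × κ => (g p.1 p.2 : ℂ) * w p.2)).mpr hF.hasSum
    exact h5
  have hg' : Summable (fun p : κ × ι => g p.2 p.1) := hg.prod_symm
  refine h4.prod_fiberwise ?_
  intro x
  apply HasSum.mul_right
  exact Complex.hasSum_ofReal.mpr (hg'.prod_factor x).hasSum

lemma cR_summable {k : ℕ} (E : ℝ) (hE : 0 ≤ E) (α : Fin k → ℝ) (hα : ∀ i, 0 ≤ α i)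
    (hα1 : ∀ i, α i < 1) (u : Fin k → SignType) (hER : E * RRr α u < 1) :
    Summable (cR E α u) :=
  (gg_summable' E hE α hα hα1 u hER).prod.neg

lemma R_part {k : ℕ} (E : ℝ) (hE : 0 ≤ E) (α : Fin k → ℝ) (hα : ∀ i, 0 ≤ α i)
    (hα1 : ∀ i, α i < 1) (u : Fin k → SignType) (hER : E * RRr α u < 1) (θ : Fin k → ℝ) :
    HasSum (fun v : Fin k → ℤ =>
      cR E α u v * Real.cos (2 * Real.pi * ∑ i, (v i : ℝ) * θ i))
      (Real.log ‖1 - (E : ℂ) * RR u (pt α u θ)‖) := by
  have hy : ‖(E : ℂ) * RR u (pt α u θ)‖ < 1 := by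
    rw [norm_mul, Complex.norm_real, Real.norm_of_nonneg hE]
    exact lt_of_le_of_lt (mul_le_mul_of_nonneg_left (norm_RR_le α hα hα1 u θ) hE) hER
  have h5 := swap_fiber (fun j v => gg E α u j v) (fun j v => gg_nonneg E hE α hα u j v)
    (gg_summable E hE α hα hα1 u hER) (fun v : Fin k → ℤ => ee (∑ i, (v i : ℝ) * θ i))
    (fun v => norm_ee _) _ _ (fun j => (gg_fiber E α hα hα1 u θ j).2)
    (Complex.hasSum_taylorSeries_neg_log hy)
  have h6 := (Complex.hasSum_re h5).neg
  rw [log_norm_one_sub, neg_neg] at h6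
  have e : (fun v : Fin k → ℤ => cR E α u v * Real.cos (2 * Real.pi * ∑ i, (v i : ℝ) * θ i)) =
      fun v : Fin k → ℤ => -(((∑' j, gg E α u j v : ℝ) : ℂ) * ee (∑ i, (v i : ℝ) * θ i)).re := by
    funext v
    unfold cR
    rw [Complex.re_ofReal_mul, ee_re]
    ring
  rw [e]
  exact h6

end Pool.Agent.DistinctMahler
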