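import Pool.Agent.DistinctMahler.Hnf

set_option autoImplicit false

namespace Pool.Agent.DistinctMahler

/-- the kernel lattice -/
def kerL {l k : ℕ} (H : Matrix (Fin l) (Fin k) ℤ) : AddSubgroup (Fin k → ℤ) where
  carrier := {v | H.mulVec v = 0}
  zero_mem' := Matrix.mulVec_zero H
  add_mem' := by
    intro a b ha hb
    change H.mulVec a = 0 at ha
    change H.mulVec b = 0 at hb
    change H.mulVec (a + b) = 0
    rw [Matrix.mulVec_add, ha, hb, add_zero]
  neg_mem' := by
    intro a ha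
    change H.mulVec a = 0 at ha
    change H.mulVec (-a) = 0
    rw [Matrix.mulVec_neg, ha, neg_zero]

lemma mem_kerL {l k : ℕ} (H : Matrix (Fin l) (Fin k) ℤ) (v : Fin k → ℤ) :
    v ∈ kerL H ↔ H.mulVec v = 0 := Iff.rfl

lemma mem_kerL' {l k : ℕ} (H : Matrix (Fin l) (Fin k) ℤ) (v : Fin k → ℤ) :
    v ∈ kerL H ↔ ∀ i, ∑ j, H i j * v j = 0 := by
  rw [mem_kerL]
  constructor
  · intro h i
    exact congrFun h i
  · intro h
    funext i
    exact h i

/-- an integer vector orthogonal to the kernel lattice lies in the rational row span -/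
lemma mem_span_of_orth {l k : ℕ} (H : Matrix (Fin l) (Fin k) ℤ) (w : Fin k → ℤ)
    (hw : ∀ v ∈ kerL H, ∑ j, w j * v j = 0) :
    ∃ c : Fin l → ℚ, ∀ j, (w j : ℚ) = ∑ i, c i * (H i j : ℚ) := by
  classical
  let f : (Fin k → ℚ) →ₗ[ℚ] (Fin l → ℚ) := Matrix.mulVecLin (Matrix.of (fun i j => (H i j : ℚ)))
  let φ : (Fin k → ℚ) →ₗ[ℚ] ℚ := ∑ j, (w j : ℚ) • LinearMap.proj j
  have hφ : ∀ x : Fin k → ℚ, φ x = ∑ j, (w j : ℚ) * x j := by
    intro x
    simp [φ, LinearMap.sum_apply]
  have hf : ∀ (x : Fin k → ℚ) (i : Fin l), f x i = ∑ j, (H i j : ℚ) * x j := by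
    intro x i
    rfl
  have hmem : φ ∈ (LinearMap.ker f).dualAnnihilator := by
    rw [Submodule.mem_dualAnnihilator]
    intro x hx
    -- clear denominators
    rw [LinearMap.mem_ker] at hx
    obtain ⟨d, hd0, hd⟩ : ∃ d : ℤ, d ≠ 0 ∧ ∀ j, ∃ z : ℤ, (d : ℚ) * x j = z := by
      refine ⟨∏ j, ((x j).den : ℤ), ?_, ?_⟩
      · rw [Finset.prod_ne_zero_iff]
        intro j _
        exact_mod_cast (x j).den_nz
      · intro j
        refine ⟨(∏ l ∈ Finset.univ.erase j, ((x l).den : ℤ)) * (x j).num, ?_⟩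
        rw [← Finset.mul_prod_erase Finset.univ _ (Finset.mem_univ j)]
        push_cast
        have h1 : ((x j).den : ℚ) * x j = (x j).num := by
          rw [mul_comm]
          exact Rat.mul_den_eq_num (x j)
        rw [← h1]
        ring
    choose z hz using hd
    have hzk : z ∈ kerL H := by
      rw [mem_kerL']
      intro i
      have h1 : ((∑ j, H i j * z j : ℤ) : ℚ) = 0 := by
        push_cast
        simp_rw [← hz]
        have h2 := congrFun hx i
        rw [hf] at h2
        calc ∑ j, (H i j : ℚ) * ((d : ℚ) * x j) = (d : ℚ) * ∑ j, (H i j : ℚ) * x j := by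
              rw [Finset.mul_sum]
              apply Finset.sum_congr rfl
              intro j _
              ring
          _ = 0 := by rw [h2]; simp
      exact_mod_cast h1
    have h3 := hw z hzk
    have h4 : (d : ℚ) * φ x = 0 := by
      rw [hφ, Finset.mul_sum]
      have h5 : ((∑ j, w j * z j : ℤ) : ℚ) = 0 := by exact_mod_cast h3
      push_cast at h5
      simp_rw [← hz] at h5
      rw [← h5]
      apply Finset.sum_congr rfl
      intro j _
      ring
    rcases mul_eq_zero.mp h4 with h | h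
    · exact absurd (by exact_mod_cast h) hd0
    · exact h
  rw [← LinearMap.range_dualMap_eq_dualAnnihilator_ker] at hmem
  obtain ⟨g, hg⟩ := hmem
  refine ⟨fun i => g (Pi.single i 1), ?_⟩
  intro j
  have h1 : φ (Pi.single j 1) = w j := by
    rw [hφ]
    simp [Pi.single_apply]
  have h2 : φ (Pi.single j 1) = g (f (Pi.single j 1)) := by
    rw [← hg]
    rfl
  rw [← h1, h2]
  have h3 : f (Pi.single j 1) = ∑ i, (H i j : ℚ) • (Pi.single i 1 : Fin l → ℚ) := by
    funext i
    rw [hf, Finset.sum_apply]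
    simp [Pi.single_apply]
  rw [h3, map_sum]
  apply Finset.sum_congr rfl
  intro i _
  rw [map_smul, smul_eq_mul, mul_comm]

lemma rowL_subset_of_ker {l l' k : ℕ} (H : Matrix (Fin l) (Fin k) ℤ)
    (H' : Matrix (Fin l') (Fin k) ℤ) (hH : IsSHNF H) (hker : kerL H ≤ kerL H') :
    rowL H' ⊆ rowL H := by
  rintro v ⟨c, hc⟩
  have horth : ∀ x ∈ kerL H, ∑ j, v j * x j = 0 := by
    intro x hx
    have hx' := (mem_kerL' H' x).mp (hker hx)
    simp_rw [hc, Finset.sum_mul]
    rw [Finset.sum_comm]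
    apply Finset.sum_eq_zero
    intro i _
    calc ∑ j, c i * H' i j * x j = c i * ∑ j, H' i j * x j := by
          rw [Finset.mul_sum]
          apply Finset.sum_congr rfl
          intro j _
          ring
      _ = 0 := by rw [hx' i, mul_zero]
  obtain ⟨d, hd⟩ := mem_span_of_orth H v horth
  exact hH.saturated v ⟨fun i => (d i : ℝ), by
    intro j
    have := hd j
    have h2 : ((v j : ℚ) : ℝ) = ((∑ i, d i * (H i j : ℚ) : ℚ) : ℝ) := by rw [this]
    push_cast at h2
    exact h2⟩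

theorem eq_of_kerL_eq {l l' k : ℕ} (H : Matrix (Fin l) (Fin k) ℤ)
    (H' : Matrix (Fin l') (Fin k) ℤ) (hH : IsSHNF H) (hH' : IsSHNF H') (hker : kerL H = kerL H') :
    (⟨l, H⟩ : Σ l, Matrix (Fin l) (Fin k) ℤ) = ⟨l', H'⟩ := by
  obtain ⟨p, hp⟩ := hH.hnf
  obtain ⟨p', hp'⟩ := hH'.hnf
  apply hnf_unique H H' p p' hp hp'
  exact Set.Subset.antisymm (rowL_subset_of_ker H' H hH' hker.symm.le)
    (rowL_subset_of_ker H H' hH hker.le)

end Pool.Agent.DistinctMahler
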