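import Pool.Agent.DistinctMahler.GapMain
import Pool.Agent.DistinctMahler.Ker

set_option autoImplicit false

namespace Pool.Agent.DistinctMahler

lemma sat_kerL {l k : ℕ} (H : Matrix (Fin l) (Fin k) ℤ) : Sat (kerL H) := by
  intro m v hm hv
  rw [mem_kerL'] at hv ⊢
  intro i
  have h1 := hv i
  have h2 : m * ∑ j, H i j * v j = 0 := by
    rw [← h1, Finset.mul_sum]
    apply Finset.sum_congr rfl
    intro j _
    rw [Pi.smul_apply, smul_eq_mul]
    ring
  rcases mul_eq_zero.mp h2 with h | h
  · exact absurd h hm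
  · exact h

lemma TT_nonempty_of_ne {k : ℕ} (L L' : AddSubgroup (Fin k → ℤ)) (h : L ≠ L') :
    (TT L L').Nonempty := by
  by_contra hcon
  rw [Set.not_nonempty_iff_eq_empty] at hcon
  apply h
  ext v
  by_contra hne
  have : v ∈ TT L L' := by
    by_cases h1 : v ∈ L
    · by_cases h2 : v ∈ L'
      · exact absurd (iff_of_true h1 h2) hne
      · exact Or.inl ⟨h1, h2⟩
    · by_cases h2 : v ∈ L'
      · exact Or.inr ⟨h1, h2⟩
      · exact absurd (iff_of_false h1 h2) hne
  rw [hcon] at this
  exact this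

open Classical in
lemma strict_mono_sum {k : ℕ} (c : (Fin k → ℤ) → ℝ) (hc : Summable c)
    (hneg : ∀ v, v ≠ 0 → c v < 0) (L L' : AddSubgroup (Fin k → ℤ)) (hle : L ≤ L') (hne : L ≠ L') :
    ∑' v, (if v ∈ L' then c v else 0) < ∑' v, (if v ∈ L then c v else 0) := by
  have hs : ∀ M : AddSubgroup (Fin k → ℤ), Summable (fun v => if v ∈ M then c v else 0) := by
    intro M
    apply Summable.of_norm_bounded hc.norm
    intro v
    split_ifs
    · exact le_rfl
    · rw [norm_zero]; exact norm_nonneg _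
  obtain ⟨w, hw, hw'⟩ : ∃ w, w ∈ L' ∧ w ∉ L := by
    by_contra hcon
    push Not at hcon
    exact hne (le_antisymm hle hcon)
  have hnz : ∀ v, v ∉ L → v ≠ 0 := by
    rintro v hv rfl
    exact hv L.zero_mem
  apply Summable.tsum_lt_tsum (i := w) _ _ (hs L') (hs L)
  · intro v
    by_cases h1 : v ∈ L
    · simp [h1, hle h1]
    · by_cases h2 : v ∈ L'
      · simp only [h1, h2, if_true, if_false]
        exact (hneg v (hnz v h1)).le
      · simp [h1, h2]
  · simp only [hw, hw', if_true, if_false]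
    exact hneg w (hnz w hw')

lemma dimension_eq {k : ℕ} (F : MvPolynomial (Fin k) ℤ) (c : (Fin k → ℤ) → ℝ)
    (hneg : ∀ v, v ≠ 0 → c v < 0)
    (hF : ∀ θ : Fin k → ℝ, (MvPolynomial.aeval (fun j => ee (θ j)) F : ℂ) ≠ 0 ∧
      HasSum (fun v => c v * Real.cos (2 * Real.pi * ∑ j, (v j : ℝ) * θ j))
        (Real.log ‖(MvPolynomial.aeval (fun j => ee (θ j)) F : ℂ)‖)) :
    dimension F = k := by
  classical
  unfold dimension
  set S : Set (Fin k → ℝ) := (fun (m : Fin k →₀ ℕ) (i : Fin k) => ((m i : ℕ) : ℝ)) ''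
    (F.support : Set (Fin k →₀ ℕ)) with hS
  have htop : vectorSpan ℝ (convexHull ℝ S) = ⊤ := by
    by_contra hne
    obtain ⟨f, hf0, hf⟩ := Submodule.exists_le_ker_of_lt_top _ (lt_top_iff_ne_top.mpr hne)
    have hFne : F ≠ 0 := by
      rintro rfl
      exact (hF 0).1 (map_zero _)
    obtain ⟨m0, hm0⟩ := MvPolynomial.support_nonempty.mpr hFne
    set lam : Fin k → ℝ := fun i => f (Pi.single i 1) with hlam
    have hfx : ∀ x : Fin k → ℝ, f x = ∑ i, lam i * x i := by
      intro x
      conv_lhs => rw [← Finset.univ_sum_single x]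
      rw [map_sum]
      apply Finset.sum_congr rfl
      intro i _
      have : (Pi.single i (x i) : Fin k → ℝ) = x i • (Pi.single i 1 : Fin k → ℝ) := by
        rw [← Pi.single_smul]
        simp
      rw [this, map_smul, smul_eq_mul, mul_comm]
    have hconst : ∀ m ∈ F.support, ∑ i, lam i * ((m i : ℕ) : ℝ) = ∑ i, lam i * ((m0 i : ℕ) : ℝ) := by
      intro m hm
      have h1 : (fun i => ((m i : ℕ) : ℝ)) ∈ convexHull ℝ S :=
        subset_convexHull ℝ S ⟨m, hm, rfl⟩
      have h2 : (fun i => ((m0 i : ℕ) : ℝ)) ∈ convexHull ℝ S :=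
        subset_convexHull ℝ S ⟨m0, hm0, rfl⟩
      have h3 := hf (vsub_mem_vectorSpan ℝ h1 h2)
      rw [LinearMap.mem_ker, vsub_eq_sub, map_sub, hfx, hfx, sub_eq_zero] at h3
      exact h3
    obtain ⟨i, hi⟩ : ∃ i, lam i ≠ 0 := by
      by_contra hcon
      push Not at hcon
      apply hf0
      apply LinearMap.ext
      intro x
      rw [hfx]
      simp [hcon]
    set cst : ℝ := ∑ i, lam i * ((m0 i : ℕ) : ℝ) with hcst
    have heval : ∀ t : ℝ, (MvPolynomial.aeval (fun j => ee (t * lam j)) F : ℂ) =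
        ee (t * cst) * (MvPolynomial.aeval (fun j => ee ((0 : Fin k → ℝ) j)) F : ℂ) := by
      intro t
      rw [MvPolynomial.aeval_def, MvPolynomial.aeval_def, MvPolynomial.eval₂_eq',
        MvPolynomial.eval₂_eq', Finset.mul_sum]
      apply Finset.sum_congr rfl
      intro m hm
      have h1 : ∏ i, ee (t * lam i) ^ m i = ee (t * cst) := by
        rw [← hconst m hm, Finset.mul_sum, ee_sum]
        apply Finset.prod_congr rfl
        intro i _
        rw [← ee_natmul]
        congr 1
        ring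
      rw [h1]
      simp [ee_zero]
      ring
    set t : ℝ := 1 / (2 * lam i) with ht
    have hsum1 := (hF (fun j => t * lam j)).2
    have hsum0 := (hF 0).2
    rw [heval t, norm_mul, norm_ee, one_mul] at hsum1
    have hdiff := hsum1.sub hsum0
    rw [sub_self] at hdiff
    have hnn : ∀ v : Fin k → ℤ, 0 ≤ c v * Real.cos (2 * Real.pi * ∑ j, (v j : ℝ) * (t * lam j)) -
        c v * Real.cos (2 * Real.pi * ∑ j, (v j : ℝ) * (0 : Fin k → ℝ) j) := by
      intro v
      by_cases hv : v = 0
      · subst hv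
        simp
      · have h1 := hneg v hv
        have h2 := Real.cos_le_one (2 * Real.pi * ∑ j, (v j : ℝ) * (t * lam j))
        have h3 : Real.cos (2 * Real.pi * ∑ j, (v j : ℝ) * (0 : Fin k → ℝ) j) = 1 := by simp
        rw [h3]
        nlinarith
    have hz := (hasSum_zero_iff_of_nonneg hnn).mp hdiff
    have h4 := congrFun hz (Pi.single i 1)
    simp only [Pi.zero_apply] at h4
    have h5 : ∑ j, ((Pi.single i 1 : Fin k → ℤ) j : ℝ) * (t * lam j) = 1 / 2 := by
      rw [Finset.sum_eq_single i]
      · rw [Pi.single_eq_same, ht]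
        push_cast
        field_simp
      · intro j _ hj
        rw [Pi.single_eq_of_ne hj]
        simp
      · intro h
        exact absurd (Finset.mem_univ i) h
    have h6 : Real.cos (2 * Real.pi * (1 / 2)) = -1 := by
      rw [show 2 * Real.pi * (1 / 2) = Real.pi by ring, Real.cos_pi]
    rw [h5, h6] at h4
    have h7 : (Pi.single i 1 : Fin k → ℤ) ≠ 0 := by
      intro h
      have := congrFun h i
      simp at this
    have h8 := hneg _ h7
    simp at h4
    linarith
  rw [htop, finrank_top, Module.finrank_fin_fun]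

end Pool.Agent.DistinctMahler
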