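import Pool.Agent.DistinctMahler.KerRow

set_option autoImplicit false

namespace Pool.Agent.DistinctMahler

/-- coefficients of `log |TF|` -/
noncomputable def cTF (k N : ℕ) (P : Fin k × Fin k × SignType → ℕ) (v : Fin k → ℤ) : ℝ :=
  ∑ t ∈ SS k, cG N (ap t.1 (P t)) 1 (uu t.1 t.2.1 t.2.2) v

lemma TF_expansion (k N : ℕ) (hN : N ≠ 0) (P : Fin k × Fin k × SignType → ℕ)
    (hP : ∀ t ∈ SS k, 2 * BB (ap t.1 (P t)) (fun _ => 1) ≤ N) :
    Summable (cTF k N P) ∧ ∀ θ : Fin k → ℝ,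
    (MvPolynomial.aeval (fun j => ee (θ j)) (TF k N P) : ℂ) ≠ 0 ∧
    HasSum (fun v => cTF k N P v * Real.cos (2 * Real.pi * ∑ j, (v j : ℝ) * θ j))
      (Real.log ‖(MvPolynomial.aeval (fun j => ee (θ j)) (TF k N P) : ℂ)‖) := by
  have hG : ∀ t ∈ SS k, Summable (cG N (ap t.1 (P t)) 1 (uu t.1 t.2.1 t.2.2)) ∧
      ∀ θ : Fin k → ℝ,
      (MvPolynomial.aeval (fun j => ee (θ j)) (Tp N (P t) t.1 t.2.1 t.2.2) : ℂ) ≠ 0 ∧
      HasSum (fun v => cG N (ap t.1 (P t)) 1 (uu t.1 t.2.1 t.2.2) v *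
        Real.cos (2 * Real.pi * ∑ j, (v j : ℝ) * θ j))
        (Real.log ‖(MvPolynomial.aeval (fun j => ee (θ j)) (Tp N (P t) t.1 t.2.1 t.2.2) : ℂ)‖) := by
    intro t ht
    obtain ⟨h1, h2⟩ := (mem_SS t).mp ht
    exact Gp_expansion N hN _ (al_lt N _ (fun _ => 1) (hP t ht)) 1 _
      (RR_small N _ (fun _ => 1) (hP t ht) _ (uu_mem _ _ h1 _ h2))
  refine ⟨summable_sum (fun t ht => (hG t ht).1), ?_⟩
  intro θ
  have hne : ∀ t ∈ SS k,
      (MvPolynomial.aeval (fun j => ee (θ j)) (Tp N (P t) t.1 t.2.1 t.2.2) : ℂ) ≠ 0 :=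
    fun t ht => ((hG t ht).2 θ).1
  unfold TF
  rw [map_prod]
  refine ⟨Finset.prod_ne_zero_iff.mpr hne, ?_⟩
  rw [norm_prod, Real.log_prod (fun t ht => norm_ne_zero_iff.mpr (hne t ht))]
  unfold cTF
  simp_rw [Finset.sum_mul]
  exact hasSum_sum (fun t ht => ((hG t ht).2 θ).2)

lemma cTF_nonpos (k N : ℕ) (P : Fin k × Fin k × SignType → ℕ) (v : Fin k → ℤ) (hv : v ≠ 0) :
    cTF k N P v ≤ 0 :=
  Finset.sum_nonpos (fun _ _ => cG_nonpos _ _ _ _ _ hv)

/-- the constant for the smallness of the coefficients of `log |TF|` -/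
def XX (k : ℕ) (P : Fin k × Fin k × SignType → ℕ) : ℕ :=
  ((SS k).card + 1) * ∑ t ∈ SS k, ((k + 1) * 4 * (∑ l, ap t.1 (P t) l + 1))

lemma abs_cTF_le (k N : ℕ) (hN : 0 < N) (P : Fin k × Fin k × SignType → ℕ) (v : Fin k → ℤ)
    (hv : v ≠ 0) : |cTF k N P v| ≤ ((XX k P : ℝ) / N) ^ lenN v := by
  have hNr : (0 : ℝ) < N := by exact_mod_cast hN
  have hn1 : 1 ≤ lenN v := lenN_pos hv
  set X : ℕ := ∑ t ∈ SS k, ((k + 1) * 4 * (∑ l, ap t.1 (P t) l + 1)) with hX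
  have hterm : ∀ t ∈ SS k, |cG N (ap t.1 (P t)) 1 (uu t.1 t.2.1 t.2.2) v| ≤
      ((X : ℝ) / N) ^ lenN v := by
    intro t ht
    refine (abs_cG_le N hN _ _ v hv).trans ?_
    apply pow_le_pow_left₀ (by positivity)
    apply div_le_div_of_nonneg_right _ hNr.le
    have : (k + 1) * 4 * (∑ l, ap t.1 (P t) l + 1) ≤ X :=
      Finset.single_le_sum (f := fun t => (k + 1) * 4 * (∑ l, ap t.1 (P t) l + 1))
        (fun _ _ => Nat.zero_le _) ht
    exact_mod_cast this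
  calc |cTF k N P v| ≤ ∑ t ∈ SS k, |cG N (ap t.1 (P t)) 1 (uu t.1 t.2.1 t.2.2) v| :=
        Finset.abs_sum_le_sum_abs _ _
    _ ≤ ∑ _t ∈ SS k, ((X : ℝ) / N) ^ lenN v := Finset.sum_le_sum hterm
    _ = ((SS k).card : ℝ) * ((X : ℝ) / N) ^ lenN v := by rw [Finset.sum_const, nsmul_eq_mul]
    _ ≤ (((SS k).card : ℝ) + 1) ^ lenN v * ((X : ℝ) / N) ^ lenN v := by
        apply mul_le_mul_of_nonneg_right _ (by positivity)
        have h1 : (0 : ℝ) ≤ ((SS k).card : ℝ) := Nat.cast_nonneg _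
        calc ((SS k).card : ℝ) ≤ ((SS k).card : ℝ) + 1 := by linarith
          _ ≤ (((SS k).card : ℝ) + 1) ^ lenN v := le_self_pow₀ (by linarith) (by omega)
    _ = ((XX k P : ℝ) / N) ^ lenN v := by
        rw [← mul_pow]
        congr 1
        unfold XX
        rw [← hX]
        push_cast
        ring

lemma exists_primes (k S : ℕ) : ∃ P : Fin k × Fin k × SignType → ℕ,
    (∀ t, (P t).Prime) ∧ Function.Injective P ∧ ∀ t, S < P t := by
  refine ⟨fun t => Nat.nth Nat.Prime (S + (Fintype.equivFin _ t).val), ?_, ?_, ?_⟩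
  · intro t
    exact Nat.prime_nth_prime _
  · intro t s h
    simp only at h
    have h1 := Nat.nth_injective Nat.infinite_setOfPred_prime h
    have h2 : (Fintype.equivFin (Fin k × Fin k × SignType) t).val =
        (Fintype.equivFin (Fin k × Fin k × SignType) s).val := by omega
    exact (Fintype.equivFin _).injective (Fin.ext h2)
  · intro t
    have h1 : S + (Fintype.equivFin (Fin k × Fin k × SignType) t).val + 2 ≤
        Nat.nth Nat.Prime (S + (Fintype.equivFin (Fin k × Fin k × SignType) t).val) :=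
      Nat.add_two_le_nth_prime _
    show S < Nat.nth Nat.Prime (S + (Fintype.equivFin (Fin k × Fin k × SignType) t).val)
    omega

lemma row_ne_zero {k : ℕ} (H : Matrix (Fin 1) (Fin k) ℤ) (hH : IsSHNF H) : H 0 ≠ 0 := by
  obtain ⟨p, _, hpiv, _⟩ := hH.hnf
  intro h
  have h1 := hpiv 0
  rw [h] at h1
  simp at h1

lemma lenN_single {k : ℕ} (i : Fin k) : lenN (Pi.single i 1 : Fin k → ℤ) = 1 := by
  unfold lenN
  rw [Finset.sum_eq_single i]
  · rw [Pi.single_eq_same]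
    rfl
  · intro l _ hl
    rw [Pi.single_eq_of_ne hl]
    rfl
  · intro h
    exact absurd (Finset.mem_univ i) h

lemma sum_single {k : ℕ} (r : Fin k → ℤ) (i : Fin k) :
    ∑ l, r l * (Pi.single i 1 : Fin k → ℤ) l = r i := by
  rw [Finset.sum_eq_single i]
  · rw [Pi.single_eq_same, mul_one]
  · intro l _ hl
    rw [Pi.single_eq_of_ne hl, mul_zero]
  · intro h
    exact absurd (Finset.mem_univ i) h

open Classical in
/-- the main construction -/
theorem main2 (k : ℕ) (hk : 2 ≤ k) (η : ℝ) (hη : 0 < η) :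
    ∃ F : MvPolynomial (Fin k) ℤ,
      dimension F = k ∧
      (∀ (l : ℕ) (A : Matrix (Fin l) (Fin k) ℤ), spec F A ≠ 0) ∧
      (∀ (l l' : ℕ) (H : Matrix (Fin l) (Fin k) ℤ) (H' : Matrix (Fin l') (Fin k) ℤ),
        IsSHNF H → IsSHNF H' → mahler (spec F H) = mahler (spec F H') →
        (⟨l, H⟩ : Σ l, Matrix (Fin l) (Fin k) ℤ) ≠ ⟨l', H'⟩ →
        (1 ≤ l ∧ l + 2 ≤ k) ∧ (1 ≤ l' ∧ l' + 2 ≤ k) ∧ 3 ≤ l + l' ∧
        (∃ v, H.mulVec v = 0 ∧ H'.mulVec v ≠ 0) ∧ (∃ v, H'.mulVec v = 0 ∧ H.mulVec v ≠ 0) ∧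
        ∃ v0, v0 ≠ 0 ∧ H.mulVec v0 = 0 ∧ H'.mulVec v0 = 0 ∧
          ∀ v, (H.mulVec v = 0 ∧ H'.mulVec v ≠ 0) ∨ (H'.mulVec v = 0 ∧ H.mulVec v ≠ 0) →
            (len v0 : ℝ) < η * (len v : ℝ)) := by
  set η1 : ℝ := min η 1 with hη1
  have hη10 : 0 < η1 := lt_min hη one_pos
  have hη1η : η1 ≤ η := min_le_left _ _
  have hη11 : η1 ≤ 1 := min_le_right _ _
  obtain ⟨R, n, hn, ρ, hρ, hgap⟩ := gap_main2 k hk η1 hη10
  set N : ℕ := 2 ^ n with hN
  have hNpos : 0 < N := by positivity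
  have hal : ∀ i, al N (aa k R) i < 1 := al_lt N (aa k R) (EE k R) hn
  have hER : ∀ u ∈ UU k, (EE k R u : ℝ) * RRr (al N (aa k R)) u < 1 :=
    fun u hu => RR_small N (aa k R) (EE k R) hn u hu
  set G : MvPolynomial (Fin k) ℤ := FF N (aa k R) (EE k R) with hG
  obtain ⟨hsumG, hexpG⟩ := FF_expansion N hNpos.ne' (aa k R) hal (EE k R) hER
  rw [← hG] at hexpG
  -- the primes
  obtain ⟨P, hPp, hPinj, hPS⟩ := exists_primes k (coefSum G)
  set Pr : ℕ := ∏ t ∈ SS k, P t with hPr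
  have hSSne : (SS k).Nonempty := by
    refine ⟨(⟨0, by omega⟩, ⟨1, by omega⟩, 1), ?_⟩
    rw [mem_SS]
    refine ⟨?_, show (1 : SignType) ≠ 0 by decide⟩
    intro h
    simp at h
  have hPr2 : 2 ≤ Pr := by
    obtain ⟨t, ht⟩ := hSSne
    have h1 : P t ∣ Pr := Finset.dvd_prod_of_mem P ht
    have h2 : 0 < Pr := Finset.prod_pos (fun t _ => (hPp t).pos)
    exact (hPp t).two_le.trans (Nat.le_of_dvd h2 h1)
  set M0 : ℕ := ∑ t ∈ SS k, (2 * BB (ap t.1 (P t)) (fun _ => 1) + P t + 2) +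
    ⌈(XX k P : ℝ) / ρ⌉₊ + 1 with hM0
  set N' : ℕ := Pr ^ M0 with hN'
  have hN'M : M0 ≤ N' := by
    calc M0 ≤ 2 ^ M0 := (Nat.lt_two_pow_self).le
      _ ≤ Pr ^ M0 := Nat.pow_le_pow_left hPr2 _
  have hN'pos : 0 < N' := by omega
  have hterm : ∀ t ∈ SS k, 2 * BB (ap t.1 (P t)) (fun _ => 1) + P t + 2 ≤ N' := by
    intro t ht
    have h1 : 2 * BB (ap t.1 (P t)) (fun _ => 1) + P t + 2 ≤
        ∑ t ∈ SS k, (2 * BB (ap t.1 (P t)) (fun _ => 1) + P t + 2) :=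
      Finset.single_le_sum (f := fun t => 2 * BB (ap t.1 (P t)) (fun _ => 1) + P t + 2)
        (fun _ _ => Nat.zero_le _) ht
    omega
  have hBBt : ∀ t ∈ SS k, 2 * BB (ap t.1 (P t)) (fun _ => 1) ≤ N' := by
    intro t ht
    have := hterm t ht
    omega
  have hPd : ∀ t ∈ SS k, P t ∣ N' := by
    intro t ht
    exact (Finset.dvd_prod_of_mem P ht).trans (dvd_pow_self _ (by omega))
  have hPt : ∀ t ∈ SS k, 0 < P t ∧ P t + 1 < N' ∧ ∀ l, al N' (ap t.1 (P t)) l < 1 := by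
    intro t ht
    refine ⟨(hPp t).pos, ?_, al_lt N' _ (fun _ => 1) (hBBt t ht)⟩
    have := hterm t ht
    omega
  obtain ⟨hsumT, hexpT⟩ := TF_expansion k N' hN'pos.ne' P hBBt
  have hsmall : ∀ v, v ≠ 0 → |cTF k N' P v| ≤ ρ ^ lenN v := by
    intro v hv
    refine (abs_cTF_le k N' hN'pos P v hv).trans ?_
    apply pow_le_pow_left₀ (by positivity)
    have hNr : (0 : ℝ) < N' := by exact_mod_cast hN'pos
    rw [div_le_iff₀ hNr]
    have h1 : (XX k P : ℝ) / ρ ≤ N' := by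
      refine (Nat.le_ceil _).trans ?_
      have : ⌈(XX k P : ℝ) / ρ⌉₊ ≤ N' := by omega
      exact_mod_cast this
    rw [div_le_iff₀ hρ] at h1
    linarith
  set F : MvPolynomial (Fin k) ℤ := G * TF k N' P with hF
  set c : (Fin k → ℤ) → ℝ := fun v => cc N (aa k R) (EE k R) v + cTF k N' P v with hc
  have hsum : Summable c := hsumG.add hsumT
  have hexp : ∀ θ : Fin k → ℝ, (MvPolynomial.aeval (fun j => ee (θ j)) F : ℂ) ≠ 0 ∧
      HasSum (fun v => c v * Real.cos (2 * Real.pi * ∑ j, (v j : ℝ) * θ j))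
        (Real.log ‖(MvPolynomial.aeval (fun j => ee (θ j)) F : ℂ)‖) := by
    intro θ
    rw [hF, map_mul]
    refine ⟨mul_ne_zero (hexpG θ).1 (hexpT θ).1, ?_⟩
    rw [norm_mul, Real.log_mul (norm_ne_zero_iff.mpr (hexpG θ).1)
      (norm_ne_zero_iff.mpr (hexpT θ).1)]
    simp_rw [hc, add_mul]
    exact (hexpG θ).2.add (hexpT θ).2
  have hneg : ∀ v, v ≠ 0 → c v < 0 := by
    intro v hv
    have h1 := cc_neg hk N hNpos (aa k R) (aa_pos k R) (EE k R) (EE_pos k R) v hv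
    have h2 := cTF_nonpos k N' P v hv
    rw [hc]
    simp only
    linarith
  have hmah : ∀ (l : ℕ) (A : Matrix (Fin l) (Fin k) ℤ),
      mahler (spec F A) = ∑' v, if v ∈ kerL A then c v else 0 := by
    intro l A
    rw [mahler_spec_eq _ c hsum (fun θ => (hexp θ).2.tsum_eq.symm)]
    apply tsum_congr
    intro v
    by_cases h : A.mulVec v = 0
    · rw [if_pos h, if_pos (show v ∈ kerL A from h)]
    · rw [if_neg h, if_neg (show v ∉ kerL A from h)]
  refine ⟨F, dimension_eq F c hneg hexp, ?_, ?_⟩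
  · intro l A h0
    have h1 := torusEval_spec F A 0
    rw [h0] at h1
    have h2 : torusEval (0 : Laurent l) 0 = 0 := by simp [torusEval]
    rw [h2] at h1
    exact (hexp _).1 h1.symm
  · intro l l' H H' hH hH' heq hne
    have heq0 := heq
    rw [hmah, hmah] at heq
    have hker : kerL H ≠ kerL H' := fun h => hne (eq_of_kerL_eq H H' hH hH' h)
    have hcol1 : ∃ v, H.mulVec v = 0 ∧ H'.mulVec v ≠ 0 := by
      by_contra hcon
      push Not at hcon
      have hle : kerL H ≤ kerL H' := fun v hv => hcon v hv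
      have := strict_mono_sum _ hsum hneg (kerL H) (kerL H') hle hker
      exact this.ne' heq
    have hcol2 : ∃ v, H'.mulVec v = 0 ∧ H.mulVec v ≠ 0 := by
      by_contra hcon
      push Not at hcon
      have hle : kerL H' ≤ kerL H := fun v hv => hcon v hv
      have := strict_mono_sum _ hsum hneg (kerL H') (kerL H) hle hker.symm
      exact this.ne heq
    have hgapHH' : ¬ ∀ v0, v0 ∈ kerL H → v0 ∈ kerL H' → v0 ≠ 0 →
        ∃ v ∈ TT (kerL H) (kerL H'), η1 * lenN v ≤ lenN v0 := by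
      intro hcond
      exact hgap (cTF k N' P) hsumT hsmall hsumG (kerL H) (kerL H') (sat_kerL H) (sat_kerL H')
        hcond (TT_nonempty_of_ne _ _ hker) heq
    have hcol3 : ∃ v0, v0 ≠ 0 ∧ H.mulVec v0 = 0 ∧ H'.mulVec v0 = 0 ∧
          ∀ v, (H.mulVec v = 0 ∧ H'.mulVec v ≠ 0) ∨ (H'.mulVec v = 0 ∧ H.mulVec v ≠ 0) →
            (len v0 : ℝ) < η * (len v : ℝ) := by
      by_contra hcon
      push Not at hcon
      apply hgapHH'
      intro v0 h1 h2 h3
      obtain ⟨v, hv, hv2⟩ := hcon v0 h3 h1 h2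
      refine ⟨v, ?_, ?_⟩
      · rcases hv with ⟨h4, h5⟩ | ⟨h4, h5⟩
        · exact Or.inl ⟨h4, h5⟩
        · exact Or.inr ⟨h5, h4⟩
      · rw [len_eq_lenN, len_eq_lenN] at hv2
        push_cast at hv2
        have h6 : (0 : ℝ) ≤ lenN v := Nat.cast_nonneg _
        nlinarith
    -- the ranks
    have hl0 : ∀ (m : ℕ) (K : Matrix (Fin m) (Fin k) ℤ) (v : Fin k → ℤ), K.mulVec v ≠ 0 → 1 ≤ m := by
      intro m K v hv
      rcases Nat.eq_zero_or_pos m with h | h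
      · subst h
        exfalso
        apply hv
        funext i
        exact i.elim0
      · exact h
    have hrk : ∀ (m m' : ℕ) (K : Matrix (Fin m) (Fin k) ℤ) (K' : Matrix (Fin m') (Fin k) ℤ),
        IsSHNF K → (∃ v, K.mulVec v = 0 ∧ K'.mulVec v ≠ 0) →
        (∃ v0, v0 ≠ 0 ∧ K.mulVec v0 = 0 ∧ K'.mulVec v0 = 0) → m + 2 ≤ k := by
      intro m m' K K' hK ⟨v, hv, hv'⟩ ⟨v0, h0, h1, h2⟩
      by_contra hcon
      obtain ⟨a, b, ha, hab⟩ := ker_prop K hK (by omega) v v0 hv h1 h0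
      apply hv'
      have h3 : a • v ∈ kerL K' := by
        rw [hab]
        exact (kerL K').zsmul_mem h2 b
      exact sat_kerL K' a v ha h3
    obtain ⟨v0, hv0, hv01, hv02, hv03⟩ := hcol3
    obtain ⟨w1, hw1, hw1'⟩ := hcol1
    obtain ⟨w2, hw2, hw2'⟩ := hcol2
    have hL1 : 1 ≤ l := hl0 l H w2 hw2'
    have hL1' : 1 ≤ l' := hl0 l' H' w1 hw1'
    have hL2 : l + 2 ≤ k := hrk l l' H H' hH ⟨w1, hw1, hw1'⟩ ⟨v0, hv0, hv01, hv02⟩
    have hL2' : l' + 2 ≤ k := hrk l' l H' H hH' ⟨w2, hw2, hw2'⟩ ⟨v0, hv0, hv02, hv01⟩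
    refine ⟨⟨hL1, hL2⟩, ⟨hL1', hL2'⟩, ?_, ⟨w1, hw1, hw1'⟩, ⟨w2, hw2, hw2'⟩,
      ⟨v0, hv0, hv01, hv02, hv03⟩⟩
    -- rank one against rank one
    by_contra hcon
    have hle1 : l = 1 := by omega
    have hle1' : l' = 1 := by omega
    subst hle1 hle1'
    obtain ⟨QG, Q, hQG0, hQG1, hQ, htot, hma⟩ := total_spec G N' hN'pos.ne' P hPt H (hexpG _).1
    obtain ⟨QG', Q', hQG0', hQG1', hQ', htot', hma'⟩ :=
      total_spec G N' hN'pos.ne' P hPt H' (hexpG _).1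
    rw [← hF] at hma hma'
    rw [hma, hma'] at heq0
    have hmpos : ∀ Q : Polynomial ℤ, Q ≠ 0 → 0 < ‖mu (toC Q)‖ := by
      intro Q hQ
      rw [norm_mu]
      exact Polynomial.mahlerMeasure_pos_of_ne_zero (toC_ne_zero hQ)
    have hnorm : ‖mu (toC (tot N' QG Q))‖ = ‖mu (toC (tot N' QG' Q'))‖ :=
      Real.log_injOn_pos (Set.mem_Ioi.mpr (hmpos _ htot)) (Set.mem_Ioi.mpr (hmpos _ htot')) heq0
    have hpm := mu_eq_or_neg _ _ hnorm
    have hdec : ∀ s ∈ SS k, (ex1 s (H 0) * ex2 s (H 0) < 0 ↔ ex1 s (H' 0) * ex2 s (H' 0) < 0) ∧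
        (ex1 s (H 0) * ex2 s (H 0) < 0 → (ex2 s (H 0)).natAbs * (ex1 s (H' 0)).natAbs =
          (ex2 s (H' 0)).natAbs * (ex1 s (H 0)).natAbs) := by
      intro s hs
      obtain ⟨B, hB⟩ := exists_val (P s) (hPp s)
      have hv := val_tot (coefSum G) N' hN'pos.ne' P (fun t _ => hPp t)
        (fun t _ s _ h => hPinj h) (fun t _ => hPS t) hPd (H 0) QG Q hQG0 hQG1 hQ s hs B hB
      have hv' := val_tot (coefSum G) N' hN'pos.ne' P (fun t _ => hPp t)
        (fun t _ s _ h => hPinj h) (fun t _ => hPS t) hPd (H' 0) QG' Q' hQG0' hQG1' hQ' s hs B hB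
      have hveq : B.valuation (mu (toC (tot N' QG' Q'))) =
          B.valuation (mu (toC (tot N' QG Q))) := by
        rcases hpm with h | h
        · rw [h]
        · rw [h, Valuation.map_neg]
      rw [hveq] at hv'
      exact decode_one B (B.valuation (P s : ℂ))
        (val_ne_zero B (by exact_mod_cast (hPp s).ne_zero)) hB s (H 0) (H' 0) _
        hv.1 hv.2 hv'.1 hv'.2
    have hkerrow : ∀ (K : Matrix (Fin 1) (Fin k) ℤ) (v : Fin k → ℤ),
        v ∈ kerL K ↔ ∑ j, K 0 j * v j = 0 := by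
      intro K v
      rw [mem_kerL']
      exact ⟨fun h => h 0, fun h i => by rw [Subsingleton.elim i 0]; exact h⟩
    rcases ker_of_decode (H 0) (H' 0) (row_ne_zero H hH) (row_ne_zero H' hH') hdec with h | h
    · apply hker
      ext v
      rw [hkerrow, hkerrow]
      exact h v
    · obtain ⟨i, j, hij, hi, hi0, hj, hj0⟩ := h
      apply hgapHH'
      intro w h1 h2 h3
      refine ⟨Pi.single i 1, ?_, ?_⟩
      · right
        constructor
        · rw [hkerrow, sum_single]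
          exact hi
        · rw [hkerrow, sum_single]
          exact hj0 i hij
      · rw [lenN_single]
        have h4 : 1 ≤ lenN w := lenN_pos h3
        have h5 : (1 : ℝ) ≤ lenN w := by exact_mod_cast h4
        push_cast
        linarith

end Pool.Agent.DistinctMahler
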