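import Pool.Agent.DistinctMahler.Pack

set_option autoImplicit false

namespace Pool.Agent.DistinctMahler

lemma summable_half_int : Summable (fun m : ℤ => (1 / 2 : ℝ) ^ m.natAbs) := by
  apply Summable.of_nat_of_neg
  · simpa using summable_geometric_two
  · simpa using summable_geometric_two

lemma summable_half (k : ℕ) : Summable (fun v : Fin k → ℤ => (1 / 2 : ℝ) ^ lenN v) := by
  have h := (hasSum_pi_prod (k := k) (fun _ m => ((1 / 2 : ℝ) : ℂ) ^ m.natAbs) (by
    intro i
    refine summable_half_int.congr ?_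
    intro m
    rw [norm_pow, Complex.norm_real]
    norm_num)).1
  refine h.congr ?_
  intro v
  rw [Finset.prod_pow_eq_pow_sum, norm_pow, Complex.norm_real]
  unfold lenN
  norm_num

/-- the constant `C` -/
noncomputable def CC (k : ℕ) : ℝ := ∑' v : Fin k → ℤ, (1 / 2 : ℝ) ^ lenN v

lemma one_le_CC (k : ℕ) : 1 ≤ CC k := by
  have h := (summable_half k).le_tsum (0 : Fin k → ℤ) (fun v _ => by positivity)
  unfold CC
  simpa [lenN_zero] using h

open Classical in
/-- difference of the two indicator functions -/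
noncomputable def eps {k : ℕ} (L L' : AddSubgroup (Fin k → ℤ)) (v : Fin k → ℤ) : ℤ :=
  (if v ∈ L then 1 else 0) - (if v ∈ L' then 1 else 0)

/-- the symmetric difference -/
def TT {k : ℕ} (L L' : AddSubgroup (Fin k → ℤ)) : Set (Fin k → ℤ) :=
  {v | (v ∈ L ∧ v ∉ L') ∨ (v ∉ L ∧ v ∈ L')}

lemma eps_of_mem {k : ℕ} {L L' : AddSubgroup (Fin k → ℤ)} {v : Fin k → ℤ} (h : v ∈ TT L L') :
    eps L L' v = 1 ∨ eps L L' v = -1 := by
  unfold eps
  rcases h with ⟨h1, h2⟩ | ⟨h1, h2⟩
  · left; simp [h1, h2]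
  · right; simp [h1, h2]

lemma eps_of_not_mem {k : ℕ} {L L' : AddSubgroup (Fin k → ℤ)} {v : Fin k → ℤ}
    (h : v ∉ TT L L') : eps L L' v = 0 := by
  unfold eps
  by_cases h1 : v ∈ L
  · by_cases h2 : v ∈ L'
    · simp [h1, h2]
    · exact absurd (Or.inl ⟨h1, h2⟩) h
  · by_cases h2 : v ∈ L'
    · exact absurd (Or.inr ⟨h1, h2⟩) h
    · simp [h1, h2]

lemma abs_eps_le {k : ℕ} (L L' : AddSubgroup (Fin k → ℤ)) (v : Fin k → ℤ) :
    |(eps L L' v : ℝ)| ≤ 1 := by
  unfold eps
  split_ifs <;> norm_num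

lemma ne_zero_of_TT {k : ℕ} {L L' : AddSubgroup (Fin k → ℤ)} {v : Fin k → ℤ}
    (h : v ∈ TT L L') : v ≠ 0 := by
  rintro rfl
  rcases h with ⟨_, h2⟩ | ⟨h1, _⟩
  · exact h2 L'.zero_mem
  · exact h1 L.zero_mem

open Classical in
lemma tail_bound {k : ℕ} (L L' : AddSubgroup (Fin k → ℤ)) (c : (Fin k → ℤ) → ℝ) (hc : Summable c)
    (heq : ∑' v, (if v ∈ L then c v else 0) = ∑' v, (if v ∈ L' then c v else 0))
    (q : ℝ) (hq0 : 0 < q) (hq1 : 2 * q ≤ 1) (hcq : ∀ v, v ≠ 0 → |c v| ≤ q ^ lenN v)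
    (T0 : Finset (Fin k → ℤ)) (z : ℝ)
    (hz : ∀ v ∈ TT L L', v ∉ T0 → z < lenN v) :
    |∑ v ∈ T0, (eps L L' v : ℝ) * c v| ≤ CC k * (2 * q) ^ z := by
  have hs1 : Summable (fun v => if v ∈ L then c v else 0) := by
    apply Summable.of_norm_bounded hc.norm
    intro v
    split_ifs
    · exact le_rfl
    · rw [norm_zero]; exact norm_nonneg _
  have hs2 : Summable (fun v => if v ∈ L' then c v else 0) := by
    apply Summable.of_norm_bounded hc.norm
    intro v
    split_ifs
    · exact le_rfl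
    · rw [norm_zero]; exact norm_nonneg _
  have h0 : ∑' v, (eps L L' v : ℝ) * c v = 0 := by
    have h1 := hs1.tsum_sub hs2
    rw [heq, sub_self] at h1
    rw [← h1]
    apply tsum_congr
    intro v
    unfold eps
    split_ifs <;> push_cast <;> ring
  have hsf : Summable (fun v => (eps L L' v : ℝ) * c v) := by
    apply Summable.of_norm_bounded hc.norm
    intro v
    rw [norm_mul]
    calc ‖(eps L L' v : ℝ)‖ * ‖c v‖ ≤ 1 * ‖c v‖ :=
          mul_le_mul_of_nonneg_right (abs_eps_le L L' v) (norm_nonneg _)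
      _ = ‖c v‖ := one_mul _
  have hsg : Summable (fun v => if v ∈ T0 then (eps L L' v : ℝ) * c v else 0) :=
    summable_of_ne_finset_zero (s := T0) (by
      intro v hv
      rw [if_neg hv])
  have hsh : Summable (fun v => if v ∈ T0 then 0 else (eps L L' v : ℝ) * c v) := by
    apply Summable.of_norm_bounded hsf.norm
    intro v
    split_ifs
    · rw [norm_zero]; exact norm_nonneg _
    · exact le_rfl
  have h2 : ∑' v, (eps L L' v : ℝ) * c v =
      ∑' v, (if v ∈ T0 then (eps L L' v : ℝ) * c v else 0) +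
      ∑' v, (if v ∈ T0 then 0 else (eps L L' v : ℝ) * c v) := by
    rw [← hsg.tsum_add hsh]
    apply tsum_congr
    intro v
    split_ifs <;> simp
  have h3 : ∑' v, (if v ∈ T0 then (eps L L' v : ℝ) * c v else 0) =
      ∑ v ∈ T0, (eps L L' v : ℝ) * c v := by
    rw [tsum_eq_sum (s := T0) (by
      intro v hv
      rw [if_neg hv])]
    apply Finset.sum_congr rfl
    intro v hv
    rw [if_pos hv]
  rw [h0, h3] at h2
  have h4 : |∑ v ∈ T0, (eps L L' v : ℝ) * c v| =
      |∑' v, (if v ∈ T0 then 0 else (eps L L' v : ℝ) * c v)| := by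
    rw [eq_neg_of_add_eq_zero_left h2.symm, abs_neg]
  rw [h4]
  have h5 : ∀ v, ‖(if v ∈ T0 then 0 else (eps L L' v : ℝ) * c v)‖ ≤
      (2 * q) ^ z * (1 / 2 : ℝ) ^ lenN v := by
    intro v
    have hnn : 0 ≤ (2 * q) ^ z * (1 / 2 : ℝ) ^ lenN v := by positivity
    split_ifs with h
    · rw [norm_zero]; exact hnn
    · by_cases hT : v ∈ TT L L'
      · have hlen := hz v hT h
        have hv0 := ne_zero_of_TT hT
        rw [norm_mul]
        calc ‖(eps L L' v : ℝ)‖ * ‖c v‖ ≤ 1 * q ^ lenN v :=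
              mul_le_mul (abs_eps_le L L' v) (hcq v hv0) (norm_nonneg _) zero_le_one
          _ = (2 * q) ^ ((lenN v : ℕ) : ℝ) * (1 / 2 : ℝ) ^ lenN v := by
              rw [Real.rpow_natCast, ← mul_pow, one_mul]
              congr 1
              ring
          _ ≤ (2 * q) ^ z * (1 / 2 : ℝ) ^ lenN v := by
              apply mul_le_mul_of_nonneg_right _ (by positivity)
              exact Real.rpow_le_rpow_of_exponent_ge (by positivity) hq1 hlen.le
      · rw [eps_of_not_mem hT]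
        simpa using hnn
  have h6 := tsum_of_norm_bounded (((summable_half k).mul_left ((2 * q) ^ z)).hasSum) h5
  rw [Real.norm_eq_abs, tsum_mul_left] at h6
  unfold CC
  rw [mul_comm (∑' v : Fin k → ℤ, (1 / 2 : ℝ) ^ lenN v)]
  exact h6

end Pool.Agent.DistinctMahler
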