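import Pool.Agent.DistinctMahler.AxisLow

set_option autoImplicit false

namespace Pool.Agent.DistinctMahler

lemma final_ineq (C : ℝ) (hC : 1 ≤ C) (K : ℕ) (θ : ℝ) (B N : ℝ) (hB : 0 < B) (hN : 0 < N)
    (hX : C * Real.exp K * (2 * B) ^ θ * N ^ (1 - θ) < 1) (y : ℝ) (hy : 1 ≤ y) :
    N ^ y * y ^ K * (C * (2 * (B / N)) ^ (θ * y)) < 1 := by
  have hy0 : 0 < y := by linarith
  have hC0 : 0 < C := by linarith
  set X : ℝ := C * Real.exp K * (2 * B) ^ θ * N ^ (1 - θ) with hXdef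
  have hX0 : 0 < X := by positivity
  have h1 : X ^ y = C ^ y * (Real.exp K) ^ y * ((2 * B) ^ (θ * y)) * (N ^ ((1 - θ) * y)) := by
    rw [hXdef, Real.mul_rpow (by positivity) (by positivity), Real.mul_rpow (by positivity)
      (by positivity), Real.mul_rpow (by positivity) (by positivity), ← Real.rpow_mul (by positivity),
      ← Real.rpow_mul hN.le]
  have h2 : C ≤ C ^ y := by
    calc C = C ^ (1 : ℝ) := (Real.rpow_one C).symm
      _ ≤ C ^ y := Real.rpow_le_rpow_of_exponent_le hC hy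
  have h3 : y ^ K ≤ (Real.exp K) ^ y := by
    have h4 : y ≤ Real.exp y := by linarith [Real.add_one_le_exp y]
    calc y ^ K ≤ (Real.exp y) ^ K := pow_le_pow_left₀ hy0.le h4 K
      _ = (Real.exp K) ^ y := by
        rw [← Real.exp_nat_mul, ← Real.exp_mul]
  have h5 : N ^ y * (2 * (B / N)) ^ (θ * y) = (2 * B) ^ (θ * y) * N ^ ((1 - θ) * y) := by
    have h6 : 2 * (B / N) = (2 * B) / N := by ring
    rw [h6, Real.div_rpow (by positivity) hN.le]
    have h7 : (1 - θ) * y = y - θ * y := by ring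
    rw [h7, Real.rpow_sub hN]
    ring
  calc N ^ y * y ^ K * (C * (2 * (B / N)) ^ (θ * y))
      = C * y ^ K * (N ^ y * (2 * (B / N)) ^ (θ * y)) := by ring
    _ = C * y ^ K * ((2 * B) ^ (θ * y) * N ^ ((1 - θ) * y)) := by rw [h5]
    _ ≤ C ^ y * (Real.exp K) ^ y * ((2 * B) ^ (θ * y) * N ^ ((1 - θ) * y)) := by
        apply mul_le_mul_of_nonneg_right _ (by positivity)
        exact mul_le_mul h2 h3 (by positivity) (by positivity)
    _ = X ^ y := by rw [h1]; ring
    _ < 1 := Real.rpow_lt_one hX0.le hX hy0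

lemma exists_large (θ : ℝ) (hθ : 1 < θ) (Y : ℝ) (hY : 0 < Y) (M : ℕ) :
    ∃ n : ℕ, M ≤ 2 ^ n ∧ Y * ((2 ^ n : ℕ) : ℝ) ^ (1 - θ) < 1 := by
  -- (2^n)^(1-θ) = (2^(1-θ))^n → 0
  have hb0 : 0 < (2 : ℝ) ^ (1 - θ) := by positivity
  have hb1 : (2 : ℝ) ^ (1 - θ) < 1 := Real.rpow_lt_one_of_one_lt_of_neg (by norm_num) (by linarith)
  obtain ⟨n, hn⟩ := exists_pow_lt_of_lt_one (show (0 : ℝ) < 1 / Y by positivity) hb1
  refine ⟨max n M, ?_, ?_⟩
  · exact (Nat.lt_two_pow_self).le.trans (Nat.pow_le_pow_right (by norm_num) (le_max_right _ _))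
  · have h1 : ((2 ^ (max n M) : ℕ) : ℝ) ^ (1 - θ) = ((2 : ℝ) ^ (1 - θ)) ^ (max n M) := by
      push_cast
      rw [← Real.rpow_natCast, ← Real.rpow_natCast, ← Real.rpow_mul (by norm_num),
        ← Real.rpow_mul (by norm_num), mul_comm]
    rw [h1]
    have h2 : ((2 : ℝ) ^ (1 - θ)) ^ (max n M) ≤ ((2 : ℝ) ^ (1 - θ)) ^ n :=
      pow_le_pow_of_le_one hb0.le hb1.le (le_max_left _ _)
    have h3 : ((2 : ℝ) ^ (1 - θ)) ^ (max n M) < 1 / Y := lt_of_le_of_lt h2 hn
    calc Y * ((2 : ℝ) ^ (1 - θ)) ^ (max n M) < Y * (1 / Y) := mul_lt_mul_of_pos_left h3 hY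
      _ = 1 := by field_simp

/-- saturated subgroups -/
def Sat {k : ℕ} (L : AddSubgroup (Fin k → ℤ)) : Prop :=
  ∀ (m : ℤ) (v : Fin k → ℤ), m ≠ 0 → m • v ∈ L → v ∈ L

lemma supc_of_TT {k : ℕ} (L L' : AddSubgroup (Fin k → ℤ)) (hL : Sat L) (hL' : Sat L')
    (hno : ∀ v ∈ TT L L', 2 ≤ lenN v) (v : Fin k → ℤ) (hv : v ∈ TT L L') : 2 ≤ supc v := by
  by_contra hcon
  push Not at hcon
  have hv0 := ne_zero_of_TT hv
  obtain ⟨i, hi, hvi⟩ := eq_single_of_supc v hv0 hcon
  set e : Fin k → ℤ := Pi.single i 1 with he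
  have hve : v = (v i) • e := by
    rw [he, ← Pi.single_smul]
    simpa using hvi
  have hlen : lenN e = 1 := by
    unfold lenN
    rw [Finset.sum_eq_single i]
    · rw [he, Pi.single_eq_same]
      rfl
    · intro l _ hl
      rw [he, Pi.single_eq_of_ne hl]
      rfl
    · intro h
      exact absurd (Finset.mem_univ i) h
  have heT : e ∈ TT L L' := by
    rcases hv with ⟨h1, h2⟩ | ⟨h1, h2⟩
    · left
      refine ⟨hL (v i) e hi (hve ▸ h1), ?_⟩
      intro h3
      apply h2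
      rw [hve]
      exact L'.zsmul_mem h3 _
    · right
      refine ⟨?_, hL' (v i) e hi (hve ▸ h2)⟩
      intro h3
      apply h1
      rw [hve]
      exact L.zsmul_mem h3 _
  have := hno e heT
  omega

open Classical in
theorem gap_main (k : ℕ) (hk : 2 ≤ k) (η : ℝ) (hη : 0 < η) :
    ∃ R n : ℕ, 2 * BB (aa k R) (EE k R) ≤ 2 ^ n ∧
      (Summable (cc (2 ^ n) (aa k R) (EE k R)) →
      ∀ L L' : AddSubgroup (Fin k → ℤ), Sat L → Sat L' →
      (∀ v0, v0 ∈ L → v0 ∈ L' → v0 ≠ 0 → ∃ v ∈ TT L L', η * lenN v ≤ lenN v0) →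
      (TT L L').Nonempty →
      ∑' v, (if v ∈ L then cc (2 ^ n) (aa k R) (EE k R) v else 0) ≠
      ∑' v, (if v ∈ L' then cc (2 ^ n) (aa k R) (EE k R) v else 0)) := by
  set η' : ℝ := min η 1 with hη'
  have hη'0 : 0 < η' := lt_min hη one_pos
  set Q : ℕ := ⌈2 * ((k : ℝ) + 1) / η'⌉₊ with hQ
  set K1 : ℕ := (2 * Q + 1) ^ k with hK1
  set K : ℕ := 2 * K1 with hK
  have hK1pos : 1 ≤ K1 := Nat.one_le_pow _ _ (by omega)
  have hKpos : 2 ≤ K := by omega
  set θ : ℝ := (2 : ℝ) ^ ((1 : ℝ) / (K + 1)) with hθ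
  have hKr : (2 : ℝ) ≤ K := by exact_mod_cast hKpos
  have hθ1 : 1 < θ := Real.one_lt_rpow (by norm_num) (by positivity)
  have hθ2 : θ < 2 := by
    calc θ < (2 : ℝ) ^ (1 : ℝ) := by
          apply Real.rpow_lt_rpow_of_exponent_lt (by norm_num)
          rw [div_lt_one (by positivity)]
          linarith
      _ = 2 := Real.rpow_one 2
  set R : ℕ := k * K ^ 2 + 2 with hR
  have hRK : k * K ^ 2 < R := by omega
  have hR2 : 2 ≤ R := by omega
  set B : ℕ := BB (aa k R) (EE k R) with hB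
  have hBpos : 0 < B := BB_pos _ _
  have hBr : (0 : ℝ) < B := by exact_mod_cast hBpos
  have hCC := one_le_CC k
  have hCC0 : 0 < CC k := by linarith
  obtain ⟨n, hn1, hn2⟩ := exists_large θ hθ1 (CC k * Real.exp K * (2 * (B : ℝ)) ^ θ)
    (by positivity) (2 * B)
  refine ⟨R, n, hn1, ?_⟩
  intro hsum L L' hL hL' hint hne heq
  set N : ℕ := 2 ^ n with hN
  have hNpos : 0 < N := by positivity
  have hNr : (0 : ℝ) < N := by exact_mod_cast hNpos
  set q : ℝ := (B : ℝ) / N with hq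
  have hq0 : 0 < q := by positivity
  have hq1 : 2 * q ≤ 1 := by
    rw [hq, ← mul_div_assoc, div_le_one hNr]
    exact_mod_cast hn1
  have hcq : ∀ v : Fin k → ℤ, v ≠ 0 → |cc N (aa k R) (EE k R) v| ≤ q ^ lenN v :=
    fun v hv => abs_cc_le N hNpos (aa k R) (EE k R) v hv
  -- the smallest length
  have hex : ∃ m : ℕ, ∃ v ∈ TT L L', lenN v = m := by
    obtain ⟨v, hv⟩ := hne
    exact ⟨lenN v, v, hv, rfl⟩
  set s : ℕ := Nat.find hex with hs
  obtain ⟨vs, hvs, hvs'⟩ := Nat.find_spec hex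
  rw [← hs] at hvs'
  have hmin : ∀ v ∈ TT L L', s ≤ lenN v := fun v hv => Nat.find_min' hex ⟨v, hv, rfl⟩
  have hs1 : 1 ≤ s := by
    rw [← hvs']
    exact lenN_pos (ne_zero_of_TT hvs)
  have hsr : (1 : ℝ) ≤ s := by exact_mod_cast hs1
  rcases Nat.lt_or_ge s 2 with hs2 | hs2
  · -- axis case
    have hs1' : s = 1 := by omega
    have hlow := lower_axis hk R n hR2 L L' ⟨vs, hvs, by rw [hvs', hs1']⟩
    have htail := tail_bound L L' (cc N (aa k R) (EE k R)) hsum heq q hq0 hq1 hcq (axisSet k) θ (by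
      intro v hv hv'
      have h1 : 1 ≤ lenN v := lenN_pos (ne_zero_of_TT hv)
      have h2 : lenN v ≠ 1 := fun h => hv' (mem_axisSet_of_lenN v h)
      have h3 : 2 ≤ lenN v := by omega
      have h4 : (2 : ℝ) ≤ lenN v := by exact_mod_cast h3
      linarith)
    have hfin := final_ineq (CC k) hCC K θ B N hBr hNr hn2 1 le_rfl
    rw [Real.rpow_one, one_pow, mul_one, mul_one] at hfin
    have h5 : (1 : ℝ) ≤ (N : ℝ) * (CC k * (2 * q) ^ θ) :=
      hlow.trans (mul_le_mul_of_nonneg_left htail hNr.le)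
    rw [hq] at h5
    linarith
  · -- general case
    have hLmin : ∀ v ∈ L, v ≠ 0 → η' * s ≤ lenN v := by
      intro v hv hv0
      by_cases hv' : v ∈ L'
      · obtain ⟨w, hw, hw2⟩ := hint v hv hv' hv0
        have h1 : (s : ℝ) ≤ lenN w := by exact_mod_cast hmin w hw
        have h2 : η' ≤ η := min_le_left _ _
        have h3 : η' * s ≤ η * lenN w := mul_le_mul h2 h1 (by positivity) hη.le
        linarith
      · have h1 : (s : ℝ) ≤ lenN v := by exact_mod_cast hmin v (Or.inl ⟨hv, hv'⟩)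
        have h2 : η' ≤ 1 := min_le_right _ _
        nlinarith
    have hLmin' : ∀ v ∈ L', v ≠ 0 → η' * s ≤ lenN v := by
      intro v hv' hv0
      by_cases hv : v ∈ L
      · exact hLmin v hv hv0
      · have h1 : (s : ℝ) ≤ lenN v := by exact_mod_cast hmin v (Or.inr ⟨hv, hv'⟩)
        have h2 : η' ≤ 1 := min_le_right _ _
        nlinarith
    have hδ : 0 < η' * s := by positivity
    have hQle : 2 * (s : ℝ) * (k + 1) / (η' * s) ≤ Q := by
      have h1 : 2 * (s : ℝ) * (k + 1) / (η' * s) = 2 * ((k : ℝ) + 1) / η' := by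
        have : (s : ℝ) ≠ 0 := by positivity
        field_simp
      rw [h1]
      exact Nat.le_ceil _
    have hcard : ∀ F : Finset (Fin k → ℤ),
        (∀ v ∈ F, v ∈ TT L L' ∧ (lenN v : ℝ) ≤ 2 * s) → F.card ≤ K := by
      intro F hF
      have h1 : (F.filter (fun v => v ∈ L)).card ≤ K1 :=
        packing (by omega) L (η' * s) (2 * s) hδ hLmin Q hQle _ (by
          intro v hv
          have := Finset.mem_filter.mp hv
          exact ⟨this.2, (hF v this.1).2⟩)
      have h2 : (F.filter (fun v => v ∉ L)).card ≤ K1 :=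
        packing (by omega) L' (η' * s) (2 * s) hδ hLmin' Q hQle _ (by
          intro v hv
          have h3 := Finset.mem_filter.mp hv
          refine ⟨?_, (hF v h3.1).2⟩
          rcases (hF v h3.1).1 with ⟨h4, _⟩ | ⟨_, h4⟩
          · exact absurd h4 h3.2
          · exact h4)
      have h3 := Finset.card_filter_add_card_filter_not (s := F) (fun v => v ∈ L)
      omega
    obtain ⟨y, hy1, hy2, hy3⟩ := exists_gap (fun v : Fin k → ℤ => (lenN v : ℝ)) (TT L L') s
      (by positivity) K hcard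
    have hy : 1 ≤ y := by linarith
    set T0 : Finset (Fin k → ℤ) :=
      (Fintype.piFinset (fun _ : Fin k => Finset.Icc (-(⌊y⌋₊ : ℤ)) (⌊y⌋₊ : ℤ))).filter
        (fun v => v ∈ TT L L' ∧ (lenN v : ℝ) ≤ y) with hT0
    have hmemT0 : ∀ v, v ∈ T0 ↔ v ∈ TT L L' ∧ (lenN v : ℝ) ≤ y := by
      intro v
      rw [hT0, Finset.mem_filter]
      constructor
      · exact fun h => h.2
      · intro h
        refine ⟨?_, h⟩
        rw [Fintype.mem_piFinset]
        intro i
        have h1 : lenN v ≤ ⌊y⌋₊ := Nat.le_floor h.2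
        have h2 := natAbs_le_lenN v i
        rw [Finset.mem_Icc]
        omega
    have hlow := lower_main K R n hRK T0 (hcard T0 (by
        intro v hv
        have := (hmemT0 v).mp hv
        exact ⟨this.1, this.2.trans hy2⟩))
      (by
        intro v hv
        exact supc_of_TT L L' hL hL' (fun w hw => le_trans hs2 (hmin w hw)) v ((hmemT0 v).mp hv).1)
      ⟨vs, (hmemT0 vs).mpr ⟨hvs, by rw [hvs']; exact hy1⟩⟩ (eps L L')
      (fun v hv => eps_of_mem ((hmemT0 v).mp hv).1) y hy (fun v hv => ((hmemT0 v).mp hv).2)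
    have htail := tail_bound L L' (cc N (aa k R) (EE k R)) hsum heq q hq0 hq1 hcq T0 (θ * y) (by
      intro v hv hv'
      rcases hy3 v hv with h | h
      · exact absurd ((hmemT0 v).mpr ⟨hv, h⟩) hv'
      · exact h)
    have hfin := final_ineq (CC k) hCC K θ B N hBr hNr hn2 y hy
    have h5 : (1 : ℝ) ≤ (N : ℝ) ^ y * y ^ K * (CC k * (2 * q) ^ (θ * y)) :=
      hlow.trans (mul_le_mul_of_nonneg_left htail (by positivity))
    rw [hq] at h5
    linarith

end Pool.Agent.DistinctMahler
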