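import Pool.Agent.DistinctMahler.GapMain

set_option autoImplicit false

namespace Pool.Agent.DistinctMahler

/-- contribution of a tiny perturbation to a finite signed sum -/
lemma small_part {k : ℕ} (T0 : Finset (Fin k → ℤ)) (e : (Fin k → ℤ) → ℤ)
    (he : ∀ v, |(e v : ℝ)| ≤ 1) (cT : (Fin k → ℤ) → ℝ) (ρ : ℝ) (hρ0 : 0 ≤ ρ) (hρ1 : ρ ≤ 1)
    (s : ℕ) (hs : ∀ v ∈ T0, v ≠ 0 ∧ s ≤ lenN v ∨ e v = 0)
    (hcT : ∀ v, v ≠ 0 → |cT v| ≤ ρ ^ lenN v) :
    |∑ v ∈ T0, (e v : ℝ) * cT v| ≤ T0.card * ρ ^ s := by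
  calc |∑ v ∈ T0, (e v : ℝ) * cT v| ≤ ∑ v ∈ T0, |(e v : ℝ) * cT v| :=
        Finset.abs_sum_le_sum_abs _ _
    _ ≤ ∑ _v ∈ T0, ρ ^ s := by
        apply Finset.sum_le_sum
        intro v hv
        rcases hs v hv with ⟨h1, h2⟩ | h1
        · rw [abs_mul]
          calc |(e v : ℝ)| * |cT v| ≤ 1 * ρ ^ lenN v :=
                mul_le_mul (he v) (hcT v h1) (abs_nonneg _) zero_le_one
            _ = ρ ^ lenN v := one_mul _
            _ ≤ ρ ^ s := pow_le_pow_of_le_one hρ0 hρ1 h2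
        · rw [h1]
          simp only [Int.cast_zero, zero_mul, abs_zero]
          positivity
    _ = T0.card * ρ ^ s := by rw [Finset.sum_const, nsmul_eq_mul]

/-- numerical inequality for the perturbation -/
lemma pert_ineq (K : ℕ) (W : ℝ) (hW : 0 < W) (N : ℝ) (hN : 1 ≤ N) (s : ℕ) (hs : 1 ≤ s)
    (y : ℝ) (hy1 : 1 ≤ y) (hy : y ≤ 2 * s) (ρ : ℝ) (hρ0 : 0 < ρ)
    (hρ : ρ ≤ 1 / (4 * (W + 1) * N ^ 2 * Real.exp (2 * K))) :
    N ^ y * y ^ K * (W * ρ ^ s) < 1 / 2 := by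
  have hNpos : 0 < N := by linarith
  have hsr : (1 : ℝ) ≤ s := by exact_mod_cast hs
  have h1 : N ^ y ≤ (N ^ 2) ^ s := by
    calc N ^ y ≤ N ^ (2 * (s : ℝ)) := Real.rpow_le_rpow_of_exponent_le hN hy
      _ = (N ^ 2) ^ s := by
        rw [Real.rpow_mul hNpos.le, Real.rpow_natCast]
        norm_cast
  have h2 : y ^ K ≤ (Real.exp (2 * K)) ^ s := by
    have h3 : y ≤ Real.exp (2 * s) := by
      have := Real.add_one_le_exp (2 * (s : ℝ))
      linarith
    calc y ^ K ≤ (Real.exp (2 * s)) ^ K := pow_le_pow_left₀ (by linarith) h3 K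
      _ = (Real.exp (2 * K)) ^ s := by
        rw [← Real.exp_nat_mul, ← Real.exp_nat_mul]
        congr 1
        ring
  set M : ℝ := N ^ 2 * Real.exp (2 * K) with hM
  have hMpos : 0 < M := by positivity
  have hden : 4 * (W + 1) * N ^ 2 * Real.exp (2 * K) = (4 * (W + 1)) * M := by
    rw [hM]; ring
  rw [hden] at hρ
  have h4 : M * ρ ≤ 1 / (4 * (W + 1)) := by
    calc M * ρ ≤ M * (1 / ((4 * (W + 1)) * M)) := mul_le_mul_of_nonneg_left hρ hMpos.le
      _ = 1 / (4 * (W + 1)) := by field_simp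
  have h5 : (M * ρ) ^ s ≤ M * ρ := by
    have h6 : M * ρ ≤ 1 := by
      refine h4.trans ?_
      rw [div_le_one (by positivity)]
      linarith
    calc (M * ρ) ^ s ≤ (M * ρ) ^ 1 := pow_le_pow_of_le_one (by positivity) h6 hs
      _ = M * ρ := pow_one _
  calc N ^ y * y ^ K * (W * ρ ^ s) ≤ (N ^ 2) ^ s * (Real.exp (2 * K)) ^ s * (W * ρ ^ s) := by
        apply mul_le_mul_of_nonneg_right _ (by positivity)
        exact mul_le_mul h1 h2 (by positivity) (by positivity)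
    _ = W * (M * ρ) ^ s := by rw [hM, mul_pow, mul_pow]; ring
    _ ≤ W * (1 / (4 * (W + 1))) := mul_le_mul_of_nonneg_left (h5.trans h4) hW.le
    _ < 1 / 2 := by
      rw [mul_one_div, div_lt_iff₀ (by positivity)]
      linarith

open Classical in
/-- The gap theorem, with an arbitrary tiny perturbation of the coefficients. -/
theorem gap_main2 (k : ℕ) (hk : 2 ≤ k) (η : ℝ) (hη : 0 < η) :
    ∃ R n : ℕ, 2 * BB (aa k R) (EE k R) ≤ 2 ^ n ∧ ∃ ρ : ℝ, 0 < ρ ∧
      ∀ cT : (Fin k → ℤ) → ℝ, Summable cT → (∀ v, v ≠ 0 → |cT v| ≤ ρ ^ lenN v) →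
      (Summable (cc (2 ^ n) (aa k R) (EE k R)) →
      ∀ L L' : AddSubgroup (Fin k → ℤ), Sat L → Sat L' →
      (∀ v0, v0 ∈ L → v0 ∈ L' → v0 ≠ 0 → ∃ v ∈ TT L L', η * lenN v ≤ lenN v0) →
      (TT L L').Nonempty →
      ∑' v, (if v ∈ L then (cc (2 ^ n) (aa k R) (EE k R) v + cT v) else 0) ≠
      ∑' v, (if v ∈ L' then (cc (2 ^ n) (aa k R) (EE k R) v + cT v) else 0)) := by
  set η' : ℝ := min η 1 with hη'
  have hη'0 : 0 < η' := lt_min hη one_pos
  set Q : ℕ := ⌈2 * ((k : ℝ) + 1) / η'⌉₊ with hQ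
  set K1 : ℕ := (2 * Q + 1) ^ k with hK1
  set K : ℕ := 2 * K1 with hK
  have hK1pos : 1 ≤ K1 := Nat.one_le_pow _ _ (by omega)
  have hKpos : 2 ≤ K := by omega
  set θ : ℝ := (2 : ℝ) ^ ((1 : ℝ) / (K + 1)) with hθ
  have hKr : (2 : ℝ) ≤ K := by exact_mod_cast hKpos
  have hθ1 : 1 < θ := Real.one_lt_rpow (by norm_num) (by positivity)
  have hθ2 : θ < 2 := by
    calc θ < (2 : ℝ) ^ (1 : ℝ) := by
          apply Real.rpow_lt_rpow_of_exponent_lt (by norm_num)
          rw [div_lt_one (by positivity)]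
          linarith
      _ = 2 := Real.rpow_one 2
  set R : ℕ := k * K ^ 2 + 2 with hR
  have hRK : k * K ^ 2 < R := by omega
  have hR2 : 2 ≤ R := by omega
  set B : ℕ := BB (aa k R) (EE k R) with hB
  have hBpos : 0 < B := BB_pos _ _
  have hBr : (0 : ℝ) < B := by exact_mod_cast hBpos
  have hCC := one_le_CC k
  have hCC0 : 0 < CC k := by linarith
  obtain ⟨n, hn1, hn2⟩ := exists_large θ hθ1
    (2 * CC k * Real.exp K * (2 * (2 * (B : ℝ))) ^ θ) (by positivity) (4 * B)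
  set N : ℕ := 2 ^ n with hN
  have hNpos : 0 < N := by positivity
  have hNr : (0 : ℝ) < N := by exact_mod_cast hNpos
  have hN1 : (1 : ℝ) ≤ N := by exact_mod_cast hNpos
  set W : ℝ := (K : ℝ) + ((axisSet k).card : ℝ) with hW
  have hW0 : 0 < W := by
    have : (0 : ℝ) ≤ ((axisSet k).card : ℝ) := Nat.cast_nonneg _
    linarith
  set q : ℝ := (B : ℝ) / N with hq
  have hq0 : 0 < q := by positivity
  set ρ : ℝ := min q (1 / (4 * (W + 1) * (N : ℝ) ^ 2 * Real.exp (2 * K))) with hρ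
  have hρ0 : 0 < ρ := lt_min hq0 (by positivity)
  have hρq : ρ ≤ q := min_le_left _ _
  have hρ2 : ρ ≤ 1 / (4 * (W + 1) * (N : ℝ) ^ 2 * Real.exp (2 * K)) := min_le_right _ _
  refine ⟨R, n, by omega, ρ, hρ0, ?_⟩
  intro cT hcTs hcT hsum L L' hL hL' hint hne heq
  set q2 : ℝ := (2 * (B : ℝ)) / N with hq2
  have hq20 : 0 < q2 := by positivity
  have hq2q : q2 = 2 * q := by rw [hq2, hq]; ring
  have hq21 : 2 * q2 ≤ 1 := by
    rw [hq2, ← mul_div_assoc, div_le_one hNr]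
    have : (4 : ℝ) * B ≤ N := by exact_mod_cast hn1
    linarith
  have hρ1 : ρ ≤ 1 := by linarith
  have hsum' : Summable (fun v => cc N (aa k R) (EE k R) v + cT v) := hsum.add hcTs
  have hcq : ∀ v : Fin k → ℤ, v ≠ 0 → |cc N (aa k R) (EE k R) v + cT v| ≤ q2 ^ lenN v := by
    intro v hv
    have h1 := abs_cc_le N hNpos (aa k R) (EE k R) v hv
    have h2 := hcT v hv
    have h3 : ρ ^ lenN v ≤ q ^ lenN v := pow_le_pow_left₀ hρ0.le hρq _
    have h4 : 1 ≤ lenN v := lenN_pos hv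
    calc |cc N (aa k R) (EE k R) v + cT v| ≤ |cc N (aa k R) (EE k R) v| + |cT v| := abs_add_le _ _
      _ ≤ q ^ lenN v + q ^ lenN v := add_le_add h1 (h2.trans h3)
      _ = 2 * q ^ lenN v := by ring
      _ ≤ 2 ^ lenN v * q ^ lenN v := by
        apply mul_le_mul_of_nonneg_right _ (by positivity)
        exact le_self_pow₀ (by norm_num) (by omega)
      _ = q2 ^ lenN v := by rw [hq2q, mul_pow]
  -- the smallest length
  have hex : ∃ m : ℕ, ∃ v ∈ TT L L', lenN v = m := by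
    obtain ⟨v, hv⟩ := hne
    exact ⟨lenN v, v, hv, rfl⟩
  set s : ℕ := Nat.find hex with hs
  obtain ⟨vs, hvs, hvs'⟩ := Nat.find_spec hex
  rw [← hs] at hvs'
  have hmin : ∀ v ∈ TT L L', s ≤ lenN v := fun v hv => Nat.find_min' hex ⟨v, hv, rfl⟩
  have hs1 : 1 ≤ s := by
    rw [← hvs']
    exact lenN_pos (ne_zero_of_TT hvs)
  have hsr : (1 : ℝ) ≤ s := by exact_mod_cast hs1
  have hsplit : ∀ T0 : Finset (Fin k → ℤ),
      ∑ v ∈ T0, (eps L L' v : ℝ) * cc N (aa k R) (EE k R) v =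
      ∑ v ∈ T0, (eps L L' v : ℝ) * (cc N (aa k R) (EE k R) v + cT v) -
      ∑ v ∈ T0, (eps L L' v : ℝ) * cT v := by
    intro T0
    rw [← Finset.sum_sub_distrib]
    apply Finset.sum_congr rfl
    intro v _
    ring
  have hsm : ∀ v : Fin k → ℤ, v ≠ 0 ∧ s ≤ lenN v ∨ eps L L' v = 0 := by
    intro v
    by_cases hv : v ∈ TT L L'
    · exact Or.inl ⟨ne_zero_of_TT hv, hmin v hv⟩
    · exact Or.inr (eps_of_not_mem hv)
  rcases Nat.lt_or_ge s 2 with hs2 | hs2
  · -- axis case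
    have hs1' : s = 1 := by omega
    have hlow := lower_axis hk R n hR2 L L' ⟨vs, hvs, by rw [hvs', hs1']⟩
    rw [← hN] at hlow
    have htail := tail_bound L L' (fun v => cc N (aa k R) (EE k R) v + cT v) hsum' heq q2 hq20 hq21
      hcq (axisSet k) θ (by
      intro v hv hv'
      have h1 : 1 ≤ lenN v := lenN_pos (ne_zero_of_TT hv)
      have h2 : lenN v ≠ 1 := fun h => hv' (mem_axisSet_of_lenN v h)
      have h3 : 2 ≤ lenN v := by omega
      have h4 : (2 : ℝ) ≤ lenN v := by exact_mod_cast h3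
      linarith)
    have hpert := small_part (axisSet k) (eps L L') (abs_eps_le L L') cT ρ hρ0.le hρ1 s
      (fun v _ => hsm v) hcT
    have hpert2 : |∑ v ∈ axisSet k, (eps L L' v : ℝ) * cT v| ≤ W * ρ ^ s := by
      refine hpert.trans ?_
      apply mul_le_mul_of_nonneg_right _ (by positivity)
      rw [hW]
      linarith
    have hfin := final_ineq (2 * CC k) (by linarith) K θ (2 * (B : ℝ)) N (by positivity) hNr hn2 1
      le_rfl
    have hfin2 := pert_ineq K W hW0 N hN1 s hs1 1 le_rfl (by linarith) ρ hρ0 hρ2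
    rw [Real.rpow_one, one_pow, mul_one, mul_one] at hfin
    rw [Real.rpow_one, one_pow, mul_one] at hfin2
    have h5 : |∑ v ∈ axisSet k, (eps L L' v : ℝ) * cc N (aa k R) (EE k R) v| ≤
        CC k * (2 * q2) ^ θ + W * ρ ^ s := by
      rw [hsplit]
      exact (abs_sub _ _).trans (add_le_add htail hpert2)
    have h6 : (1 : ℝ) ≤ (N : ℝ) * (CC k * (2 * q2) ^ θ + W * ρ ^ s) :=
      hlow.trans (mul_le_mul_of_nonneg_left h5 hNr.le)
    rw [← hq2] at hfin
    nlinarith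
  · -- general case
    have hLmin : ∀ v ∈ L, v ≠ 0 → η' * s ≤ lenN v := by
      intro v hv hv0
      by_cases hv' : v ∈ L'
      · obtain ⟨w, hw, hw2⟩ := hint v hv hv' hv0
        have h1 : (s : ℝ) ≤ lenN w := by exact_mod_cast hmin w hw
        have h2 : η' ≤ η := min_le_left _ _
        have h3 : η' * s ≤ η * lenN w := mul_le_mul h2 h1 (by positivity) hη.le
        linarith
      · have h1 : (s : ℝ) ≤ lenN v := by exact_mod_cast hmin v (Or.inl ⟨hv, hv'⟩)
        have h2 : η' ≤ 1 := min_le_right _ _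
        nlinarith
    have hLmin' : ∀ v ∈ L', v ≠ 0 → η' * s ≤ lenN v := by
      intro v hv' hv0
      by_cases hv : v ∈ L
      · exact hLmin v hv hv0
      · have h1 : (s : ℝ) ≤ lenN v := by exact_mod_cast hmin v (Or.inr ⟨hv, hv'⟩)
        have h2 : η' ≤ 1 := min_le_right _ _
        nlinarith
    have hδ : 0 < η' * s := by positivity
    have hQle : 2 * (s : ℝ) * (k + 1) / (η' * s) ≤ Q := by
      have h1 : 2 * (s : ℝ) * (k + 1) / (η' * s) = 2 * ((k : ℝ) + 1) / η' := by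
        have : (s : ℝ) ≠ 0 := by positivity
        field_simp
      rw [h1]
      exact Nat.le_ceil _
    have hcard : ∀ F : Finset (Fin k → ℤ),
        (∀ v ∈ F, v ∈ TT L L' ∧ (lenN v : ℝ) ≤ 2 * s) → F.card ≤ K := by
      intro F hF
      have h1 : (F.filter (fun v => v ∈ L)).card ≤ K1 :=
        packing (by omega) L (η' * s) (2 * s) hδ hLmin Q hQle _ (by
          intro v hv
          have := Finset.mem_filter.mp hv
          exact ⟨this.2, (hF v this.1).2⟩)
      have h2 : (F.filter (fun v => v ∉ L)).card ≤ K1 :=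
        packing (by omega) L' (η' * s) (2 * s) hδ hLmin' Q hQle _ (by
          intro v hv
          have h3 := Finset.mem_filter.mp hv
          refine ⟨?_, (hF v h3.1).2⟩
          rcases (hF v h3.1).1 with ⟨h4, _⟩ | ⟨_, h4⟩
          · exact absurd h4 h3.2
          · exact h4)
      have h3 := Finset.card_filter_add_card_filter_not (s := F) (fun v => v ∈ L)
      omega
    obtain ⟨y, hy1, hy2, hy3⟩ := exists_gap (fun v : Fin k → ℤ => (lenN v : ℝ)) (TT L L') s
      (by positivity) K hcard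
    have hy : 1 ≤ y := by linarith
    set T0 : Finset (Fin k → ℤ) :=
      (Fintype.piFinset (fun _ : Fin k => Finset.Icc (-(⌊y⌋₊ : ℤ)) (⌊y⌋₊ : ℤ))).filter
        (fun v => v ∈ TT L L' ∧ (lenN v : ℝ) ≤ y) with hT0
    have hmemT0 : ∀ v, v ∈ T0 ↔ v ∈ TT L L' ∧ (lenN v : ℝ) ≤ y := by
      intro v
      rw [hT0, Finset.mem_filter]
      constructor
      · exact fun h => h.2
      · intro h
        refine ⟨?_, h⟩
        rw [Fintype.mem_piFinset]
        intro i
        have h1 : lenN v ≤ ⌊y⌋₊ := Nat.le_floor h.2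
        have h2 := natAbs_le_lenN v i
        rw [Finset.mem_Icc]
        omega
    have hT0card : T0.card ≤ K := hcard T0 (by
      intro v hv
      have := (hmemT0 v).mp hv
      exact ⟨this.1, this.2.trans hy2⟩)
    have hlow := lower_main K R n hRK T0 hT0card
      (by
        intro v hv
        exact supc_of_TT L L' hL hL' (fun w hw => le_trans hs2 (hmin w hw)) v ((hmemT0 v).mp hv).1)
      ⟨vs, (hmemT0 vs).mpr ⟨hvs, by rw [hvs']; exact hy1⟩⟩ (eps L L')
      (fun v hv => eps_of_mem ((hmemT0 v).mp hv).1) y hy (fun v hv => ((hmemT0 v).mp hv).2)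
    rw [← hN] at hlow
    have htail := tail_bound L L' (fun v => cc N (aa k R) (EE k R) v + cT v) hsum' heq q2 hq20 hq21
      hcq T0 (θ * y) (by
      intro v hv hv'
      rcases hy3 v hv with h | h
      · exact absurd ((hmemT0 v).mpr ⟨hv, h⟩) hv'
      · exact h)
    have hpert := small_part T0 (eps L L') (abs_eps_le L L') cT ρ hρ0.le hρ1 s
      (fun v _ => hsm v) hcT
    have hpert2 : |∑ v ∈ T0, (eps L L' v : ℝ) * cT v| ≤ W * ρ ^ s := by
      refine hpert.trans ?_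
      apply mul_le_mul_of_nonneg_right _ (by positivity)
      have h1 : (T0.card : ℝ) ≤ K := by exact_mod_cast hT0card
      have h2 : (0 : ℝ) ≤ ((axisSet k).card : ℝ) := Nat.cast_nonneg _
      rw [hW]
      linarith
    have hfin := final_ineq (2 * CC k) (by linarith) K θ (2 * (B : ℝ)) N (by positivity) hNr hn2 y hy
    have hfin2 := pert_ineq K W hW0 N hN1 s hs1 y hy hy2 ρ hρ0 hρ2
    have h5 : |∑ v ∈ T0, (eps L L' v : ℝ) * cc N (aa k R) (EE k R) v| ≤
        CC k * (2 * q2) ^ (θ * y) + W * ρ ^ s := by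
      rw [hsplit]
      exact (abs_sub _ _).trans (add_le_add htail hpert2)
    have h6 : (1 : ℝ) ≤ (N : ℝ) ^ y * y ^ K * (CC k * (2 * q2) ^ (θ * y) + W * ρ ^ s) :=
      hlow.trans (mul_le_mul_of_nonneg_left h5 (by positivity))
    rw [← hq2] at hfin
    nlinarith

end Pool.Agent.DistinctMahler
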