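import Pool.Agent.DistinctMahler.Val

set_option autoImplicit false

namespace Pool.Agent.DistinctMahler
open Polynomial

/-- the polynomial in `j + 1` whose values are differences of valuations -/
noncomputable def dpoly {k : ℕ} (v w : Fin k → ℤ) : ℤ[X] :=
  (∑ i : Fin k, C (((v i).natAbs : ℤ) - ((w i).natAbs : ℤ)) * X ^ ((i : ℕ) + 1)) +
    C ((tt (sgn v) : ℤ) - tt (sgn w))

lemma dpoly_eval {k : ℕ} (v w : Fin k → ℤ) (x : ℤ) :
    (dpoly v w).eval x = (∑ i, ((v i).natAbs : ℤ) * x ^ ((i : ℕ) + 1) + (1 + tt (sgn v))) -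
      (∑ i, ((w i).natAbs : ℤ) * x ^ ((i : ℕ) + 1) + (1 + tt (sgn w))) := by
  unfold dpoly
  rw [eval_add, eval_finsetSum, eval_C]
  simp only [eval_mul, eval_C, eval_pow, eval_X, sub_mul, Finset.sum_sub_distrib]
  ring

lemma dpoly_natDegree {k : ℕ} (v w : Fin k → ℤ) : (dpoly v w).natDegree ≤ k := by
  unfold dpoly
  apply natDegree_add_le_of_degree_le
  · apply natDegree_sum_le_of_forall_le
    intro i _
    refine (natDegree_C_mul_X_pow_le _ _).trans ?_
    have := i.isLt
    omega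
  · rw [natDegree_C]
    exact Nat.zero_le _

lemma dpoly_coeff_zero {k : ℕ} (v w : Fin k → ℤ) :
    (dpoly v w).coeff 0 = (tt (sgn v) : ℤ) - tt (sgn w) := by
  unfold dpoly
  rw [coeff_add, finsetSum_coeff, coeff_C_zero, Finset.sum_eq_zero, zero_add]
  intro i _
  simp

lemma dpoly_coeff_succ {k : ℕ} (v w : Fin k → ℤ) (i : Fin k) :
    (dpoly v w).coeff ((i : ℕ) + 1) = ((v i).natAbs : ℤ) - ((w i).natAbs : ℤ) := by
  unfold dpoly
  rw [coeff_add, finsetSum_coeff, coeff_C_succ, add_zero, Finset.sum_eq_single i]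
  · rw [coeff_C_mul, coeff_X_pow, if_pos rfl, mul_one]
  · intro l _ hl
    rw [coeff_C_mul, coeff_X_pow, if_neg, mul_zero]
    intro h
    apply hl
    apply Fin.ext
    omega
  · intro h
    exact absurd (Finset.mem_univ i) h

lemma eq_of_sgn_natAbs {k : ℕ} (v w : Fin k → ℤ) (h1 : sgn v = sgn w)
    (h2 : ∀ i, (v i).natAbs = (w i).natAbs) : v = w := by
  funext i
  have h3 : SignType.sign (v i) = SignType.sign (w i) := congrFun h1 i
  have h4 := h2 i
  have h5 := sign_mul_abs (v i)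
  have h6 := sign_mul_abs (w i)
  rw [← h5, ← h6, h3, Int.abs_eq_natAbs, Int.abs_eq_natAbs, h4]

lemma dpoly_ne_zero {k : ℕ} (v w : Fin k → ℤ) (h : v ≠ w) : dpoly v w ≠ 0 := by
  intro h0
  apply h
  apply eq_of_sgn_natAbs
  · have h1 := dpoly_coeff_zero v w
    rw [h0, coeff_zero] at h1
    apply tt_injective
    omega
  · intro i
    have h1 := dpoly_coeff_succ v w i
    rw [h0, coeff_zero] at h1
    omega

lemma card_bad {k : ℕ} (v w : Fin k → ℤ) (h : v ≠ w) (R : ℕ) :
    ((Finset.range R).filter (fun j : ℕ => (dpoly v w).eval ((j : ℤ) + 1) = 0)).card ≤ k := by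
  have hne := dpoly_ne_zero v w h
  calc ((Finset.range R).filter (fun j : ℕ => (dpoly v w).eval ((j : ℤ) + 1) = 0)).card
      ≤ (dpoly v w).roots.toFinset.card := by
        apply Finset.card_le_card_of_injOn (fun j : ℕ => (j : ℤ) + 1)
        · intro j hj
          simp only [Finset.coe_filter, Finset.mem_range, Set.mem_ofPred_eq] at hj
          simp only [Finset.mem_coe, Multiset.mem_toFinset, mem_roots hne, IsRoot.def]
          exact hj.2
        · intro a _ b _ hab
          simp only at hab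
          omega
    _ ≤ Multiset.card (dpoly v w).roots := Multiset.toFinset_card_le _
    _ ≤ (dpoly v w).natDegree := card_roots' _
    _ ≤ k := dpoly_natDegree v w

/-- a prime separating the valuations of finitely many coefficients -/
lemma exists_good {k : ℕ} (K : ℕ) (R n : ℕ) (hR : k * K ^ 2 < R) (T : Finset (Fin k → ℤ))
    (hT : T.card ≤ K) (hT0 : ∀ v ∈ T, v ≠ 0) :
    ∃ j, j < R ∧ Set.InjOn (fun v => padicValRat (pr j) (qq (2 ^ n) (aa k R) (EE k R) v)) T := by
  by_contra hcon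
  push Not at hcon
  have hsub : Finset.range R ⊆ T.offDiag.biUnion (fun p =>
      (Finset.range R).filter (fun j : ℕ => (dpoly p.1 p.2).eval ((j : ℤ) + 1) = 0)) := by
    intro j hj
    have hjR := Finset.mem_range.mp hj
    have h1 := hcon j hjR
    simp only [Set.InjOn] at h1
    push Not at h1
    obtain ⟨v, hv, w, hw, hvw, hne⟩ := h1
    rw [Finset.mem_biUnion]
    refine ⟨(v, w), Finset.mem_offDiag.mpr ⟨hv, hw, hne⟩, ?_⟩
    rw [Finset.mem_filter]
    refine ⟨hj, ?_⟩
    rw [dpoly_eval, ← qq_val R n v (hT0 v hv) j hjR, ← qq_val R n w (hT0 w hw) j hjR, hvw, sub_self]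
  have h2 := Finset.card_le_card hsub
  rw [Finset.card_range] at h2
  have h3 := Finset.card_biUnion_le_card_mul T.offDiag (fun p : (Fin k → ℤ) × (Fin k → ℤ) =>
      (Finset.range R).filter (fun j : ℕ => (dpoly p.1 p.2).eval ((j : ℤ) + 1) = 0)) k (by
    intro p hp
    exact card_bad p.1 p.2 (Finset.mem_offDiag.mp hp).2.2 R)
  have h4 : T.offDiag.card ≤ K ^ 2 := by
    rw [Finset.offDiag_card]
    calc T.card * T.card - T.card ≤ T.card * T.card := Nat.sub_le _ _
      _ ≤ K * K := Nat.mul_le_mul hT hT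
      _ = K ^ 2 := (sq K).symm
  have h5 : T.offDiag.card * k ≤ K ^ 2 * k := Nat.mul_le_mul_right k h4
  have h6 : K ^ 2 * k = k * K ^ 2 := mul_comm _ _
  omega

/-- signed sums of finitely many coefficients do not vanish -/
lemma sum_ne_zero {k : ℕ} (K : ℕ) (R n : ℕ) (hR : k * K ^ 2 < R) (T : Finset (Fin k → ℤ))
    (hT : T.card ≤ K) (hT0 : ∀ v ∈ T, v ≠ 0) (hne : T.Nonempty) (ε : (Fin k → ℤ) → ℤ)
    (hε : ∀ v ∈ T, ε v = 1 ∨ ε v = -1) :
    ∑ v ∈ T, (ε v : ℚ) * qq (2 ^ n) (aa k R) (EE k R) v ≠ 0 := by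
  obtain ⟨j, hj, hinj⟩ := exists_good K R n hR T hT hT0
  have : Fact (pr j).Prime := ⟨pr_prime j⟩
  obtain ⟨v0, hv0, hmin⟩ := T.exists_min_image
    (fun v => padicValRat (pr j) (qq (2 ^ n) (aa k R) (EE k R) v)) hne
  have hqne : ∀ v ∈ T, qq (2 ^ n) (aa k R) (EE k R) v ≠ 0 := by
    intro v hv
    unfold qq
    have h2 := bet_pos (EE k R (fun i => SignType.sign (v i))) (EE_pos k R _) v (hT0 v hv)
    have h3 : 0 < ∏ i, ((aa k R i : ℚ) / ((2 ^ n : ℕ) : ℚ)) ^ (v i).natAbs := by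
      apply Finset.prod_pos
      intro i _
      have := aa_pos k R i
      positivity
    have := mul_pos h2 h3
    linarith
  have hval : ∀ v ∈ T, padicValRat (pr j) ((ε v : ℚ) * qq (2 ^ n) (aa k R) (EE k R) v) =
      padicValRat (pr j) (qq (2 ^ n) (aa k R) (EE k R) v) := by
    intro v hv
    rcases hε v hv with h | h <;> rw [h] <;> simp [padicValRat.neg]
  have hne' : ∀ v ∈ T, (ε v : ℚ) * qq (2 ^ n) (aa k R) (EE k R) v ≠ 0 := by
    intro v hv
    apply mul_ne_zero _ (hqne v hv)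
    rcases hε v hv with h | h <;> rw [h] <;> norm_num
  rw [← Finset.add_sum_erase T _ hv0]
  have hrest : padicNorm (pr j)
      (∑ v ∈ T.erase v0, (ε v : ℚ) * qq (2 ^ n) (aa k R) (EE k R) v) <
      padicNorm (pr j) ((ε v0 : ℚ) * qq (2 ^ n) (aa k R) (EE k R) v0) := by
    apply padicNorm.sum_lt'
    · intro v hv
      have hvT := Finset.mem_of_mem_erase hv
      have hvne := Finset.ne_of_mem_erase hv
      apply norm_lt_of_val_lt _ _ _ (hne' v0 hv0)
      right
      rw [hval v hvT, hval v0 hv0]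
      apply lt_of_le_of_ne (hmin v hvT)
      intro heq
      exact hvne (hinj hvT hv0 heq.symm)
    · exact lt_of_le_of_ne (padicNorm.nonneg _) (padicNorm.nonzero (hne' v0 hv0)).symm
  intro h0
  have h1 : padicNorm (pr j) ((ε v0 : ℚ) * qq (2 ^ n) (aa k R) (EE k R) v0) =
      padicNorm (pr j) (∑ v ∈ T.erase v0, (ε v : ℚ) * qq (2 ^ n) (aa k R) (EE k R) v) := by
    rw [eq_neg_of_add_eq_zero_left h0, padicNorm.neg]
  exact hrest.ne' h1

end Pool.Agent.DistinctMahler
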