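import Pool.Agent.DistinctMahler.Defs

set_option autoImplicit false

namespace Pool.Agent.DistinctMahler

/-- the row lattice -/
def rowL {l k : ℕ} (H : Matrix (Fin l) (Fin k) ℤ) : Set (Fin k → ℤ) :=
  {v | ∃ c : Fin l → ℤ, ∀ j, v j = ∑ i, c i * H i j}

/-- pivot data -/
def Piv {l k : ℕ} (H : Matrix (Fin l) (Fin k) ℤ) (p : Fin l → Fin k) : Prop :=
  StrictMono p ∧ (∀ i, 1 ≤ H i (p i)) ∧ (∀ i j, j < p i → H i j = 0) ∧
    (∀ i' i, i' < i → 0 ≤ H i' (p i) ∧ H i' (p i) < H i (p i))

lemma row_mem {l k : ℕ} (H : Matrix (Fin l) (Fin k) ℤ) (i : Fin l) : (fun j => H i j) ∈ rowL H := by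
  refine ⟨fun i' => if i' = i then 1 else 0, ?_⟩
  intro j
  simp

lemma rowL_sub {l k : ℕ} (H : Matrix (Fin l) (Fin k) ℤ) (v w : Fin k → ℤ) (hv : v ∈ rowL H)
    (hw : w ∈ rowL H) : v - w ∈ rowL H := by
  obtain ⟨c, hc⟩ := hv
  obtain ⟨d, hd⟩ := hw
  refine ⟨fun i => c i - d i, ?_⟩
  intro j
  rw [Pi.sub_apply, hc, hd, ← Finset.sum_sub_distrib]
  apply Finset.sum_congr rfl
  intro i _
  ring

lemma lead {l k : ℕ} (H : Matrix (Fin l) (Fin k) ℤ) (p : Fin l → Fin k) (hp : Piv H p)
    (v : Fin k → ℤ) (hv : v ∈ rowL H) (hv0 : v ≠ 0) :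
    ∃ i0, (∀ j, j < p i0 → v j = 0) ∧ v (p i0) ≠ 0 ∧ H i0 (p i0) ∣ v (p i0) := by
  obtain ⟨hmono, hpos, hzero, _⟩ := hp
  obtain ⟨c, hc⟩ := hv
  have hc0 : (Finset.univ.filter (fun i => c i ≠ 0)).Nonempty := by
    by_contra hcon
    rw [Finset.not_nonempty_iff_eq_empty, Finset.filter_eq_empty_iff] at hcon
    apply hv0
    funext j
    rw [hc j]
    apply Finset.sum_eq_zero
    intro i hi
    have := hcon hi
    push Not at this
    rw [this, zero_mul]
  set i0 := (Finset.univ.filter (fun i => c i ≠ 0)).min' hc0 with hi0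
  have hi0mem := Finset.min'_mem _ hc0
  rw [← hi0] at hi0mem
  have hci0 : c i0 ≠ 0 := (Finset.mem_filter.mp hi0mem).2
  have hlt : ∀ i, i < i0 → c i = 0 := by
    intro i hi
    by_contra hne
    have hmem : i ∈ Finset.univ.filter (fun i => c i ≠ 0) :=
      Finset.mem_filter.mpr ⟨Finset.mem_univ i, hne⟩
    have := Finset.min'_le _ i hmem
    rw [← hi0] at this
    exact absurd hi (not_lt.mpr this)
  have hval : v (p i0) = c i0 * H i0 (p i0) := by
    rw [hc]
    apply Finset.sum_eq_single i0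
    · intro i _ hi
      rcases lt_or_gt_of_ne hi with h | h
      · rw [hlt i h, zero_mul]
      · rw [hzero i (p i0) (hmono h), mul_zero]
    · intro h
      exact absurd (Finset.mem_univ i0) h
  refine ⟨i0, ?_, ?_, ?_⟩
  · intro j hj
    rw [hc]
    apply Finset.sum_eq_zero
    intro i _
    rcases lt_or_ge i i0 with h | h
    · rw [hlt i h, zero_mul]
    · rw [hzero i j (lt_of_lt_of_le hj (hmono.monotone h)), mul_zero]
  · rw [hval]
    have := hpos i0
    exact mul_ne_zero hci0 (by omega)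
  · rw [hval]
    exact Dvd.intro_left _ rfl

lemma pivot_match {l l' k : ℕ} (H : Matrix (Fin l) (Fin k) ℤ) (H' : Matrix (Fin l') (Fin k) ℤ)
    (p : Fin l → Fin k) (p' : Fin l' → Fin k) (hp : Piv H p) (hp' : Piv H' p')
    (hsub : rowL H ⊆ rowL H') (i : Fin l) : ∃ i', p' i' = p i ∧ H' i' (p' i') ∣ H i (p i) := by
  have hrow := hsub (row_mem H i)
  have hne : (fun j => H i j) ≠ 0 := by
    intro h
    have h1 := congrFun h (p i)
    have h2 := hp.2.1 i
    simp only [Pi.zero_apply] at h1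
    omega
  obtain ⟨i0, h1, h2, h3⟩ := lead H' p' hp' _ hrow hne
  have heq : p' i0 = p i := by
    rcases lt_trichotomy (p' i0) (p i) with h | h | h
    · exact absurd (hp.2.2.1 i (p' i0) h) h2
    · exact h
    · have h4 := h1 (p i) h
      have h5 := hp.2.1 i
      omega
  refine ⟨i0, heq, ?_⟩
  have h6 : H i (p' i0) = H i (p i) := by rw [heq]
  rw [← h6]
  exact h3

theorem hnf_unique {l l' k : ℕ} (H : Matrix (Fin l) (Fin k) ℤ) (H' : Matrix (Fin l') (Fin k) ℤ)
    (p : Fin l → Fin k) (p' : Fin l' → Fin k) (hp : Piv H p) (hp' : Piv H' p')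
    (heq : rowL H = rowL H') :
    (⟨l, H⟩ : Σ l, Matrix (Fin l) (Fin k) ℤ) = ⟨l', H'⟩ := by
  have hm := pivot_match H H' p p' hp hp' heq.subset
  have hm' := pivot_match H' H p' p hp' hp heq.symm.subset
  have hrange : Set.range p = Set.range p' := by
    apply Set.Subset.antisymm
    · rintro _ ⟨i, rfl⟩
      obtain ⟨i', h, _⟩ := hm i
      exact ⟨i', h⟩
    · rintro _ ⟨i, rfl⟩
      obtain ⟨i', h, _⟩ := hm' i
      exact ⟨i', h⟩
  have hl : l = l' := by
    have h1 : (Finset.univ.image p).card = l := by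
      rw [Finset.card_image_of_injective _ hp.1.injective, Finset.card_univ, Fintype.card_fin]
    have h2 : (Finset.univ.image p').card = l' := by
      rw [Finset.card_image_of_injective _ hp'.1.injective, Finset.card_univ, Fintype.card_fin]
    rw [← h1, ← h2]
    congr 1
    ext x
    have := Set.ext_iff.mp hrange x
    simpa [Set.mem_range] using this
  subst hl
  have hpp : p = p' := (StrictMono.range_inj hp.1 hp'.1).mp hrange
  subst hpp
  have hpiv : ∀ i, H i (p i) = H' i (p i) := by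
    intro i
    obtain ⟨i', h1, h2⟩ := hm i
    obtain ⟨i'', h3, h4⟩ := hm' i
    have e1 : i' = i := hp.1.injective h1
    have e2 : i'' = i := hp.1.injective h3
    rw [e1] at h2
    rw [e2] at h4
    have h5 := hp.2.1 i
    have h6 := hp'.2.1 i
    exact Int.dvd_antisymm (by omega) (by omega) h4 h2
  have hH : H = H' := by
    funext i
    by_contra hne
    have hsub : (fun j => H i j) - (fun j => H' i j) ∈ rowL H :=
      rowL_sub H _ _ (row_mem H i) (heq ▸ row_mem H' i)
    have hne' : (fun j => H i j) - (fun j => H' i j) ≠ 0 := by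
      intro h
      apply hne
      funext j
      have := congrFun h j
      simp only [Pi.sub_apply, Pi.zero_apply] at this
      omega
    obtain ⟨i0, h1, h2, h3⟩ := lead H p hp _ hsub hne'
    simp only [Pi.sub_apply] at h1 h2 h3
    have hi : i < i0 := by
      by_contra hcon
      rcases lt_or_eq_of_le (not_lt.mp hcon) with h | h
      · have h4 := hp.2.2.1 i (p i0) (hp.1 h)
        have h5 := hp'.2.2.1 i (p i0) (hp.1 h)
        apply h2
        omega
      · subst h
        apply h2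
        have := hpiv i0
        omega
    obtain ⟨h4, h5⟩ := hp.2.2.2 i i0 hi
    obtain ⟨h6, h7⟩ := hp'.2.2.2 i i0 hi
    have h8 := hpiv i0
    apply h2
    apply Int.eq_zero_of_abs_lt_dvd h3
    rw [abs_lt]
    omega
  rw [hH]

end Pool.Agent.DistinctMahler
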