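import Pool.Agent.DistinctMahler.Decode
import Pool.Agent.DistinctMahler.Final

set_option autoImplicit false

namespace Pool.Agent.DistinctMahler

lemma eq_of_abs_of_pos (a b : ℤ) (h1 : a.natAbs = b.natAbs) (h2 : 0 < a * b) : a = b := by
  rcases Int.natAbs_eq_natAbs_iff.mp h1 with h | h
  · exact h
  · rw [h] at h2
    nlinarith [mul_self_nonneg b]

lemma pair_of_decode {k : ℕ} (r r' : Fin k → ℤ)
    (h : ∀ s ∈ SS k, (ex1 s r * ex2 s r < 0 ↔ ex1 s r' * ex2 s r' < 0) ∧
      (ex1 s r * ex2 s r < 0 → (ex2 s r).natAbs * (ex1 s r').natAbs =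
        (ex2 s r').natAbs * (ex1 s r).natAbs)) (i j : Fin k) (hij : i ≠ j) :
    (r i * r j = 0 ↔ r' i * r' j = 0) ∧ (r i * r j ≠ 0 → r j * r' i = r' j * r i) := by
  have hp : ((i, j, (1 : SignType)) : Fin k × Fin k × SignType) ∈ SS k := by
    rw [mem_SS]
    exact ⟨hij, show (1 : SignType) ≠ 0 by decide⟩
  have hm : ((i, j, (-1 : SignType)) : Fin k × Fin k × SignType) ∈ SS k := by
    rw [mem_SS]
    exact ⟨hij, show (-1 : SignType) ≠ 0 by decide⟩
  obtain ⟨p1, p2⟩ := h _ hp
  obtain ⟨m1, m2⟩ := h _ hm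
  have e1 : ∀ q : Fin k → ℤ, ex1 (i, j, (1 : SignType)) q = q i := fun q => rfl
  have e2 : ∀ q : Fin k → ℤ, ex2 (i, j, (1 : SignType)) q = q j := by
    intro q
    unfold ex2
    simp
  have e3 : ∀ q : Fin k → ℤ, ex1 (i, j, (-1 : SignType)) q = q i := fun q => rfl
  have e4 : ∀ q : Fin k → ℤ, ex2 (i, j, (-1 : SignType)) q = -q j := by
    intro q
    unfold ex2
    simp
  rw [e1, e2, e1, e2] at p1 p2
  rw [e3, e4, e3, e4, mul_neg, mul_neg, neg_lt_zero, neg_lt_zero] at m1
  rw [e3, e4, e3, e4, mul_neg, neg_lt_zero, Int.natAbs_neg, Int.natAbs_neg] at m2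
  constructor
  · constructor
    · intro h0
      rcases lt_trichotomy (r' i * r' j) 0 with h1 | h1 | h1
      · have := p1.mpr h1
        omega
      · exact h1
      · have := m1.mpr h1
        omega
    · intro h0
      rcases lt_trichotomy (r i * r j) 0 with h1 | h1 | h1
      · have := p1.mp h1
        omega
      · exact h1
      · have := m1.mp h1
        omega
  · intro h0
    rcases lt_or_gt_of_ne h0 with h1 | h1
    · have h2 := p1.mp h1
      apply eq_of_abs_of_pos
      · rw [Int.natAbs_mul, Int.natAbs_mul]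
        exact p2 h1
      · have h3 : r j * r' i * (r' j * r i) = (r i * r j) * (r' i * r' j) := by ring
        rw [h3]
        exact mul_pos_of_neg_of_neg h1 h2
    · have h2 := m1.mp h1
      apply eq_of_abs_of_pos
      · rw [Int.natAbs_mul, Int.natAbs_mul]
        exact m2 h1
      · have h3 : r j * r' i * (r' j * r i) = (r i * r j) * (r' i * r' j) := by ring
        rw [h3]
        exact mul_pos h1 h2

lemma ker_of_decode {k : ℕ} (r r' : Fin k → ℤ) (hr : r ≠ 0) (hr' : r' ≠ 0)
    (h : ∀ s ∈ SS k, (ex1 s r * ex2 s r < 0 ↔ ex1 s r' * ex2 s r' < 0) ∧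
      (ex1 s r * ex2 s r < 0 → (ex2 s r).natAbs * (ex1 s r').natAbs =
        (ex2 s r').natAbs * (ex1 s r).natAbs)) :
    (∀ v : Fin k → ℤ, ∑ l, r l * v l = 0 ↔ ∑ l, r' l * v l = 0) ∨
    (∃ i j, i ≠ j ∧ r i ≠ 0 ∧ (∀ l, l ≠ i → r l = 0) ∧ r' j ≠ 0 ∧ (∀ l, l ≠ j → r' l = 0)) := by
  have hpair := pair_of_decode r r' h
  by_cases hex : ∃ i j, i ≠ j ∧ r i * r j ≠ 0
  · left
    obtain ⟨i, j, hij, hne⟩ := hex
    have hri : r i ≠ 0 := left_ne_zero_of_mul hne
    have hne' : r' i * r' j ≠ 0 := fun h0 => hne ((hpair i j hij).1.mpr h0)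
    have hri' : r' i ≠ 0 := left_ne_zero_of_mul hne'
    have hprop : ∀ l, r l * r' i = r' l * r i := by
      intro l
      by_cases hl : l = i
      · subst hl
        ring
      · by_cases h0 : r l = 0
        · have h1 : r' i * r' l = 0 := (hpair i l (Ne.symm hl)).1.mp (by rw [h0, mul_zero])
          rcases mul_eq_zero.mp h1 with h2 | h2
          · exact absurd h2 hri'
          · rw [h0, h2, zero_mul, zero_mul]
        · exact (hpair i l (Ne.symm hl)).2 (mul_ne_zero hri h0)
    intro v
    have hsum : r' i * ∑ l, r l * v l = r i * ∑ l, r' l * v l := by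
      rw [Finset.mul_sum, Finset.mul_sum]
      apply Finset.sum_congr rfl
      intro l _
      linear_combination (v l) * hprop l
    constructor
    · intro h0
      rw [h0, mul_zero] at hsum
      rcases mul_eq_zero.mp hsum.symm with h1 | h1
      · exact absurd h1 hri
      · exact h1
    · intro h0
      rw [h0, mul_zero] at hsum
      rcases mul_eq_zero.mp hsum with h1 | h1
      · exact absurd h1 hri'
      · exact h1
  · push Not at hex
    have hex' : ∀ i j, i ≠ j → r' i * r' j = 0 := fun i j hij => (hpair i j hij).1.mp (hex i j hij)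
    obtain ⟨i, hi⟩ := exists_ne_of_ne hr
    obtain ⟨j, hj⟩ := exists_ne_of_ne hr'
    have hi0 : ∀ l, l ≠ i → r l = 0 := by
      intro l hl
      rcases mul_eq_zero.mp (hex l i hl) with h1 | h1
      · exact h1
      · exact absurd h1 hi
    have hj0 : ∀ l, l ≠ j → r' l = 0 := by
      intro l hl
      rcases mul_eq_zero.mp (hex' l j hl) with h1 | h1
      · exact h1
      · exact absurd h1 hj
    by_cases hij : i = j
    · left
      subst hij
      intro v
      rw [Finset.sum_eq_single i (fun l _ hl => by rw [hi0 l hl, zero_mul])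
        (fun h => absurd (Finset.mem_univ i) h),
        Finset.sum_eq_single i (fun l _ hl => by rw [hj0 l hl, zero_mul])
        (fun h => absurd (Finset.mem_univ i) h)]
      constructor
      · intro h0
        rcases mul_eq_zero.mp h0 with h1 | h1
        · exact absurd h1 hi
        · rw [h1, mul_zero]
      · intro h0
        rcases mul_eq_zero.mp h0 with h1 | h1
        · exact absurd h1 hj
        · rw [h1, mul_zero]
    · right
      exact ⟨i, j, hij, hi, hi0, hj, hj0⟩

/-- the rows of a matrix in Hermite normal form are linearly independent -/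
lemma linInd_rows {l k : ℕ} (H : Matrix (Fin l) (Fin k) ℤ) (hH : IsSHNF H) :
    LinearIndependent ℚ (fun i => (fun j => (H i j : ℚ)) : Fin l → Fin k → ℚ) := by
  obtain ⟨p, hp, hpiv, hz, _⟩ := hH.hnf
  rw [Fintype.linearIndependent_iff]
  intro c hc
  by_contra hcon
  push Not at hcon
  obtain ⟨i0, hi0⟩ := hcon
  set S : Finset (Fin l) := Finset.univ.filter (fun i => c i ≠ 0) with hS
  have hSne : S.Nonempty := ⟨i0, by rw [hS, Finset.mem_filter]; exact ⟨Finset.mem_univ _, hi0⟩⟩
  set i := S.min' hSne with hi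
  have hiS : i ∈ S := S.min'_mem hSne
  have hci : c i ≠ 0 := (Finset.mem_filter.mp hiS).2
  have h1 := congrFun hc (p i)
  rw [Finset.sum_apply, Finset.sum_eq_single i] at h1
  · rw [Pi.smul_apply, smul_eq_mul, Pi.zero_apply] at h1
    rcases mul_eq_zero.mp h1 with h2 | h2
    · exact hci h2
    · have h3 : H i (p i) = 0 := by exact_mod_cast h2
      have := hpiv i
      omega
  · intro b _ hb
    rw [Pi.smul_apply, smul_eq_mul]
    rcases lt_or_gt_of_ne hb with h2 | h2
    · have h3 : c b = 0 := by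
        by_contra h4
        have h5 : b ∈ S := by rw [hS, Finset.mem_filter]; exact ⟨Finset.mem_univ _, h4⟩
        have := S.min'_le b h5
        rw [← hi] at this
        exact absurd h2 (not_lt.mpr this)
      rw [h3, zero_mul]
    · have h3 : H b (p i) = 0 := hz b (p i) (hp h2)
      rw [h3]
      simp
  · intro h
    exact absurd (Finset.mem_univ i) h

/-- kernels of matrices of rank at least `k - 1` have rank at most one -/
lemma ker_prop {l k : ℕ} (H : Matrix (Fin l) (Fin k) ℤ) (hH : IsSHNF H) (hl : k ≤ l + 1)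
    (v v0 : Fin k → ℤ) (hv : H.mulVec v = 0) (hv0 : H.mulVec v0 = 0) (h0 : v0 ≠ 0) :
    ∃ m c : ℤ, m ≠ 0 ∧ m • v = c • v0 := by
  set M : Matrix (Fin l) (Fin k) ℚ := H.map (fun x => (x : ℚ)) with hM
  have hrank : M.rank = l := by
    have h1 : LinearIndependent ℚ M.row := linInd_rows H hH
    rw [h1.rank_matrix, Fintype.card_fin]
  have hker : Module.finrank ℚ (LinearMap.ker M.mulVecLin) ≤ 1 := by
    have h1 := LinearMap.finrank_range_add_finrank_ker M.mulVecLin
    rw [Module.finrank_fin_fun] at h1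
    have h2 : Module.finrank ℚ (LinearMap.range M.mulVecLin) = l := hrank
    omega
  have hmem : ∀ w : Fin k → ℤ, H.mulVec w = 0 → (fun j => (w j : ℚ)) ∈ LinearMap.ker M.mulVecLin := by
    intro w hw
    rw [LinearMap.mem_ker, Matrix.mulVecLin_apply]
    funext i
    have h1 := congrFun hw i
    simp only [Matrix.mulVec, dotProduct, Pi.zero_apply] at h1 ⊢
    rw [hM]
    simp only [Matrix.map_apply]
    exact_mod_cast h1
  obtain ⟨g, hg⟩ := finrank_le_one_iff.mp hker
  obtain ⟨a, ha⟩ := hg ⟨_, hmem v hv⟩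
  obtain ⟨b, hb⟩ := hg ⟨_, hmem v0 hv0⟩
  have hb0 : b ≠ 0 := by
    rintro rfl
    apply h0
    funext j
    have h1 := congrArg Subtype.val hb
    have h2 := congrFun h1 j
    simp at h2
    exact_mod_cast h2.symm
  have ha' : ∀ j, (v j : ℚ) = a * (g : Fin k → ℚ) j := by
    intro j
    have h1 := congrArg Subtype.val ha
    have h2 := congrFun h1 j
    simpa using h2.symm
  have hb' : ∀ j, (v0 j : ℚ) = b * (g : Fin k → ℚ) j := by
    intro j
    have h1 := congrArg Subtype.val hb
    have h2 := congrFun h1 j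
    simpa using h2.symm
  -- v = (a / b) v0
  refine ⟨((a / b).den : ℤ), (a / b).num, by exact_mod_cast (a / b).den_ne_zero, ?_⟩
  funext j
  rw [Pi.smul_apply, Pi.smul_apply, smul_eq_mul, smul_eq_mul]
  have h1 : ((a / b).den : ℚ) * (v j : ℚ) = ((a / b).num : ℚ) * (v0 j : ℚ) := by
    rw [ha', hb']
    have h2 : ((a / b).num : ℚ) = (a / b) * (a / b).den := (Rat.mul_den_eq_num _).symm
    rw [h2]
    field_simp
  exact_mod_cast h1

end Pool.Agent.DistinctMahler
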