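import Pool.Agent.DistinctMahler.Gap

set_option autoImplicit false

namespace Pool.Agent.DistinctMahler

lemma BB_ge_a {k : ℕ} (a : Fin k → ℕ) (E : (Fin k → SignType) → ℕ) (i : Fin k) :
    a i < BB a E := by
  have h1 : a i ≤ ∑ i, a i := Finset.single_le_sum (f := a) (fun _ _ => Nat.zero_le _)
    (Finset.mem_univ i)
  have h2 : 1 ≤ 3 ^ k := Nat.one_le_pow _ _ (by norm_num)
  unfold BB
  calc a i < ∑ i, a i + 1 := by omega
    _ = 1 * (∑ i, a i + 1) * 1 := by ring
    _ ≤ (4 * (∑ u, E u + 1)) * (∑ i, a i + 1) * 3 ^ k := by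
      apply Nat.mul_le_mul _ h2
      apply Nat.mul_le_mul_right
      omega

lemma BB_pos {k : ℕ} (a : Fin k → ℕ) (E : (Fin k → SignType) → ℕ) : 0 < BB a E := by
  unfold BB
  positivity

lemma RR_small {k : ℕ} (N : ℕ) (a : Fin k → ℕ) (E : (Fin k → SignType) → ℕ)
    (hN : 2 * BB a E ≤ N) (u : Fin k → SignType) (hu : u ∈ UU k) :
    (E u : ℝ) * RRr (al N a) u < 1 := by
  have hB := BB_pos a E
  have hNpos : 0 < N := by omega
  have hNr : (0 : ℝ) < N := by exact_mod_cast hNpos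
  set A : ℕ := ∑ i, a i + 1 with hA
  have hA1 : 1 ≤ A := by omega
  have h8 : 8 * (∑ u, E u + 1) * A ≤ N := by
    have h2 : 1 ≤ 3 ^ k := Nat.one_le_pow _ _ (by norm_num)
    calc 8 * (∑ u, E u + 1) * A = 2 * (4 * (∑ u, E u + 1) * A * 1) := by ring
      _ ≤ 2 * (4 * (∑ u, E u + 1) * A * 3 ^ k) := by
        apply Nat.mul_le_mul_left
        exact Nat.mul_le_mul_left _ h2
      _ ≤ N := hN
  have h8' : (8 : ℝ) * ((∑ u, E u : ℕ) + 1) * A ≤ N := by exact_mod_cast h8
  have hEs : (0 : ℝ) ≤ ((∑ u, E u : ℕ) : ℝ) := Nat.cast_nonneg _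
  have hAr : (1 : ℝ) ≤ A := by exact_mod_cast hA1
  have h2A : 2 * (A : ℝ) / N ≤ 1 := by
    rw [div_le_one hNr]
    nlinarith
  have hfac : ∀ i, al N a i / (1 - al N a i) ≤ 2 * (A : ℝ) / N := by
    intro i
    have h1 : al N a i ≤ (A : ℝ) / N := by
      unfold al
      apply div_le_div_of_nonneg_right _ hNr.le
      have : a i ≤ A :=
        (Finset.single_le_sum (f := a) (fun _ _ => Nat.zero_le _) (Finset.mem_univ i)).trans
          (Nat.le_succ _)
      exact_mod_cast this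
    have h2 : (A : ℝ) / N ≤ 1 / 2 := by
      have : 2 * (A : ℝ) / N = 2 * ((A : ℝ) / N) := by ring
      linarith
    have h3 := al_nonneg N a i
    have h4 : (1 : ℝ) / 2 ≤ 1 - al N a i := by linarith
    rw [div_le_iff₀ (by linarith)]
    have h5 : 2 * (A : ℝ) / N = 2 * ((A : ℝ) / N) := by ring
    rw [h5]
    have h6 : 0 ≤ (A : ℝ) / N := by positivity
    nlinarith
  have hfac0 : ∀ i, 0 ≤ al N a i / (1 - al N a i) := by
    intro i
    have h1 : al N a i < 1 := by
      unfold al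
      rw [div_lt_one hNr]
      have := BB_ge_a a E i
      have : a i < N := by omega
      exact_mod_cast this
    exact div_nonneg (al_nonneg N a i) (by linarith)
  have hR : RRr (al N a) u ≤ 2 * (A : ℝ) / N := by
    unfold UU at hu
    have hc := (Finset.mem_filter.mp hu).2
    have hne : (Finset.univ.filter (fun i => u i ≠ 0)).Nonempty := by
      rw [← Finset.card_pos]
      omega
    obtain ⟨i, hi⟩ := hne
    have hi' : u i ≠ 0 := (Finset.mem_filter.mp hi).2
    unfold RRr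
    rw [← Finset.mul_prod_erase Finset.univ _ (Finset.mem_univ i), if_neg hi']
    have h1 : ∏ l ∈ Finset.univ.erase i, (if u l = 0 then 1 else al N a l / (1 - al N a l)) ≤ 1 := by
      apply Finset.prod_le_one
      · intro l _
        split_ifs
        · exact zero_le_one
        · exact hfac0 l
      · intro l _
        split_ifs
        · exact le_rfl
        · exact (hfac l).trans h2A
    calc al N a i / (1 - al N a i) *
          ∏ l ∈ Finset.univ.erase i, (if u l = 0 then 1 else al N a l / (1 - al N a l))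
        ≤ al N a i / (1 - al N a i) * 1 := mul_le_mul_of_nonneg_left h1 (hfac0 i)
      _ ≤ 2 * (A : ℝ) / N := by rw [mul_one]; exact hfac i
  have hE : (E u : ℝ) ≤ ((∑ u, E u : ℕ) : ℝ) := by
    have := Finset.single_le_sum (f := E) (fun _ _ => Nat.zero_le _) (Finset.mem_univ u)
    exact_mod_cast this
  calc (E u : ℝ) * RRr (al N a) u ≤ ((∑ u, E u : ℕ) : ℝ) * (2 * (A : ℝ) / N) :=
        mul_le_mul hE hR (by
          unfold RRr
          apply Finset.prod_nonneg
          intro l _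
          split_ifs
          · exact zero_le_one
          · exact hfac0 l) hEs
    _ < 1 := by
      rw [← mul_div_assoc, div_lt_one hNr]
      nlinarith

lemma al_lt {k : ℕ} (N : ℕ) (a : Fin k → ℕ) (E : (Fin k → SignType) → ℕ)
    (hN : 2 * BB a E ≤ N) (i : Fin k) : al N a i < 1 := by
  have hB := BB_pos a E
  have hNpos : 0 < N := by omega
  have hNr : (0 : ℝ) < N := by exact_mod_cast hNpos
  unfold al
  rw [div_lt_one hNr]
  have := BB_ge_a a E i
  have : a i < N := by omega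
  exact_mod_cast this

/-- lower bound for signed sums of finitely many coefficients -/
lemma lower_main {k : ℕ} (K R n : ℕ) (hR : k * K ^ 2 < R) (T : Finset (Fin k → ℤ))
    (hT : T.card ≤ K) (hT2 : ∀ v ∈ T, 2 ≤ supc v) (hne : T.Nonempty) (ε : (Fin k → ℤ) → ℤ)
    (hε : ∀ v ∈ T, ε v = 1 ∨ ε v = -1) (y : ℝ) (hy : 1 ≤ y) (hTy : ∀ v ∈ T, (lenN v : ℝ) ≤ y) :
    1 ≤ ((2 ^ n : ℕ) : ℝ) ^ y * y ^ K *
      |∑ v ∈ T, (ε v : ℝ) * cc (2 ^ n) (aa k R) (EE k R) v| := by
  classical
  have hT0 : ∀ v ∈ T, v ≠ 0 := by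
    rintro v hv rfl
    have := hT2 0 hv
    simp [supc] at this
  have hS := sum_ne_zero K R n hR T hT hT0 hne ε hε
  set S : ℚ := ∑ v ∈ T, (ε v : ℚ) * qq (2 ^ n) (aa k R) (EE k R) v with hSdef
  have hSr : ∑ v ∈ T, (ε v : ℝ) * cc (2 ^ n) (aa k R) (EE k R) v = (S : ℝ) := by
    rw [hSdef]
    push_cast
    apply Finset.sum_congr rfl
    intro v hv
    rw [cc_eq_qq _ _ _ v (hT2 v hv)]
  rw [hSr]
  -- choose an index for every vector
  have hidx : ∀ v : Fin k → ℤ, ∃ i : Fin k, v ∈ T → v i ≠ 0 := by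
    intro v
    by_cases hv : v ∈ T
    · obtain ⟨i, hi⟩ := exists_ne_of_ne (hT0 v hv)
      exact ⟨i, fun _ => hi⟩
    · obtain ⟨w, hw⟩ := hne
      obtain ⟨i, _⟩ := exists_ne_of_ne (hT0 w hw)
      exact ⟨i, fun h => absurd h hv⟩
  choose idx hidx using hidx
  set m : ℕ := ⌊y⌋₊ with hm
  have hlenm : ∀ v ∈ T, lenN v ≤ m := fun v hv => Nat.le_floor (hTy v hv)
  set D : ℕ := (2 ^ n) ^ m * ∏ v ∈ T, (v (idx v)).natAbs with hD
  have hDpos : 0 < D := by
    rw [hD]
    apply Nat.mul_pos (by positivity)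
    apply Finset.prod_pos
    intro v hv
    exact Int.natAbs_pos.mpr (hidx v hv)
  have hint : ∀ v ∈ T, ∃ z : ℤ, (D : ℚ) * ((ε v : ℚ) * qq (2 ^ n) (aa k R) (EE k R) v) = z := by
    intro v hv
    obtain ⟨z, hz⟩ := qq_integral (2 ^ n) (by positivity) (aa k R) (EE k R) v (idx v) (hidx v hv)
    obtain ⟨P, hP⟩ : ∃ P : ℕ, P = ∏ w ∈ T.erase v, (w (idx w)).natAbs := ⟨_, rfl⟩
    obtain ⟨b, hb⟩ : ∃ b : ℕ, b = (v (idx v)).natAbs := ⟨_, rfl⟩
    refine ⟨ε v * ((2 ^ n) ^ (m - lenN v) * (P : ℤ)) * z, ?_⟩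
    rw [hD, ← Finset.mul_prod_erase T _ hv, ← hP, ← hb]
    rw [← hb] at hz
    have hpow : (2 ^ n) ^ m = (2 ^ n) ^ (m - lenN v) * (2 ^ n) ^ lenN v := by
      rw [← pow_add, Nat.sub_add_cancel (hlenm v hv)]
    rw [hpow]
    push_cast
    push_cast at hz
    rw [← hz]
    ring
  have hDS : ∃ z : ℤ, (D : ℚ) * S = z := by
    choose! zz hzz using hint
    refine ⟨∑ v ∈ T, zz v, ?_⟩
    rw [hSdef, Finset.mul_sum]
    push_cast
    exact Finset.sum_congr rfl hzz
  obtain ⟨z, hz⟩ := hDS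
  have hz0 : z ≠ 0 := by
    rintro rfl
    rw [Int.cast_zero, mul_eq_zero] at hz
    rcases hz with h | h
    · have : D = 0 := by exact_mod_cast h
      omega
    · exact hS h
  have h1 : (1 : ℝ) ≤ (D : ℝ) * |(S : ℝ)| := by
    have h2 : (D : ℝ) * (S : ℝ) = z := by exact_mod_cast hz
    have h3 : (1 : ℝ) ≤ |(z : ℝ)| := by
      have : 1 ≤ |z| := Int.one_le_abs hz0
      exact_mod_cast this
    rw [← h2, abs_mul, abs_of_pos (by exact_mod_cast hDpos)] at h3
    exact h3
  have hDle : (D : ℝ) ≤ ((2 ^ n : ℕ) : ℝ) ^ y * y ^ K := by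
    rw [hD]
    push_cast
    have h2n : (1 : ℝ) ≤ (2 : ℝ) ^ n := one_le_pow₀ (by norm_num)
    apply mul_le_mul
    · rw [← Real.rpow_natCast]
      apply Real.rpow_le_rpow_of_exponent_le h2n
      exact Nat.floor_le (by linarith)
    · calc ∏ v ∈ T, ((v (idx v)).natAbs : ℝ) ≤ ∏ _v ∈ T, y := by
            apply Finset.prod_le_prod
            · intro v _
              exact Nat.cast_nonneg _
            · intro v hv
              refine le_trans ?_ (hTy v hv)
              exact_mod_cast natAbs_le_lenN v (idx v)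
        _ = y ^ T.card := by rw [Finset.prod_const]
        _ ≤ y ^ K := pow_le_pow_right₀ hy hT
    · apply Finset.prod_nonneg
      intro v _
      exact Nat.cast_nonneg _
    · positivity
  calc (1 : ℝ) ≤ (D : ℝ) * |(S : ℝ)| := h1
    _ ≤ _ := mul_le_mul_of_nonneg_right hDle (abs_nonneg _)

end Pool.Agent.DistinctMahler
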