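import Pool.Agent.DistinctMahler.Count

set_option autoImplicit false

namespace Pool.Agent.DistinctMahler
open Polynomial

/-- The leading coefficient times the product of the roots outside the closed unit disc. -/
noncomputable def mu (Q : ℂ[X]) : ℂ := Q.leadingCoeff * (Q.roots.filter (fun a => 1 < ‖a‖)).prod

lemma prod_max_eq (s : Multiset ℂ) :
    (s.map (fun a => max 1 ‖a‖)).prod = ‖(s.filter (fun a => 1 < ‖a‖)).prod‖ := by
  induction s using Multiset.induction_on with
  | empty => simp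
  | cons a s ih =>
    rw [Multiset.map_cons, Multiset.prod_cons, ih]
    rcases lt_or_ge 1 ‖a‖ with h | h
    · have e1 : (a ::ₘ s).filter (fun a => 1 < ‖a‖) = a ::ₘ s.filter (fun a => 1 < ‖a‖) :=
        Multiset.filter_cons_of_pos s h
      rw [e1, Multiset.prod_cons, norm_mul, max_eq_right h.le]
    · have e1 : (a ::ₘ s).filter (fun a => 1 < ‖a‖) = s.filter (fun a => 1 < ‖a‖) :=
        Multiset.filter_cons_of_neg s (not_lt.mpr h)
      rw [e1, max_eq_left h, one_mul]

lemma norm_mu (Q : ℂ[X]) : ‖mu Q‖ = Q.mahlerMeasure := by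
  unfold mu
  rw [norm_mul, mahlerMeasure_eq_leadingCoeff_mul_prod_roots, prod_max_eq]

lemma mu_mul (P Q : ℂ[X]) (hP : P ≠ 0) (hQ : Q ≠ 0) : mu (P * Q) = mu P * mu Q := by
  unfold mu
  rw [leadingCoeff_mul, roots_mul (mul_ne_zero hP hQ), Multiset.filter_add, Multiset.prod_add]
  ring

lemma mu_one : mu 1 = 1 := by
  unfold mu
  simp

lemma mu_prod {ι : Type*} (s : Finset ι) (f : ι → ℂ[X]) (hf : ∀ i ∈ s, f i ≠ 0) :
    mu (∏ i ∈ s, f i) = ∏ i ∈ s, mu (f i) := by
  classical
  induction s using Finset.induction_on with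
  | empty => simp [mu_one]
  | insert a s ha ih =>
    rw [Finset.prod_insert ha, Finset.prod_insert ha, mu_mul _ _ (hf a (Finset.mem_insert_self a s)),
      ih (fun i hi => hf i (Finset.mem_insert_of_mem hi))]
    exact Finset.prod_ne_zero_iff.mpr (fun i hi => hf i (Finset.mem_insert_of_mem hi))

/-- integer polynomials -/
noncomputable def toC (Q : ℤ[X]) : ℂ[X] := Q.map (Int.castRingHom ℂ)

lemma toC_injective : Function.Injective toC :=
  Polynomial.map_injective _ (RingHom.injective_int _)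

lemma toC_ne_zero {Q : ℤ[X]} (hQ : Q ≠ 0) : toC Q ≠ 0 := by
  intro h
  apply hQ
  apply toC_injective
  rw [h]
  simp [toC]

lemma toC_mul (P Q : ℤ[X]) : toC (P * Q) = toC P * toC Q := by simp [toC]

lemma toC_prod {ι : Type*} (s : Finset ι) (f : ι → ℤ[X]) :
    toC (∏ i ∈ s, f i) = ∏ i ∈ s, toC (f i) := by simp [toC, Polynomial.map_prod]

lemma eval_toC (Q : ℤ[X]) (z : ℂ) : (toC Q).eval z = Q.aeval z := by
  simp [toC, eval_map, aeval_def]

lemma mu_real (Q : ℤ[X]) : (starRingEnd ℂ) (mu (toC Q)) = mu (toC Q) := by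
  set P := toC Q with hP
  have h1 : P.map (starRingEnd ℂ) = P := by
    rw [hP]
    unfold toC
    rw [Polynomial.map_map]
    congr 1
    exact RingHom.ext_int _ _
  have h2 : P.roots.map (starRingEnd ℂ) = P.roots := by
    conv_rhs => rw [← h1]
    exact ((IsAlgClosed.splits P).roots_map (starRingEnd ℂ)).symm
  have h3 : (starRingEnd ℂ) P.leadingCoeff = P.leadingCoeff := by
    conv_rhs => rw [← h1]
    rw [leadingCoeff_map]
  unfold mu
  rw [map_mul, h3, map_multiset_prod]
  congr 2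
  conv_rhs => rw [← h2]
  rw [Multiset.filter_map]
  congr 1
  apply Multiset.filter_congr
  intro a _
  simp

lemma mu_eq_or_neg (P Q : ℤ[X]) (h : ‖mu (toC P)‖ = ‖mu (toC Q)‖) :
    mu (toC P) = mu (toC Q) ∨ mu (toC P) = -mu (toC Q) := by
  obtain ⟨x, hx⟩ := Complex.conj_eq_iff_real.mp (mu_real P)
  obtain ⟨y, hy⟩ := Complex.conj_eq_iff_real.mp (mu_real Q)
  rw [hx, hy] at h ⊢
  rw [Complex.norm_real, Complex.norm_real, Real.norm_eq_abs, Real.norm_eq_abs,
    abs_eq_abs] at h
  rcases h with h | h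
  · left; rw [h]
  · right; rw [h]; simp

end Pool.Agent.DistinctMahler
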