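import Pool.Agent.DistinctMahler.Mu

set_option autoImplicit false

namespace Pool.Agent.DistinctMahler
open Polynomial

/-- A valuation on `ℂ` that is nontrivial at the prime `p`. -/
lemma exists_val (p : ℕ) (hp : p.Prime) : ∃ B : ValuationSubring ℂ,
    B.valuation (p : ℂ) < 1 := by
  set A : Subring ℂ := (Int.castRingHom ℂ).range with hA
  have hpA : (p : ℂ) ∈ A := ⟨(p : ℤ), by simp⟩
  set I : Ideal A := Ideal.span {⟨(p : ℂ), hpA⟩} with hI
  have hItop : I ≠ ⊤ := by
    intro h
    have h1 : (1 : A) ∈ I := by rw [h]; trivial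
    rw [hI, Ideal.mem_span_singleton'] at h1
    obtain ⟨⟨a, ⟨n, hn⟩⟩, ha⟩ := h1
    have h2 : (a : ℂ) * (p : ℂ) = 1 := congrArg Subtype.val ha
    rw [← hn] at h2
    have h3 : n * (p : ℤ) = 1 := by
      have : ((n * (p : ℤ) : ℤ) : ℂ) = 1 := by
        push_cast
        simpa using h2
      exact_mod_cast this
    have h4 := Int.isUnit_iff.mp (IsUnit.of_mul_eq_one_right n h3)
    have := hp.two_le
    omega
  obtain ⟨B, _, hB⟩ := Ideal.image_subset_nonunits_valuationSubring I hItop
  refine ⟨B, ?_⟩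
  have h1 : (p : ℂ) ∈ B.nonunits := by
    apply hB
    exact ⟨⟨(p : ℂ), hpA⟩, Ideal.subset_span rfl, rfl⟩
  exact (ValuationSubring.mem_nonunits_iff (A := B)).mp h1

section
variable (B : ValuationSubring ℂ)

lemma val_int_le (n : ℤ) : B.valuation (n : ℂ) ≤ 1 := by
  rw [B.valuation_le_one_iff]
  exact intCast_mem B n

lemma val_int_eq_one (p : ℕ) (hp : p.Prime) (hv : B.valuation (p : ℂ) < 1) (n : ℤ)
    (hn : ¬ (p : ℤ) ∣ n) : B.valuation (n : ℂ) = 1 := by
  apply le_antisymm (val_int_le B n)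
  by_contra hcon
  push Not at hcon
  have hco : IsCoprime (p : ℤ) n := by
    rw [Int.isCoprime_iff_gcd_eq_one]
    have h1 : Int.gcd (p : ℤ) n ∣ p := by
      have := Int.gcd_dvd_left (a := (p : ℤ)) (b := n)
      exact_mod_cast this
    rcases (Nat.dvd_prime hp).mp h1 with h | h
    · exact h
    · exfalso
      apply hn
      have := Int.gcd_dvd_right (a := (p : ℤ)) (b := n)
      rw [h] at this
      exact this
  obtain ⟨a, b, hab⟩ := hco
  have h1 : B.valuation ((a : ℂ) * (p : ℂ) + (b : ℂ) * (n : ℂ)) = 1 := by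
    have : (a : ℂ) * (p : ℂ) + (b : ℂ) * (n : ℂ) = 1 := by exact_mod_cast hab
    rw [this, map_one]
  have h2 : B.valuation ((a : ℂ) * (p : ℂ) + (b : ℂ) * (n : ℂ)) < 1 := by
    apply Valuation.map_add_lt
    · rw [map_mul]
      exact (mul_le_of_le_one_left' (val_int_le B a)).trans_lt hv
    · rw [map_mul]
      exact (mul_le_of_le_one_left' (val_int_le B b)).trans_lt hcon
  rw [h1] at h2
  exact lt_irrefl _ h2

lemma val_ne_zero {x : ℂ} (hx : x ≠ 0) : B.valuation x ≠ 0 := by
  rwa [Valuation.ne_zero_iff]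

lemma zpow_inj {x : B.ValueGroup} (h0 : x ≠ 0) (h1 : x < 1) {a b : ℤ} (h : x ^ a = x ^ b) :
    a = b := by
  have hpos : 0 < x := zero_lt_iff.mpr h0
  rcases lt_trichotomy a b with hab | hab | hab
  · exact absurd h (zpow_right_strictAnti₀ hpos h1 hab).ne'
  · exact hab
  · exact absurd h (zpow_right_strictAnti₀ hpos h1 hab).ne

lemma val_int_zpow (p : ℕ) (hp : p.Prime) (hv : B.valuation (p : ℂ) < 1) (n : ℤ) (hn : n ≠ 0) :
    ∃ z : ℤ, B.valuation (n : ℂ) = B.valuation (p : ℂ) ^ z := by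
  have hfin : FiniteMultiplicity (p : ℤ) n := by
    apply Int.finiteMultiplicity_iff.mpr
    refine ⟨?_, hn⟩
    simp only [Int.natAbs_natCast]
    exact hp.one_lt.ne'
  obtain ⟨c, hc, hc2⟩ := hfin.exists_eq_pow_mul_and_not_dvd
  refine ⟨(multiplicity (p : ℤ) n : ℤ), ?_⟩
  conv_lhs => rw [hc]
  push_cast
  rw [map_mul, map_pow, val_int_eq_one B p hp hv c hc2, mul_one, zpow_natCast]

/-- all roots have value one when the extreme coefficients are units -/
lemma val_root_eq_one (Q : ℤ[X]) (hl : B.valuation ((Q.leadingCoeff : ℤ) : ℂ) = 1)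
    (h0 : B.valuation ((Q.coeff 0 : ℤ) : ℂ) = 1) (a : ℂ) (ha : Q.aeval a = 0) :
    B.valuation a = 1 := by
  have hsum : ∑ i ∈ Finset.range (Q.natDegree + 1), ((Q.coeff i : ℤ) : ℂ) * a ^ i = 0 := by
    rw [← ha, aeval_eq_sum_range]
    apply Finset.sum_congr rfl
    intro i _
    rw [zsmul_eq_mul]
  rcases lt_trichotomy (B.valuation a) 1 with h | h | h
  · exfalso
    rw [Finset.sum_range_succ', pow_zero, mul_one] at hsum
    have h1 : B.valuation (∑ i ∈ Finset.range Q.natDegree,
        ((Q.coeff (i + 1) : ℤ) : ℂ) * a ^ (i + 1)) < 1 := by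
      apply Valuation.map_sum_lt _ one_ne_zero
      intro i _
      rw [map_mul, map_pow]
      exact (mul_le_of_le_one_left' (val_int_le B _)).trans_lt
        (pow_lt_one₀ zero_le h (by omega))
    rw [eq_neg_of_add_eq_zero_left hsum, Valuation.map_neg, h0] at h1
    exact lt_irrefl _ h1
  · exact h
  · exfalso
    rw [Finset.sum_range_succ] at hsum
    have hpow : (0 : B.ValueGroup) < B.valuation a ^ Q.natDegree :=
      pow_pos (lt_trans zero_lt_one h) _
    have h1 : B.valuation (∑ i ∈ Finset.range Q.natDegree,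
        ((Q.coeff i : ℤ) : ℂ) * a ^ i) < B.valuation a ^ Q.natDegree := by
      apply Valuation.map_sum_lt _ hpow.ne'
      intro i hi
      rw [map_mul, map_pow]
      calc B.valuation ((Q.coeff i : ℤ) : ℂ) * B.valuation a ^ i
          ≤ 1 * B.valuation a ^ i := mul_le_mul_left (val_int_le B _) _
        _ = B.valuation a ^ i := one_mul _
        _ < B.valuation a ^ Q.natDegree := pow_lt_pow_right₀ h (Finset.mem_range.mp hi)
    rw [eq_neg_of_add_eq_zero_left hsum, Valuation.map_neg, map_mul, map_pow] at h1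
    have h2 : B.valuation ((Q.coeff Q.natDegree : ℤ) : ℂ) = 1 := hl
    rw [h2, one_mul] at h1
    exact lt_irrefl _ h1

lemma val_multiset_prod (s : Multiset ℂ) (x : B.ValueGroup) (D : ℕ)
    (hs : ∀ a ∈ s, B.valuation a ^ D = x) : B.valuation s.prod ^ D = x ^ s.card := by
  induction s using Multiset.induction_on with
  | empty => simp
  | cons a s ih =>
    rw [Multiset.prod_cons, map_mul, mul_pow, hs a (Multiset.mem_cons_self a s),
      ih (fun b hb => hs b (Multiset.mem_cons_of_mem hb)), Multiset.card_cons, pow_succ']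

lemma aeval_of_mem_roots (Q : ℤ[X]) (a : ℂ) (ha : a ∈ (toC Q).roots) : Q.aeval a = 0 := by
  rw [← eval_toC]
  exact isRoot_of_mem_roots ha

lemma leadingCoeff_toC (Q : ℤ[X]) : (toC Q).leadingCoeff = ((Q.leadingCoeff : ℤ) : ℂ) := by
  unfold toC
  rw [leadingCoeff_map_of_injective (RingHom.injective_int _)]
  simp

/-- `mu` is a unit when the extreme coefficients are units -/
lemma val_mu_eq_one (Q : ℤ[X]) (hl : B.valuation ((Q.leadingCoeff : ℤ) : ℂ) = 1)
    (h0 : B.valuation ((Q.coeff 0 : ℤ) : ℂ) = 1) : B.valuation (mu (toC Q)) = 1 := by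
  have h1 := val_multiset_prod B ((toC Q).roots.filter (fun a => 1 < ‖a‖)) 1 1 (by
    intro a ha
    rw [pow_one]
    exact val_root_eq_one B Q hl h0 a (aeval_of_mem_roots Q a (Multiset.mem_of_mem_filter ha)))
  rw [pow_one, one_pow] at h1
  unfold mu
  rw [map_mul, h1, mul_one, leadingCoeff_toC, hl]

end

end Pool.Agent.DistinctMahler
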