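import Pool.Agent.DistinctMahler.Good

set_option autoImplicit false

namespace Pool.Agent.DistinctMahler

lemma lenN_zero {k : ℕ} : lenN (0 : Fin k → ℤ) = 0 := by simp [lenN]

lemma eq_zero_of_lenN {k : ℕ} {v : Fin k → ℤ} (h : lenN v = 0) : v = 0 := by
  by_contra hne
  have := lenN_pos hne
  omega

lemma lenN_cast {k : ℕ} (v : Fin k → ℤ) : (lenN v : ℝ) = ∑ i, |(v i : ℝ)| := by
  unfold lenN
  push_cast
  apply Finset.sum_congr rfl
  intro i _
  rw [Nat.cast_natAbs]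
  push_cast
  rfl

/-- the packing bound -/
lemma packing {k : ℕ} (hk : 1 ≤ k) (L : AddSubgroup (Fin k → ℤ)) (δ M : ℝ) (hδ : 0 < δ)
    (hL : ∀ v ∈ L, v ≠ 0 → δ ≤ lenN v) (Q : ℕ) (hQ : M * (k + 1) / δ ≤ Q)
    (T : Finset (Fin k → ℤ)) (hT : ∀ v ∈ T, v ∈ L ∧ (lenN v : ℝ) ≤ M) :
    T.card ≤ (2 * Q + 1) ^ k := by
  have hkpos : (0 : ℝ) < k + 1 := by positivity
  let φ : (Fin k → ℤ) → (Fin k → ℤ) := fun v i => ⌊(v i : ℝ) * (k + 1) / δ⌋
  have hcard : (Fintype.piFinset (fun _ : Fin k => Finset.Icc (-(Q : ℤ)) (Q : ℤ))).card =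
      (2 * Q + 1) ^ k := by
    rw [Fintype.card_piFinset]
    simp only [Int.card_Icc, Finset.prod_const, Finset.card_univ, Fintype.card_fin]
    congr 1
    omega
  rw [← hcard]
  apply Finset.card_le_card_of_injOn φ
  · intro v hv
    rw [Finset.mem_coe, Fintype.mem_piFinset]
    intro i
    obtain ⟨_, h2⟩ := hT v hv
    rw [lenN_cast] at h2
    have h3 : |(v i : ℝ)| ≤ M :=
      (Finset.single_le_sum (f := fun i => |(v i : ℝ)|) (fun _ _ => abs_nonneg _)
        (Finset.mem_univ i)).trans h2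
    have h4 : |(v i : ℝ) * (k + 1) / δ| ≤ Q := by
      rw [abs_div, abs_mul, abs_of_pos hkpos, abs_of_pos hδ]
      refine le_trans ?_ hQ
      gcongr
    obtain ⟨h5, h6⟩ := abs_le.mp h4
    rw [Finset.mem_Icc]
    constructor
    · apply Int.le_floor.mpr
      push_cast
      exact h5
    · have h7 : ((⌊(v i : ℝ) * (k + 1) / δ⌋ : ℤ) : ℝ) ≤ ((Q : ℤ) : ℝ) := by
        refine (Int.floor_le _).trans ?_
        push_cast
        exact h6
      change ⌊(v i : ℝ) * (k + 1) / δ⌋ ≤ (Q : ℤ)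
      exact_mod_cast h7
  · intro v hv w hw hvw
    by_contra hne
    have hsub : v - w ∈ L := L.sub_mem (hT v hv).1 (hT w hw).1
    have h1 := hL (v - w) hsub (sub_ne_zero.mpr hne)
    rw [lenN_cast] at h1
    have h2 : ∀ i ∈ (Finset.univ : Finset (Fin k)), |((v - w) i : ℝ)| < δ / (k + 1) := by
      intro i _
      have h3 : ⌊(v i : ℝ) * (k + 1) / δ⌋ = ⌊(w i : ℝ) * (k + 1) / δ⌋ := congrFun hvw i
      have h4 := Int.abs_sub_lt_one_of_floor_eq_floor h3
      have h5 : (v i : ℝ) * (k + 1) / δ - (w i : ℝ) * (k + 1) / δ =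
          ((v i : ℝ) - w i) * (k + 1) / δ := by ring
      rw [h5, abs_div, abs_mul, abs_of_pos hkpos, abs_of_pos hδ, div_lt_one hδ] at h4
      rw [lt_div_iff₀ hkpos]
      simpa using h4
    have hne' : (Finset.univ : Finset (Fin k)).Nonempty := ⟨⟨0, hk⟩, Finset.mem_univ _⟩
    have h6 := Finset.sum_lt_sum_of_nonempty hne' h2
    rw [Finset.sum_const, Finset.card_univ, Fintype.card_fin, nsmul_eq_mul] at h6
    have h7 : (k : ℝ) * (δ / (k + 1)) ≤ δ := by
      rw [← mul_div_assoc, div_le_iff₀ hkpos]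
      nlinarith
    linarith

/-- pigeonhole for a gap in the lengths -/
lemma exists_gap {α : Type*} (len : α → ℝ) (T : Set α) (s : ℝ) (hs : 0 < s) (K : ℕ)
    (hcard : ∀ F : Finset α, (∀ v ∈ F, v ∈ T ∧ len v ≤ 2 * s) → F.card ≤ K) :
    ∃ y : ℝ, s ≤ y ∧ y ≤ 2 * s ∧
      ∀ v ∈ T, len v ≤ y ∨ (2 : ℝ) ^ ((1 : ℝ) / (K + 1)) * y < len v := by
  classical
  set θ : ℝ := (2 : ℝ) ^ ((1 : ℝ) / (K + 1)) with hθ
  have hKpos : (0 : ℝ) < K + 1 := by positivity
  have hθ1 : 1 ≤ θ := Real.one_le_rpow (by norm_num) (by positivity)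
  have hθK : θ ^ (K + 1) = 2 := by
    rw [hθ, ← Real.rpow_natCast, ← Real.rpow_mul (by norm_num)]
    push_cast
    rw [one_div_mul_cancel hKpos.ne', Real.rpow_one]
  by_contra hcon
  push Not at hcon
  have h1 : ∀ i : ℕ, i ≤ K → ∃ v ∈ T, s * θ ^ i < len v ∧ len v ≤ s * θ ^ (i + 1) := by
    intro i hi
    have h2 := hcon (s * θ ^ i) (le_mul_of_one_le_right hs.le (one_le_pow₀ hθ1)) (by
      have : θ ^ i ≤ θ ^ (K + 1) := pow_le_pow_right₀ hθ1 (by omega)
      rw [hθK] at this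
      nlinarith)
    obtain ⟨v, hv, h3, h4⟩ := h2
    refine ⟨v, hv, h3, ?_⟩
    rw [pow_succ]
    linarith
  have : Nonempty α := ⟨(h1 0 (Nat.zero_le _)).choose⟩
  choose! f hf1 hf2 hf3 using h1
  have hinj : Set.InjOn f ((Finset.range (K + 1) : Finset ℕ) : Set ℕ) := by
    intro i hi j hj hij
    simp only [Finset.coe_range, Set.mem_Iio] at hi hj
    by_contra hne
    rcases Nat.lt_or_gt_of_ne hne with h | h
    · have h5 := hf3 i (by omega)
      have h6 := hf2 j (by omega)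
      rw [hij] at h5
      have h7 : s * θ ^ (i + 1) ≤ s * θ ^ j :=
        mul_le_mul_of_nonneg_left (pow_le_pow_right₀ hθ1 (by omega)) hs.le
      linarith
    · have h5 := hf3 j (by omega)
      have h6 := hf2 i (by omega)
      rw [← hij] at h5
      have h7 : s * θ ^ (j + 1) ≤ s * θ ^ i :=
        mul_le_mul_of_nonneg_left (pow_le_pow_right₀ hθ1 (by omega)) hs.le
      linarith
  have h8 := hcard ((Finset.range (K + 1)).image f) (by
    intro v hv
    obtain ⟨i, hi, rfl⟩ := Finset.mem_image.mp hv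
    have hi' : i ≤ K := by
      have := Finset.mem_range.mp hi
      omega
    refine ⟨hf1 i hi', (hf3 i hi').trans ?_⟩
    have : θ ^ (i + 1) ≤ θ ^ (K + 1) := pow_le_pow_right₀ hθ1 (by omega)
    rw [hθK] at this
    nlinarith)
  rw [Finset.card_image_of_injOn hinj, Finset.card_range] at h8
  omega

end Pool.Agent.DistinctMahler
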