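import Pool.Agent.DistinctMahler.Axis

set_option autoImplicit false

namespace Pool.Agent.DistinctMahler

/-- The building block attached to a sign vector `u`. -/
noncomputable def Gp {k : ℕ} (N : ℕ) (a : Fin k → ℕ) (E : ℕ) (u : Fin k → SignType) :
    MvPolynomial (Fin k) ℤ :=
  (∏ i, if u i = 0 then 1 else if u i = 1 then
      (MvPolynomial.C (N : ℤ) - MvPolynomial.C (a i : ℤ) * MvPolynomial.X i)
    else (MvPolynomial.C (N : ℤ) * MvPolynomial.X i - MvPolynomial.C (a i : ℤ))) -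
  MvPolynomial.C (E : ℤ) * ∏ i, if u i = 0 then 1 else if u i = 1 then
      MvPolynomial.C (a i : ℤ) * MvPolynomial.X i
    else MvPolynomial.C (a i : ℤ)

/-- the ratios `a_i / N` -/
noncomputable def al {k : ℕ} (N : ℕ) (a : Fin k → ℕ) (i : Fin k) : ℝ := (a i : ℝ) / N

lemma al_nonneg {k : ℕ} (N : ℕ) (a : Fin k → ℕ) (i : Fin k) : 0 ≤ al N a i := by
  unfold al; positivity

lemma eval_Gp {k : ℕ} (N : ℕ) (hN : N ≠ 0) (a : Fin k → ℕ) (haN : ∀ i, al N a i < 1) (E : ℕ)
    (u : Fin k → SignType) (θ : Fin k → ℝ) :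
    (MvPolynomial.aeval (fun j => ee (θ j)) (Gp N a E u) : ℂ) =
      (∏ i, if u i = 0 then 1 else if u i = 1 then (N : ℂ) else (N : ℂ) * ee (θ i)) *
      (∏ i, if u i = 0 then 1 else (1 - pt (al N a) u θ i)) *
      (1 - (E : ℂ) * RR u (pt (al N a) u θ)) := by
  have hN' : (N : ℂ) ≠ 0 := by exact_mod_cast hN
  have hne : ∀ i, (1 - pt (al N a) u θ i) ≠ 0 := by
    intro i h
    have h1 : pt (al N a) u θ i = 1 := (sub_eq_zero.mp h).symm
    have h2 := norm_pt (al N a) (al_nonneg N a) u θ i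
    rw [h1, norm_one] at h2
    exact absurd h2.symm (haN i).ne
  have e1 : (MvPolynomial.aeval (fun j => ee (θ j)) (Gp N a E u) : ℂ) =
      (∏ i, if u i = 0 then 1 else if u i = 1 then ((N : ℂ) - (a i : ℂ) * ee (θ i))
        else ((N : ℂ) * ee (θ i) - (a i : ℂ))) -
      (E : ℂ) * ∏ i, if u i = 0 then 1 else if u i = 1 then (a i : ℂ) * ee (θ i)
        else (a i : ℂ) := by
    unfold Gp
    simp only [map_sub, map_mul, map_prod, MvPolynomial.aeval_C]
    congr 1
    · apply Finset.prod_congr rfl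
      intro i _
      split_ifs <;> simp
    · congr 1
      apply Finset.prod_congr rfl
      intro i _
      split_ifs <;> simp
  have hx1 : ∀ i, u i = 1 → (a i : ℂ) * ee (θ i) = (N : ℂ) * pt (al N a) u θ i := by
    intro i hi
    unfold pt al
    rw [hi]
    push_cast
    simp only [SignType.coe_one]
    field_simp
  have hx2 : ∀ i, u i = -1 → (a i : ℂ) = (N : ℂ) * ee (θ i) * pt (al N a) u θ i := by
    intro i hi
    unfold pt al
    rw [hi]
    have h3 : ee (θ i) * ee ((((-1 : SignType) : ℤ) : ℝ) * θ i) = 1 := by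
      rw [← ee_add]
      simp [ee_zero]
    rw [Complex.ofReal_div, Complex.ofReal_natCast, Complex.ofReal_natCast]
    calc (a i : ℂ) = (N : ℂ) * ((a i : ℂ) / N) * 1 := by field_simp
      _ = (N : ℂ) * ((a i : ℂ) / N) * (ee (θ i) * ee ((((-1 : SignType) : ℤ) : ℝ) * θ i)) := by
          rw [h3]
      _ = _ := by ring
  have hcases : ∀ i, u i ≠ 0 → u i ≠ 1 → u i = -1 := by
    intro i h0 h1
    cases h : u i with
    | zero => exact absurd h h0
    | neg => rfl
    | pos => exact absurd h h1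
  have e2 : (∏ i, if u i = 0 then 1 else if u i = 1 then ((N : ℂ) - (a i : ℂ) * ee (θ i))
        else ((N : ℂ) * ee (θ i) - (a i : ℂ))) =
      (∏ i, if u i = 0 then 1 else if u i = 1 then (N : ℂ) else (N : ℂ) * ee (θ i)) *
      (∏ i, if u i = 0 then 1 else (1 - pt (al N a) u θ i)) := by
    rw [← Finset.prod_mul_distrib]
    apply Finset.prod_congr rfl
    intro i _
    by_cases h0 : u i = 0
    · simp [h0]
    · by_cases h1 : u i = 1
      · rw [if_neg h0, if_neg h0, if_neg h0, if_pos h1, if_pos h1, hx1 i h1]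
        ring
      · rw [if_neg h0, if_neg h0, if_neg h0, if_neg h1, if_neg h1]
        conv_lhs => rw [hx2 i (hcases i h0 h1)]
        ring
  have e3 : (∏ i, if u i = 0 then 1 else if u i = 1 then (a i : ℂ) * ee (θ i) else (a i : ℂ)) =
      (∏ i, if u i = 0 then 1 else if u i = 1 then (N : ℂ) else (N : ℂ) * ee (θ i)) *
      (∏ i, if u i = 0 then 1 else (1 - pt (al N a) u θ i)) * RR u (pt (al N a) u θ) := by
    unfold RR
    rw [← Finset.prod_mul_distrib, ← Finset.prod_mul_distrib]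
    apply Finset.prod_congr rfl
    intro i _
    by_cases h0 : u i = 0
    · simp [h0]
    · have hcancel : (1 - pt (al N a) u θ i) * (pt (al N a) u θ i / (1 - pt (al N a) u θ i)) =
          pt (al N a) u θ i := mul_div_cancel₀ _ (hne i)
      by_cases h1 : u i = 1
      · rw [if_neg h0, if_neg h0, if_neg h0, if_neg h0, if_pos h1, if_pos h1, hx1 i h1,
          mul_assoc, hcancel]
      · rw [if_neg h0, if_neg h0, if_neg h0, if_neg h0, if_neg h1, if_neg h1, mul_assoc, hcancel]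
        exact hx2 i (hcases i h0 h1)
  rw [e1, e2, e3]
  ring

lemma one_sub_pt_ne {k : ℕ} (α : Fin k → ℝ) (hα : ∀ i, 0 ≤ α i) (hα1 : ∀ i, α i < 1)
    (u : Fin k → SignType) (θ : Fin k → ℝ) (i : Fin k) : (1 - pt α u θ i) ≠ 0 := by
  intro h
  have h1 : pt α u θ i = 1 := (sub_eq_zero.mp h).symm
  have h2 := norm_pt α hα u θ i
  rw [h1, norm_one] at h2
  exact absurd h2.symm (hα1 i).ne

lemma one_sub_RR_ne {k : ℕ} (α : Fin k → ℝ) (hα : ∀ i, 0 ≤ α i) (hα1 : ∀ i, α i < 1)
    (E : ℕ) (u : Fin k → SignType) (hER : (E : ℝ) * RRr α u < 1) (θ : Fin k → ℝ) :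
    (1 - (E : ℂ) * RR u (pt α u θ)) ≠ 0 := by
  intro h
  have h1 : (E : ℂ) * RR u (pt α u θ) = 1 := (sub_eq_zero.mp h).symm
  have h2 : ‖(E : ℂ) * RR u (pt α u θ)‖ < 1 := by
    rw [norm_mul, Complex.norm_natCast]
    exact lt_of_le_of_lt (mul_le_mul_of_nonneg_left (norm_RR_le α hα hα1 u θ)
      (Nat.cast_nonneg E)) hER
  rw [h1, norm_one] at h2
  exact lt_irrefl _ h2

lemma log_norm_Gp {k : ℕ} (N : ℕ) (hN : N ≠ 0) (a : Fin k → ℕ) (haN : ∀ i, al N a i < 1) (E : ℕ)
    (u : Fin k → SignType) (hER : (E : ℝ) * RRr (al N a) u < 1) (θ : Fin k → ℝ) :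
    (MvPolynomial.aeval (fun j => ee (θ j)) (Gp N a E u) : ℂ) ≠ 0 ∧
    Real.log ‖(MvPolynomial.aeval (fun j => ee (θ j)) (Gp N a E u) : ℂ)‖ =
      (∑ i, if u i = 0 then 0 else Real.log N) +
      ((∑ i, if u i = 0 then 0 else
        Real.log ‖1 - (al N a i : ℂ) * ee (((u i : ℤ) : ℝ) * θ i)‖) +
      Real.log ‖1 - (E : ℂ) * RR u (pt (al N a) u θ)‖) := by
  have hN' : (N : ℂ) ≠ 0 := by exact_mod_cast hN
  have hee : ∀ x, ee x ≠ 0 := by
    intro x h
    have := norm_ee x
    rw [h, norm_zero] at this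
    exact zero_ne_one this
  rw [eval_Gp N hN a haN E u θ]
  have h3 := one_sub_RR_ne (al N a) (al_nonneg N a) haN E u hER θ
  have h2 : (∏ i, if u i = 0 then 1 else (1 - pt (al N a) u θ i)) ≠ 0 := by
    rw [Finset.prod_ne_zero_iff]
    intro i _
    split_ifs
    · exact one_ne_zero
    · exact one_sub_pt_ne _ (al_nonneg N a) haN u θ i
  have h1 : (∏ i, if u i = 0 then 1 else if u i = 1 then (N : ℂ) else (N : ℂ) * ee (θ i)) ≠ 0 := by
    rw [Finset.prod_ne_zero_iff]
    intro i _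
    split_ifs
    · exact one_ne_zero
    · exact hN'
    · exact mul_ne_zero hN' (hee _)
  refine ⟨mul_ne_zero (mul_ne_zero h1 h2) h3, ?_⟩
  rw [norm_mul, norm_mul, Real.log_mul (mul_ne_zero (norm_ne_zero_iff.mpr h1)
    (norm_ne_zero_iff.mpr h2)) (norm_ne_zero_iff.mpr h3),
    Real.log_mul (norm_ne_zero_iff.mpr h1) (norm_ne_zero_iff.mpr h2), add_assoc]
  congr 1
  · rw [norm_prod, Real.log_prod]
    · apply Finset.sum_congr rfl
      intro i _
      split_ifs
      · simp
      · simp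
      · rw [norm_mul, norm_ee, mul_one, Complex.norm_natCast]
    · intro i _
      apply norm_ne_zero_iff.mpr
      exact Finset.prod_ne_zero_iff.mp h1 i (Finset.mem_univ i)
  · congr 1
    rw [norm_prod, Real.log_prod]
    · apply Finset.sum_congr rfl
      intro i _
      split_ifs
      · simp
      · rfl
    · intro i _
      apply norm_ne_zero_iff.mpr
      exact Finset.prod_ne_zero_iff.mp h2 i (Finset.mem_univ i)

/-- sign vectors with at least two nonzero entries -/
def UU (k : ℕ) : Finset (Fin k → SignType) :=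
  Finset.univ.filter (fun u => 2 ≤ (Finset.univ.filter (fun i => u i ≠ 0)).card)

/-- the polynomial -/
noncomputable def FF {k : ℕ} (N : ℕ) (a : Fin k → ℕ) (E : (Fin k → SignType) → ℕ) :
    MvPolynomial (Fin k) ℤ := ∏ u ∈ UU k, Gp N a (E u) u

/-- the Fourier coefficients of `log |F|` (cosine form) -/
noncomputable def cc {k : ℕ} (N : ℕ) (a : Fin k → ℕ) (E : (Fin k → SignType) → ℕ)
    (v : Fin k → ℤ) : ℝ :=
  ∑ u ∈ UU k, ((if v = 0 then (∑ i, if u i = 0 then 0 else Real.log N) else 0) +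
    ((∑ i, if u i = 0 then 0 else cA (al N a) i (u i) v) + cR (E u) (al N a) u v))

lemma FF_expansion {k : ℕ} (N : ℕ) (hN : N ≠ 0) (a : Fin k → ℕ) (haN : ∀ i, al N a i < 1)
    (E : (Fin k → SignType) → ℕ) (hER : ∀ u ∈ UU k, (E u : ℝ) * RRr (al N a) u < 1) :
    Summable (cc N a E) ∧ ∀ θ : Fin k → ℝ,
    (MvPolynomial.aeval (fun j => ee (θ j)) (FF N a E) : ℂ) ≠ 0 ∧
    HasSum (fun v => cc N a E v * Real.cos (2 * Real.pi * ∑ j, (v j : ℝ) * θ j))
      (Real.log ‖(MvPolynomial.aeval (fun j => ee (θ j)) (FF N a E) : ℂ)‖) := by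
  have hα := al_nonneg N a
  have key : ∀ θ : Fin k → ℝ,
    (MvPolynomial.aeval (fun j => ee (θ j)) (FF N a E) : ℂ) ≠ 0 ∧
    HasSum (fun v => cc N a E v * Real.cos (2 * Real.pi * ∑ j, (v j : ℝ) * θ j))
      (Real.log ‖(MvPolynomial.aeval (fun j => ee (θ j)) (FF N a E) : ℂ)‖) := by
    intro θ
    have hne : ∀ u ∈ UU k, (MvPolynomial.aeval (fun j => ee (θ j)) (Gp N a (E u) u) : ℂ) ≠ 0 :=
      fun u hu => (log_norm_Gp N hN a haN (E u) u (hER u hu) θ).1
    have e1 : (MvPolynomial.aeval (fun j => ee (θ j)) (FF N a E) : ℂ) =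
        ∏ u ∈ UU k, (MvPolynomial.aeval (fun j => ee (θ j)) (Gp N a (E u) u) : ℂ) := by
      unfold FF
      rw [map_prod]
    rw [e1]
    refine ⟨Finset.prod_ne_zero_iff.mpr hne, ?_⟩
    rw [norm_prod, Real.log_prod (fun u hu => norm_ne_zero_iff.mpr (hne u hu))]
    unfold cc
    simp_rw [Finset.sum_mul]
    apply hasSum_sum
    intro u hu
    rw [(log_norm_Gp N hN a haN (E u) u (hER u hu) θ).2]
    simp_rw [add_mul]
    apply HasSum.add
    · convert hasSum_ite_eq (0 : Fin k → ℤ) (∑ i, if u i = 0 then 0 else Real.log N) using 1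
      funext v
      split_ifs with h
      · subst h
        simp
      · simp
    · apply HasSum.add
      · simp_rw [Finset.sum_mul]
        apply hasSum_sum
        intro i _
        split_ifs with h
        · simpa using hasSum_zero
        · exact A_part (al N a) i (hα i) (haN i) (u i) h θ
      · have := R_part (E u : ℝ) (Nat.cast_nonneg _) (al N a) hα haN u (hER u hu) θ
        simpa using this
  refine ⟨?_, key⟩
  have h := (key 0).2.summable
  refine h.congr ?_
  intro v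
  simp

end Pool.Agent.DistinctMahler
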