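import Pool.Agent.DistinctMahler.Final

set_option autoImplicit false

namespace Pool.Agent.DistinctMahler
open Filter Topology

/-- the limit of a sequence of subgroups along an ultrafilter -/
def limL {k : ℕ} (U : Ultrafilter ℕ) (L : ℕ → AddSubgroup (Fin k → ℤ)) :
    AddSubgroup (Fin k → ℤ) where
  carrier := {v | ∀ᶠ n in (U : Filter ℕ), v ∈ L n}
  zero_mem' := Eventually.of_forall (fun n => (L n).zero_mem)
  add_mem' := by
    intro a b ha hb
    filter_upwards [ha, hb] with n h1 h2
    exact (L n).add_mem h1 h2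
  neg_mem' := by
    intro a ha
    filter_upwards [ha] with n h1
    exact (L n).neg_mem h1

lemma mem_limL {k : ℕ} (U : Ultrafilter ℕ) (L : ℕ → AddSubgroup (Fin k → ℤ)) (v : Fin k → ℤ) :
    v ∈ limL U L ↔ ∀ᶠ n in (U : Filter ℕ), v ∈ L n := Iff.rfl

lemma limL_le {k : ℕ} (U : Ultrafilter ℕ) (L : ℕ → AddSubgroup (Fin k → ℤ)) :
    ∀ᶠ n in (U : Filter ℕ), limL U L ≤ L n := by
  have hfg : (AddSubgroup.toIntSubmodule (limL U L)).FG := IsNoetherian.noetherian _
  obtain ⟨S, hS⟩ := hfg
  have h1 : ∀ᶠ n in (U : Filter ℕ), ∀ s ∈ S, s ∈ L n := by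
    rw [Filter.eventually_all_finset]
    intro s hs
    have : s ∈ AddSubgroup.toIntSubmodule (limL U L) := by
      rw [← hS]
      exact Submodule.subset_span hs
    exact this
  filter_upwards [h1] with n hn
  intro v hv
  have hv' : v ∈ Submodule.span ℤ (S : Set (Fin k → ℤ)) := by
    rw [hS]
    exact hv
  have h2 : Submodule.span ℤ (S : Set (Fin k → ℤ)) ≤ AddSubgroup.toIntSubmodule (L n) :=
    Submodule.span_le.mpr (fun s hs => hn s hs)
  exact h2 hv'

open Classical in
lemma exists_lt_pair {k : ℕ} (c : (Fin k → ℤ) → ℝ) (hc : Summable c)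
    (hneg : ∀ v, v ≠ 0 → c v < 0) (L : ℕ → AddSubgroup (Fin k → ℤ)) (hL : Function.Injective L) :
    ∃ a b, a < b ∧ ∑' v, (if v ∈ L a then c v else 0) < ∑' v, (if v ∈ L b then c v else 0) := by
  by_contra hcon
  push Not at hcon
  let U : Ultrafilter ℕ := hyperfilter ℕ
  have hlim : Tendsto (fun n => ∑' v, (if v ∈ L n then c v else 0)) (U : Filter ℕ)
      (𝓝 (∑' v, (if v ∈ limL U L then c v else 0))) := by
    apply tendsto_tsum_of_dominated_convergence hc.norm
    · intro v
      apply tendsto_const_nhds.congr'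
      by_cases hv : v ∈ limL U L
      · filter_upwards [(mem_limL U L v).mp hv] with n hn
        rw [if_pos hv, if_pos hn]
      · have h1 : ∀ᶠ n in (U : Filter ℕ), v ∉ L n := by
          rw [Ultrafilter.eventually_not]
          exact fun h => hv h
        filter_upwards [h1] with n hn
        rw [if_neg hv, if_neg hn]
    · apply Eventually.of_forall
      intro n v
      split_ifs
      · exact le_rfl
      · rw [norm_zero]; exact norm_nonneg _
  have hne : ∀ᶠ n in (U : Filter ℕ), L n ≠ limL U L := by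
    have hfin : {n | L n = limL U L}.Finite := by
      apply Set.Subsingleton.finite
      intro a ha b hb
      exact hL (ha.trans hb.symm)
    have h1 : {n | L n = limL U L}ᶜ ∈ (U : Filter ℕ) :=
      hyperfilter_le_cofinite hfin.compl_mem_cofinite
    exact h1
  obtain ⟨n, hn1, hn2⟩ := ((limL_le U L).and hne).exists
  have hlt := strict_mono_sum c hc hneg (limL U L) (L n) hn1 hn2.symm
  have hev : ∀ᶠ m in (U : Filter ℕ), ∑' v, (if v ∈ L m then c v else 0) ≤
      ∑' v, (if v ∈ L n then c v else 0) := by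
    have h1 : {m | n < m} ∈ (U : Filter ℕ) := by
      apply hyperfilter_le_cofinite
      rw [Filter.mem_cofinite]
      apply (Set.finite_le_nat n).subset
      intro m hm
      simpa using hm
    filter_upwards [h1] with m hm
    exact hcon n m hm
  have := le_of_tendsto hlim hev
  linarith

open Classical in
lemma exists_increasing_subseq {k : ℕ} (c : (Fin k → ℤ) → ℝ) (hc : Summable c)
    (hneg : ∀ v, v ≠ 0 → c v < 0) (L : ℕ → AddSubgroup (Fin k → ℤ)) (hL : Function.Injective L) :
    ∃ φ : ℕ → ℕ, StrictMono φ ∧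
      StrictMono (fun n => ∑' v, (if v ∈ L (φ n) then c v else 0)) := by
  obtain ⟨g, hg | hg⟩ := exists_increasing_or_nonincreasing_subseq (· < ·)
    (fun n => ∑' v, (if v ∈ L n then c v else 0))
  · exact ⟨g, g.strictMono, fun a b hab => hg a b hab⟩
  · exfalso
    obtain ⟨a, b, hab, hlt⟩ := exists_lt_pair c hc hneg (fun n => L (g n))
      (hL.comp g.strictMono.injective)
    exact hg a b hab hlt

end Pool.Agent.DistinctMahler
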