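import Pool.Agent.DistinctMahler.GapT

set_option autoImplicit false

namespace Pool.Agent.DistinctMahler

/-- coefficients of `log |Gp|` -/
noncomputable def cG {k : ℕ} (N : ℕ) (a : Fin k → ℕ) (E : ℕ) (u : Fin k → SignType)
    (v : Fin k → ℤ) : ℝ :=
  (if v = 0 then (∑ i, if u i = 0 then 0 else Real.log N) else 0) +
    ((∑ i, if u i = 0 then 0 else cA (al N a) i (u i) v) + cR E (al N a) u v)

lemma Gp_expansion {k : ℕ} (N : ℕ) (hN : N ≠ 0) (a : Fin k → ℕ) (haN : ∀ i, al N a i < 1)
    (E : ℕ) (u : Fin k → SignType) (hER : (E : ℝ) * RRr (al N a) u < 1) :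
    Summable (cG N a E u) ∧ ∀ θ : Fin k → ℝ,
    (MvPolynomial.aeval (fun j => ee (θ j)) (Gp N a E u) : ℂ) ≠ 0 ∧
    HasSum (fun v => cG N a E u v * Real.cos (2 * Real.pi * ∑ j, (v j : ℝ) * θ j))
      (Real.log ‖(MvPolynomial.aeval (fun j => ee (θ j)) (Gp N a E u) : ℂ)‖) := by
  have hα := al_nonneg N a
  have key : ∀ θ : Fin k → ℝ,
    (MvPolynomial.aeval (fun j => ee (θ j)) (Gp N a E u) : ℂ) ≠ 0 ∧
    HasSum (fun v => cG N a E u v * Real.cos (2 * Real.pi * ∑ j, (v j : ℝ) * θ j))
      (Real.log ‖(MvPolynomial.aeval (fun j => ee (θ j)) (Gp N a E u) : ℂ)‖) := by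
    intro θ
    refine ⟨(log_norm_Gp N hN a haN E u hER θ).1, ?_⟩
    rw [(log_norm_Gp N hN a haN E u hER θ).2]
    unfold cG
    simp_rw [add_mul]
    apply HasSum.add
    · convert hasSum_ite_eq (0 : Fin k → ℤ) (∑ i, if u i = 0 then 0 else Real.log N) using 1
      funext v
      split_ifs with h
      · subst h
        simp
      · simp
    · apply HasSum.add
      · simp_rw [Finset.sum_mul]
        apply hasSum_sum
        intro i _
        split_ifs with h
        · simp only [zero_mul]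
          exact hasSum_zero
        · exact A_part (al N a) i (hα i) (haN i) (u i) h θ
      · have := R_part (E : ℝ) (Nat.cast_nonneg _) (al N a) hα haN u hER θ
        simpa using this
  refine ⟨?_, key⟩
  have h := (key 0).2.summable
  refine h.congr ?_
  intro v
  simp

lemma cA_nonpos {k : ℕ} (N : ℕ) (a : Fin k → ℕ) (i : Fin k) (s : SignType) (v : Fin k → ℤ) :
    cA (al N a) i s v ≤ 0 := by
  unfold cA
  split_ifs
  · have := al_nonneg N a i
    rw [neg_nonpos]
    positivity
  · exact le_rfl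

lemma cG_nonpos {k : ℕ} (N : ℕ) (a : Fin k → ℕ) (E : ℕ) (u : Fin k → SignType)
    (v : Fin k → ℤ) (hv : v ≠ 0) : cG N a E u v ≤ 0 := by
  unfold cG
  rw [if_neg hv, zero_add]
  apply add_nonpos
  · apply Finset.sum_nonpos
    intro i _
    split_ifs
    · exact le_rfl
    · exact cA_nonpos N a i _ v
  · unfold cR
    rw [neg_nonpos]
    exact tsum_nonneg (fun j => gg_nonneg _ (Nat.cast_nonneg _) _ (al_nonneg N a) u j v)

lemma lenN_of_sgn_single {k : ℕ} (i : Fin k) (s : SignType) (v : Fin k → ℤ)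
    (h : sgn v = Pi.single i s) : lenN v = (v i).natAbs := by
  unfold lenN
  apply Finset.sum_eq_single i
  · intro l _ hl
    have := congrFun h l
    rw [Pi.single_eq_of_ne hl] at this
    rw [sign_eq_zero_iff.mp this]
    rfl
  · intro h
    exact absurd (Finset.mem_univ i) h

lemma abs_cG_le {k : ℕ} (N : ℕ) (hN : 0 < N) (a : Fin k → ℕ) (u : Fin k → SignType)
    (v : Fin k → ℤ) (hv : v ≠ 0) :
    |cG N a 1 u v| ≤ ((((k + 1) * 4 * (∑ i, a i + 1) : ℕ) : ℝ) / N) ^ lenN v := by
  have hNr : (0 : ℝ) < N := by exact_mod_cast hN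
  set x : ℝ := ((∑ i, a i + 1 : ℕ) : ℝ) / N with hx
  have hx0 : 0 ≤ x := by positivity
  have hn1 : 1 ≤ lenN v := lenN_pos hv
  have hcA : ∀ i s, |cA (al N a) i s v| ≤ x ^ lenN v := by
    intro i s
    unfold cA
    split_ifs with h
    · rw [lenN_of_sgn_single i s v h, abs_neg]
      have h0 := al_nonneg N a i
      rw [abs_of_nonneg (by positivity)]
      have hvi : (v i).natAbs ≠ 0 := by
        rw [← lenN_of_sgn_single i s v h]
        omega
      have h1 : al N a i ^ (v i).natAbs / (v i).natAbs ≤ al N a i ^ (v i).natAbs :=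
        div_le_self (by positivity) (by exact_mod_cast Nat.one_le_iff_ne_zero.mpr hvi)
      refine h1.trans (pow_le_pow_left₀ h0 ?_ _)
      rw [hx]
      unfold al
      apply div_le_div_of_nonneg_right _ hNr.le
      have : a i ≤ ∑ i, a i + 1 :=
        (Finset.single_le_sum (f := a) (fun _ _ => Nat.zero_le _) (Finset.mem_univ i)).trans
          (Nat.le_succ _)
      exact_mod_cast this
    · rw [abs_zero]
      positivity
  have hcR : |cR (1 : ℕ) (al N a) u v| ≤ 4 ^ lenN v * x ^ lenN v := by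
    rw [cR_eq 1 (al N a) u v hv]
    split_ifs with h
    · rw [abs_neg]
      have hb := bet_le 1 1 le_rfl le_rfl v
      have hb0 : 0 ≤ bet 1 v := by
        unfold bet
        positivity
      have hp := prod_al_le N a v
      have h1 : ((bet 1 v : ℚ) : ℝ) ≤ 4 ^ lenN v := by
        have h2 : ((bet 1 v : ℚ) : ℝ) ≤ (((((4 * 1 : ℕ) : ℚ)) ^ lenN v : ℚ) : ℝ) := by
          exact_mod_cast hb
        push_cast at h2
        exact h2
      have h3 : ∏ i, al N a i ^ (v i).natAbs ≤ x ^ lenN v := by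
        have h4 : ((∏ i, ((a i : ℚ) / N) ^ (v i).natAbs : ℚ) : ℝ) ≤
            (((((∑ i, a i + 1 : ℕ) : ℚ) / N) ^ lenN v : ℚ) : ℝ) := by exact_mod_cast hp
        push_cast at h4
        rw [hx]
        unfold al
        push_cast
        exact h4
      have h5 : 0 ≤ ∏ i, al N a i ^ (v i).natAbs :=
        Finset.prod_nonneg (fun i _ => pow_nonneg (al_nonneg N a i) _)
      have h6 : (0 : ℝ) ≤ ((bet 1 v : ℚ) : ℝ) := by exact_mod_cast hb0
      rw [abs_of_nonneg (mul_nonneg h6 h5)]
      exact mul_le_mul h1 h3 h5 (by positivity)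
    · rw [abs_zero]
      positivity
  unfold cG
  rw [if_neg hv, zero_add]
  calc |(∑ i, if u i = 0 then 0 else cA (al N a) i (u i) v) + cR (1 : ℕ) (al N a) u v|
      ≤ |∑ i, if u i = 0 then 0 else cA (al N a) i (u i) v| + |cR (1 : ℕ) (al N a) u v| :=
        abs_add_le _ _
    _ ≤ (k : ℝ) * x ^ lenN v + 4 ^ lenN v * x ^ lenN v := by
        apply add_le_add _ hcR
        calc |∑ i, if u i = 0 then 0 else cA (al N a) i (u i) v|
            ≤ ∑ i, |if u i = 0 then 0 else cA (al N a) i (u i) v| :=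
              Finset.abs_sum_le_sum_abs _ _
          _ ≤ ∑ _i : Fin k, x ^ lenN v := by
              apply Finset.sum_le_sum
              intro i _
              split_ifs
              · rw [abs_zero]; positivity
              · exact hcA i _
          _ = (k : ℝ) * x ^ lenN v := by simp
    _ ≤ ((k : ℝ) + 1) ^ lenN v * 4 ^ lenN v * x ^ lenN v := by
        rw [← add_mul]
        apply mul_le_mul_of_nonneg_right _ (by positivity)
        have h1 : (1 : ℝ) ≤ 4 ^ lenN v := one_le_pow₀ (by norm_num)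
        have h2 : (k : ℝ) + 1 ≤ ((k : ℝ) + 1) ^ lenN v := by
          apply le_self_pow₀ _ (by omega)
          have : (0 : ℝ) ≤ k := Nat.cast_nonneg _
          linarith
        have h3 : (0 : ℝ) ≤ k := Nat.cast_nonneg _
        calc (k : ℝ) + 4 ^ lenN v ≤ ((k : ℝ) + 1) * 4 ^ lenN v := by nlinarith
          _ ≤ _ := mul_le_mul_of_nonneg_right h2 (by positivity)
    _ = ((((k + 1) * 4 * (∑ i, a i + 1) : ℕ) : ℝ) / N) ^ lenN v := by
        rw [← mul_pow, ← mul_pow]
        congr 1
        rw [hx]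
        push_cast
        ring

/-- the sign vector of a trinomial -/
def uu {k : ℕ} (i j : Fin k) (s : SignType) : Fin k → SignType :=
  fun l => if l = i then 1 else if l = j then s else 0

/-- the coefficients of a trinomial -/
def ap {k : ℕ} (i : Fin k) (p : ℕ) : Fin k → ℕ := fun l => if l = i then p else 1

lemma uu_mem {k : ℕ} (i j : Fin k) (hij : i ≠ j) (s : SignType) (hs : s ≠ 0) :
    uu i j s ∈ UU k := by
  unfold UU
  rw [Finset.mem_filter]
  refine ⟨Finset.mem_univ _, ?_⟩
  have h1 : ({i, j} : Finset (Fin k)) ⊆ Finset.univ.filter (fun l => uu i j s l ≠ 0) := by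
    intro l hl
    rw [Finset.mem_filter]
    refine ⟨Finset.mem_univ _, ?_⟩
    rw [Finset.mem_insert, Finset.mem_singleton] at hl
    unfold uu
    rcases hl with rfl | rfl
    · rw [if_pos rfl]; decide
    · rw [if_neg hij.symm, if_pos rfl]; exact hs
  have h2 := Finset.card_le_card h1
  rwa [Finset.card_pair hij] at h2

/-- the trinomial factor attached to `(i, j, s)`, `N (N - p z_i - z_j^s)` up to a monomial -/
noncomputable def Tp {k : ℕ} (N p : ℕ) (i j : Fin k) (s : SignType) : MvPolynomial (Fin k) ℤ :=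
  Gp N (ap i p) 1 (uu i j s)

lemma norm_Tp {k : ℕ} (N p : ℕ) (i j : Fin k) (hij : i ≠ j) (s : SignType) (hs : s ≠ 0)
    (hN : N ≠ 0) (haN : ∀ l, al N (ap i p) l < 1) (θ : Fin k → ℝ) :
    ‖(MvPolynomial.aeval (fun l => ee (θ l)) (Tp N p i j s) : ℂ)‖ =
      N * ‖(N : ℂ) - p * ee (θ i) - (1 : ℕ) * ee (((s : ℤ) : ℝ) * θ j)‖ := by
  unfold Tp
  rw [eval_Gp N hN (ap i p) haN 1 (uu i j s) θ]
  have hN' : (N : ℂ) ≠ 0 := by exact_mod_cast hN
  have hui : uu i j s i = 1 := by unfold uu; rw [if_pos rfl]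
  have huj : uu i j s j = s := by unfold uu; rw [if_neg hij.symm, if_pos rfl]
  have huo : ∀ l, l ≠ i ∧ l ≠ j → uu i j s l = 0 := by
    intro l hl
    unfold uu
    rw [if_neg hl.1, if_neg hl.2]
  have h10 : (1 : SignType) ≠ 0 := by decide
  set x : ℂ := pt (al N (ap i p)) (uu i j s) θ i with hx
  set y : ℂ := pt (al N (ap i p)) (uu i j s) θ j with hy
  have hxne : 1 - x ≠ 0 := one_sub_pt_ne _ (al_nonneg N _) haN _ θ i
  have hyne : 1 - y ≠ 0 := one_sub_pt_ne _ (al_nonneg N _) haN _ θ j
  have e1 : ‖(∏ l, if uu i j s l = 0 then 1 else if uu i j s l = 1 then (N : ℂ)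
      else (N : ℂ) * ee (θ l))‖ = (N : ℝ) * N := by
    rw [Finset.prod_eq_mul i j hij (by
      intro l _ hl
      rw [if_pos (huo l hl)]) (fun h => absurd (Finset.mem_univ _) h)
      (fun h => absurd (Finset.mem_univ _) h), norm_mul]
    congr 1
    · rw [hui, if_neg h10, if_pos rfl, Complex.norm_natCast]
    · rw [huj, if_neg hs]
      split_ifs
      · rw [Complex.norm_natCast]
      · rw [norm_mul, norm_ee, mul_one, Complex.norm_natCast]
  have e2 : (∏ l, if uu i j s l = 0 then 1 else (1 - pt (al N (ap i p)) (uu i j s) θ l)) =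
      (1 - x) * (1 - y) := by
    rw [Finset.prod_eq_mul i j hij (by
      intro l _ hl
      rw [if_pos (huo l hl)]) (fun h => absurd (Finset.mem_univ _) h)
      (fun h => absurd (Finset.mem_univ _) h), hui, huj, if_neg h10, if_neg hs]
  have e3 : RR (uu i j s) (pt (al N (ap i p)) (uu i j s) θ) = x / (1 - x) * (y / (1 - y)) := by
    unfold RR
    rw [Finset.prod_eq_mul i j hij (by
      intro l _ hl
      rw [if_pos (huo l hl)]) (fun h => absurd (Finset.mem_univ _) h)
      (fun h => absurd (Finset.mem_univ _) h), hui, huj, if_neg h10, if_neg hs]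
  have hxe : (N : ℂ) * x = p * ee (θ i) := by
    rw [hx]
    unfold pt al ap
    rw [hui, if_pos rfl]
    push_cast
    simp only [SignType.coe_one]
    field_simp
  have hye : (N : ℂ) * y = (1 : ℕ) * ee (((s : ℤ) : ℝ) * θ j) := by
    rw [hy]
    unfold pt al ap
    rw [huj, if_neg hij.symm]
    push_cast
    field_simp
  rw [norm_mul, norm_mul, e1, e2, e3, mul_assoc, mul_assoc]
  congr 1
  rw [← norm_mul]
  have hNn : (N : ℝ) = ‖(N : ℂ)‖ := by rw [Complex.norm_natCast]
  rw [hNn, ← norm_mul]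
  congr 1
  rw [← hxe, ← hye]
  push_cast
  field_simp
  ring

end Pool.Agent.DistinctMahler
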