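import Pool.Agent.DistinctMahler.PVal

set_option autoImplicit false

namespace Pool.Agent.DistinctMahler
open Polynomial

lemma card_filters (s : Multiset ℂ) (hs : ∀ a ∈ s, ‖a‖ ≠ 1) :
    (s.filter (fun a => ‖a‖ < 1)).card + (s.filter (fun a => 1 < ‖a‖)).card = s.card := by
  induction s using Multiset.induction_on with
  | empty => simp
  | cons a s ih =>
    have ih' := ih (fun b hb => hs b (Multiset.mem_cons_of_mem hb))
    have ha := hs a (Multiset.mem_cons_self a s)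
    rcases lt_or_gt_of_ne ha with h | h
    · have e1 : (a ::ₘ s).filter (fun a => ‖a‖ < 1) = a ::ₘ s.filter (fun a => ‖a‖ < 1) :=
        Multiset.filter_cons_of_pos s h
      have e2 : (a ::ₘ s).filter (fun a => 1 < ‖a‖) = s.filter (fun a => 1 < ‖a‖) :=
        Multiset.filter_cons_of_neg s (not_lt.mpr h.le)
      rw [e1, e2, Multiset.card_cons, Multiset.card_cons]
      omega
    · have e1 : (a ::ₘ s).filter (fun a => ‖a‖ < 1) = s.filter (fun a => ‖a‖ < 1) :=
        Multiset.filter_cons_of_neg s (not_lt.mpr h.le)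
      have e2 : (a ::ₘ s).filter (fun a => 1 < ‖a‖) = a ::ₘ s.filter (fun a => 1 < ‖a‖) :=
        Multiset.filter_cons_of_pos s h
      rw [e1, e2, Multiset.card_cons, Multiset.card_cons]
      omega

/-- if the constant term dominates then `mu` is the constant term up to sign -/
lemma mu_const_dominant (Q : ℂ[X]) (h : ∀ z : ℂ, ‖z‖ = 1 → ‖Q.eval z - Q.coeff 0‖ < ‖Q.coeff 0‖) :
    mu Q = (-1) ^ Q.natDegree * Q.coeff 0 := by
  have hc : Q.coeff 0 ≠ 0 := by
    intro h0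
    have := h 1 (by simp)
    rw [h0, norm_zero] at this
    exact absurd this (not_lt.mpr (norm_nonneg _))
  obtain ⟨h1, h2⟩ := card_inside Q (Q.coeff 0) hc 0 (by
    intro z hz
    rw [pow_zero, mul_one]
    exact h z hz)
  have h3 : Q.roots.filter (fun a => 1 < ‖a‖) = Q.roots := by
    rw [Multiset.filter_eq_self]
    intro a ha
    have h4 : Q.roots.filter (fun a => ‖a‖ < 1) = 0 := Multiset.card_eq_zero.mp h2
    have h5 := h1 a ha
    rcases lt_or_gt_of_ne h5 with h6 | h6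
    · have h7 : a ∈ Q.roots.filter (fun a => ‖a‖ < 1) := Multiset.mem_filter.mpr ⟨ha, h6⟩
      rw [h4] at h7
      exact absurd h7 (Multiset.notMem_zero a)
    · exact h6
  unfold mu
  rw [h3, (IsAlgClosed.splits Q).coeff_zero_eq_leadingCoeff_mul_prod_roots]
  have h8 : ((-1 : ℂ)) ^ Q.natDegree * (-1) ^ Q.natDegree = 1 := by
    rw [← mul_pow]
    simp
  calc Q.leadingCoeff * Q.roots.prod = ((-1 : ℂ) ^ Q.natDegree * (-1) ^ Q.natDegree) *
        (Q.leadingCoeff * Q.roots.prod) := by rw [h8, one_mul]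
    _ = _ := by ring

lemma tri_same (N a b : ℕ) (ha : 0 < a) (hb : 0 < b) (hN : a + b < N) (α β : ℕ) :
    ∃ Q : ℤ[X], Q ≠ 0 ∧
      (∀ z : ℂ, ‖z‖ = 1 → ‖(N : ℂ) - a * z ^ (α : ℤ) - b * z ^ (β : ℤ)‖ = ‖Q.aeval z‖) ∧
      ∃ I : ℤ, I ≠ 0 ∧ mu (toC Q) = I := by
  set Q : ℤ[X] := C (N : ℤ) - C (a : ℤ) * X ^ α - C (b : ℤ) * X ^ β with hQ
  set J : ℤ := (N : ℤ) - (if α = 0 then (a : ℤ) else 0) - (if β = 0 then (b : ℤ) else 0) with hJ
  have hJ0 : Q.coeff 0 = J := by
    rw [hQ, hJ, coeff_sub, coeff_sub, coeff_C_zero, coeff_C_mul, coeff_C_mul, coeff_X_pow,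
      coeff_X_pow]
    rcases Nat.eq_zero_or_pos α with h1 | h1 <;> rcases Nat.eq_zero_or_pos β with h2 | h2
    · subst h1; subst h2; simp
    · subst h1; simp [h2.ne, h2.ne']
    · subst h2; simp [h1.ne, h1.ne']
    · simp [h1.ne, h1.ne', h2.ne, h2.ne']
  have hJpos : 0 < J := by
    rw [hJ]
    split_ifs <;> omega
  have hcoeff : (toC Q).coeff 0 = (J : ℂ) := by
    unfold toC
    rw [coeff_map, hJ0]
    simp
  have hQne : Q ≠ 0 := by
    intro h
    rw [h, coeff_zero] at hJ0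
    omega
  have heval : ∀ z : ℂ, (toC Q).eval z = (N : ℂ) - a * z ^ α - b * z ^ β := by
    intro z
    rw [eval_toC, hQ]
    simp
  have hdom : ∀ z : ℂ, ‖z‖ = 1 → ‖(toC Q).eval z - (toC Q).coeff 0‖ < ‖(toC Q).coeff 0‖ := by
    intro z hz
    rw [heval, hcoeff]
    have hJn : ‖(J : ℂ)‖ = (J : ℝ) := by
      rw [Complex.norm_intCast, abs_of_pos (by exact_mod_cast hJpos)]
    rw [hJn]
    have hz1 : ‖(a : ℂ) * z ^ α‖ = a := by
      rw [norm_mul, norm_pow, hz, one_pow, mul_one, Complex.norm_natCast]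
    have hz2 : ‖(b : ℂ) * z ^ β‖ = b := by
      rw [norm_mul, norm_pow, hz, one_pow, mul_one, Complex.norm_natCast]
    rcases Nat.eq_zero_or_pos α with h1 | h1 <;> rcases Nat.eq_zero_or_pos β with h2 | h2
    · have e : (N : ℂ) - a * z ^ α - b * z ^ β - (J : ℂ) = 0 := by
        rw [hJ, h1, h2]; push_cast; simp
      rw [e, norm_zero]
      exact_mod_cast hJpos
    · have e : (N : ℂ) - a * z ^ α - b * z ^ β - (J : ℂ) = -(b * z ^ β) := by
        rw [hJ, if_pos h1, if_neg h2.ne', h1]; push_cast; ring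
      rw [e, norm_neg, hz2]
      have : (b : ℤ) < J := by rw [hJ, if_pos h1, if_neg h2.ne']; omega
      exact_mod_cast this
    · have e : (N : ℂ) - a * z ^ α - b * z ^ β - (J : ℂ) = -(a * z ^ α) := by
        rw [hJ, if_neg h1.ne', if_pos h2, h2]; push_cast; ring
      rw [e, norm_neg, hz1]
      have : (a : ℤ) < J := by rw [hJ, if_neg h1.ne', if_pos h2]; omega
      exact_mod_cast this
    · have e : (N : ℂ) - a * z ^ α - b * z ^ β - (J : ℂ) = -(a * z ^ α + b * z ^ β) := by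
        rw [hJ, if_neg h1.ne', if_neg h2.ne']; push_cast; ring
      rw [e, norm_neg]
      have h3 : ‖(a : ℂ) * z ^ α + b * z ^ β‖ ≤ (a : ℝ) + b := by
        have := norm_add_le ((a : ℂ) * z ^ α) (b * z ^ β)
        rw [hz1, hz2] at this
        exact this
      have h4 : (a : ℤ) + b < J := by rw [hJ, if_neg h1.ne', if_neg h2.ne']; omega
      have h5 : (a : ℝ) + b < J := by exact_mod_cast h4
      linarith
  refine ⟨Q, hQne, ?_, (-1) ^ (toC Q).natDegree * J, ?_, ?_⟩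
  · intro z _
    rw [← eval_toC, heval, zpow_natCast, zpow_natCast]
  · apply mul_ne_zero
    · exact pow_ne_zero _ (by norm_num)
    · omega
  · rw [mu_const_dominant _ hdom, hcoeff]
    push_cast
    rfl

/-- the roots of the trinomial -/
lemma val_root_tri (B : ValuationSubring ℂ) (x : B.ValueGroup) (hx : x < 1) (N a b : ℂ)
    (m n : ℕ) (hm : 0 < m) (ha : B.valuation a = x) (hb : B.valuation b = 1)
    (hNx : B.valuation N ≤ x) (y : ℂ) (hy : N * y ^ n - a * y ^ (m + n) - b = 0) :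
    x * B.valuation y ^ (m + n) = 1 := by
  have hx0 : x ≠ 0 ∨ x = 0 := ne_or_eq x 0
  have hb' : b = N * y ^ n - a * y ^ (m + n) := by linear_combination -hy
  have h1 : 1 < B.valuation y := by
    by_contra hcon
    push Not at hcon
    have h2 : B.valuation (N * y ^ n - a * y ^ (m + n)) < 1 := by
      apply Valuation.map_sub_lt
      · rw [map_mul, map_pow]
        exact (mul_le_of_le_one_right' (pow_le_one₀ zero_le hcon)).trans_lt (hNx.trans_lt hx)
      · rw [map_mul, map_pow, ha]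
        exact (mul_le_of_le_one_right' (pow_le_one₀ zero_le hcon)).trans_lt hx
    rw [← hb', hb] at h2
    exact lt_irrefl _ h2
  rcases hx0 with hx0 | hx0
  · have hxpos : 0 < x := zero_lt_iff.mpr hx0
    have h3 : B.valuation (N * y ^ n) < B.valuation (a * y ^ (m + n)) := by
      rw [map_mul, map_mul, map_pow, map_pow, ha]
      calc B.valuation N * B.valuation y ^ n ≤ x * B.valuation y ^ n :=
            mul_le_mul_left hNx _
        _ < x * B.valuation y ^ (m + n) :=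
            mul_lt_mul_of_pos_left (pow_lt_pow_right₀ h1 (by omega)) hxpos
    have h4 : B.valuation (N * y ^ n - a * y ^ (m + n)) = B.valuation (a * y ^ (m + n)) :=
      Valuation.map_sub_eq_of_lt_right _ h3
    rw [← hb', hb, map_mul, map_pow, ha] at h4
    exact h4.symm
  · exfalso
    have hN0 : B.valuation N = 0 := le_antisymm (hx0 ▸ hNx) zero_le
    have ha0 : B.valuation a = 0 := by rw [ha, hx0]
    rw [Valuation.zero_iff] at hN0 ha0
    rw [hN0, ha0, zero_mul, zero_mul, sub_zero] at hb'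
    rw [hb', map_zero] at hb
    exact zero_ne_one hb

lemma tri_opp (N a b : ℕ) (ha : 0 < a) (hb : 0 < b) (hN : a + b < N) (m n : ℕ) (hm : 0 < m)
    (hn : 0 < n) :
    ∃ Q : ℤ[X], Q ≠ 0 ∧
      (∀ z : ℂ, ‖z‖ = 1 → ‖(N : ℂ) - a * z ^ (m : ℤ) - b * z ^ (-(n : ℤ))‖ = ‖Q.aeval z‖) ∧
      (∀ B : ValuationSubring ℂ, B.valuation (a : ℂ) = 1 → B.valuation (b : ℂ) = 1 →
        B.valuation (mu (toC Q)) = 1) ∧
      (∀ (B : ValuationSubring ℂ) (x : B.ValueGroup), x < 1 → B.valuation (a : ℂ) = x →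
        B.valuation (b : ℂ) = 1 → B.valuation (N : ℂ) ≤ x →
        B.valuation (mu (toC Q)) ^ (m + n) = x ^ n) := by
  set Q : ℤ[X] := C (N : ℤ) * X ^ n - C (a : ℤ) * X ^ (m + n) - C (b : ℤ) with hQ
  have heval : ∀ z : ℂ, (toC Q).eval z = (N : ℂ) * z ^ n - a * z ^ (m + n) - b := by
    intro z
    rw [eval_toC, hQ]
    simp
  have hdeg : Q.natDegree ≤ m + n := by
    rw [hQ]
    refine (natDegree_sub_le _ _).trans (max_le ((natDegree_sub_le _ _).trans (max_le ?_ ?_)) ?_)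
    · exact (natDegree_C_mul_X_pow_le _ _).trans (by omega)
    · exact natDegree_C_mul_X_pow_le _ _
    · rw [natDegree_C]; omega
  have hco : Q.coeff (m + n) = -(a : ℤ) := by
    rw [hQ, coeff_sub, coeff_sub, coeff_C_mul, coeff_C_mul, coeff_X_pow, coeff_X_pow,
      if_neg (by omega), if_pos rfl, coeff_C, if_neg (by omega)]
    ring
  have hco0 : Q.coeff 0 = -(b : ℤ) := by
    rw [hQ, coeff_sub, coeff_sub, coeff_C_mul, coeff_C_mul, coeff_X_pow, coeff_X_pow,
      if_neg (by omega), if_neg (by omega), coeff_C_zero]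
    ring
  have hdeg' : Q.natDegree = m + n :=
    le_antisymm hdeg (le_natDegree_of_ne_zero (by rw [hco]; omega))
  have hlead : Q.leadingCoeff = -(a : ℤ) := by
    unfold leadingCoeff
    rw [hdeg', hco]
  have hQne : Q ≠ 0 := by
    intro h
    rw [h, coeff_zero] at hco0
    omega
  refine ⟨Q, hQne, ?_, ?_, ?_⟩
  · intro z hz
    have hz0 : z ≠ 0 := by
      rintro rfl
      simp at hz
    rw [← eval_toC, heval]
    have h1 : (N : ℂ) - a * z ^ (m : ℤ) - b * z ^ (-(n : ℤ)) =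
        (z ^ n)⁻¹ * ((N : ℂ) * z ^ n - a * z ^ (m + n) - b) := by
      rw [zpow_natCast, zpow_neg, zpow_natCast]
      field_simp
      ring
    rw [h1, norm_mul, norm_inv, norm_pow, hz, one_pow, inv_one, one_mul]
  · intro B hva hvb
    apply val_mu_eq_one
    · rw [hlead]
      push_cast
      rw [Valuation.map_neg, hva]
    · rw [hco0]
      push_cast
      rw [Valuation.map_neg, hvb]
  · intro B x hx hva hvb hvN
    have hN' : (N : ℂ) ≠ 0 := by
      have : N ≠ 0 := by omega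
      exact_mod_cast this
    obtain ⟨hr, hcard⟩ := card_inside (toC Q) (N : ℂ) hN' n (by
      intro z hz
      rw [heval]
      have e : (N : ℂ) * z ^ n - a * z ^ (m + n) - b - N * z ^ n = -(a * z ^ (m + n) + b) := by
        ring
      rw [e, norm_neg, Complex.norm_natCast]
      have h1 := norm_add_le ((a : ℂ) * z ^ (m + n)) b
      rw [norm_mul, norm_pow, hz, one_pow, mul_one, Complex.norm_natCast,
        Complex.norm_natCast] at h1
      have h2 : (a : ℝ) + b < N := by exact_mod_cast hN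
      linarith)
    have hcard2 := card_filters _ hr
    have hcard3 : (toC Q).roots.card = m + n := by
      rw [← (IsAlgClosed.splits (toC Q)).natDegree_eq_card_roots]
      unfold toC
      rw [natDegree_map_eq_of_injective (RingHom.injective_int _), hdeg']
    have hout : ((toC Q).roots.filter (fun a => 1 < ‖a‖)).card = m := by omega
    have hx0 : x ≠ 0 := by
      rw [← hva]
      apply val_ne_zero
      exact_mod_cast ha.ne'
    have hroots := val_multiset_prod B ((toC Q).roots.filter (fun a => 1 < ‖a‖)) x⁻¹ (m + n) (by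
      intro y hy
      have h1 : (toC Q).eval y = 0 := isRoot_of_mem_roots (Multiset.mem_of_mem_filter hy)
      rw [heval] at h1
      have h2 := val_root_tri B x hx N a b m n hm hva hvb hvN y h1
      exact eq_inv_of_mul_eq_one_right h2)
    rw [hout] at hroots
    unfold mu
    rw [map_mul, mul_pow, hroots, leadingCoeff_toC, hlead]
    push_cast
    rw [Valuation.map_neg, hva, inv_pow, pow_add, mul_comm (x ^ m), mul_assoc,
      mul_inv_cancel₀ (pow_ne_zero _ hx0), mul_one]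

/-- the one-variable trinomials -/
lemma tri_spec (N a b : ℕ) (ha : 0 < a) (hb : 0 < b) (hN : a + b < N) (α β : ℤ) :
    ∃ Q : ℤ[X], Q ≠ 0 ∧
      (∀ z : ℂ, ‖z‖ = 1 → ‖(N : ℂ) - a * z ^ α - b * z ^ β‖ = ‖Q.aeval z‖) ∧
      (0 ≤ α * β → ∃ I : ℤ, I ≠ 0 ∧ mu (toC Q) = I) ∧
      (α * β < 0 → ∀ B : ValuationSubring ℂ, B.valuation (a : ℂ) = 1 → B.valuation (b : ℂ) = 1 →
        B.valuation (mu (toC Q)) = 1) ∧
      (α * β < 0 → ∀ (B : ValuationSubring ℂ) (x : B.ValueGroup), x < 1 →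
        B.valuation (a : ℂ) = x → B.valuation (b : ℂ) = 1 → B.valuation (N : ℂ) ≤ x →
        B.valuation (mu (toC Q)) ^ (α.natAbs + β.natAbs) = x ^ β.natAbs) := by
  have hflip : ∀ (α β : ℤ) (z : ℂ), ‖z‖ = 1 →
      ‖(N : ℂ) - a * z ^ α - b * z ^ β‖ = ‖(N : ℂ) - a * z ^ (-α) - b * z ^ (-β)‖ := by
    intro α β z hz
    have h1 : (starRingEnd ℂ) z = z⁻¹ := by
      rw [Complex.inv_def, Complex.normSq_eq_norm_sq, hz]
      simp
    rw [← Complex.norm_conj]
    congr 1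
    rw [map_sub, map_sub, map_mul, map_mul, map_zpow₀, map_zpow₀, h1, inv_zpow', inv_zpow']
    simp
  rcases lt_trichotomy (α * β) 0 with h | h | h
  · rcases mul_neg_iff.mp h with ⟨h1, h2⟩ | ⟨h1, h2⟩
    · obtain ⟨m, rfl⟩ : ∃ m : ℕ, α = m := ⟨α.toNat, by omega⟩
      obtain ⟨n, rfl⟩ : ∃ n : ℕ, β = -(n : ℤ) := ⟨(-β).toNat, by omega⟩
      obtain ⟨Q, hQ0, hQ1, hQ2, hQ3⟩ := tri_opp N a b ha hb hN m n (by omega) (by omega)
      refine ⟨Q, hQ0, hQ1, fun h3 => absurd h (not_lt.mpr h3), fun _ => hQ2, fun _ => ?_⟩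
      simpa using hQ3
    · obtain ⟨m, rfl⟩ : ∃ m : ℕ, α = -(m : ℤ) := ⟨(-α).toNat, by omega⟩
      obtain ⟨n, rfl⟩ : ∃ n : ℕ, β = n := ⟨β.toNat, by omega⟩
      obtain ⟨Q, hQ0, hQ1, hQ2, hQ3⟩ := tri_opp N a b ha hb hN m n (by omega) (by omega)
      refine ⟨Q, hQ0, ?_, fun h3 => absurd h (not_lt.mpr h3), fun _ => hQ2, fun _ => ?_⟩
      · intro z hz
        rw [hflip _ _ z hz, neg_neg]
        exact hQ1 z hz
      · simpa using hQ3
  · have hcase : (0 ≤ α ∧ 0 ≤ β) ∨ (α ≤ 0 ∧ β ≤ 0) := by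
      rcases mul_eq_zero.mp h with h1 | h1 <;> omega
    rcases hcase with ⟨h1, h2⟩ | ⟨h1, h2⟩
    · obtain ⟨m, rfl⟩ : ∃ m : ℕ, α = m := ⟨α.toNat, by omega⟩
      obtain ⟨n, rfl⟩ : ∃ n : ℕ, β = n := ⟨β.toNat, by omega⟩
      obtain ⟨Q, hQ0, hQ1, hQ2⟩ := tri_same N a b ha hb hN m n
      exact ⟨Q, hQ0, hQ1, fun _ => hQ2, fun h3 => absurd h3 (by omega),
        fun h3 => absurd h3 (by omega)⟩
    · obtain ⟨m, rfl⟩ : ∃ m : ℕ, α = -(m : ℤ) := ⟨(-α).toNat, by omega⟩
      obtain ⟨n, rfl⟩ : ∃ n : ℕ, β = -(n : ℤ) := ⟨(-β).toNat, by omega⟩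
      obtain ⟨Q, hQ0, hQ1, hQ2⟩ := tri_same N a b ha hb hN m n
      refine ⟨Q, hQ0, ?_, fun _ => hQ2, fun h3 => absurd h3 (by rw [h]; exact lt_irrefl _),
        fun h3 => absurd h3 (by rw [h]; exact lt_irrefl _)⟩
      intro z hz
      rw [hflip _ _ z hz, neg_neg, neg_neg]
      exact hQ1 z hz
  · rcases mul_pos_iff.mp h with ⟨h1, h2⟩ | ⟨h1, h2⟩
    · obtain ⟨m, rfl⟩ : ∃ m : ℕ, α = m := ⟨α.toNat, by omega⟩
      obtain ⟨n, rfl⟩ : ∃ n : ℕ, β = n := ⟨β.toNat, by omega⟩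
      obtain ⟨Q, hQ0, hQ1, hQ2⟩ := tri_same N a b ha hb hN m n
      exact ⟨Q, hQ0, hQ1, fun _ => hQ2, fun h3 => absurd h (not_lt.mpr h3.le),
        fun h3 => absurd h (not_lt.mpr h3.le)⟩
    · obtain ⟨m, rfl⟩ : ∃ m : ℕ, α = -(m : ℤ) := ⟨(-α).toNat, by omega⟩
      obtain ⟨n, rfl⟩ : ∃ n : ℕ, β = -(n : ℤ) := ⟨(-β).toNat, by omega⟩
      obtain ⟨Q, hQ0, hQ1, hQ2⟩ := tri_same N a b ha hb hN m n
      refine ⟨Q, hQ0, ?_, fun _ => hQ2, fun h3 => absurd h (not_lt.mpr h3.le),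
        fun h3 => absurd h (not_lt.mpr h3.le)⟩
      intro z hz
      rw [hflip _ _ z hz, neg_neg, neg_neg]
      exact hQ1 z hz

end Pool.Agent.DistinctMahler
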