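import Pool.Agent.DistinctMahler.Coeff

set_option autoImplicit false

namespace Pool.Agent.DistinctMahler

lemma val_lt (r : ℕ) (h3 : 3 ≤ r) (j : ℕ) (hj : 2 ≤ j) : padicValNat r j < j - 1 := by
  by_contra hcon
  push Not at hcon
  have h1 : r ^ padicValNat r j ∣ j := pow_padicValNat_dvd
  have h2 : r ^ padicValNat r j ≤ j := Nat.le_of_dvd (by omega) h1
  have h4 : 3 ^ (j - 1) ≤ j := by
    calc 3 ^ (j - 1) ≤ 3 ^ padicValNat r j := Nat.pow_le_pow_right (by norm_num) hcon
      _ ≤ r ^ padicValNat r j := Nat.pow_le_pow_left h3 _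
      _ ≤ j := h2
  have h5 : j < 3 ^ (j - 1) := by
    obtain ⟨m, rfl⟩ := Nat.exists_eq_add_of_le hj
    clear h1 h2 h4 hcon hj
    induction m with
    | zero => norm_num
    | succ m ih =>
      have e1 : 2 + (m + 1) - 1 = (2 + m - 1) + 1 := by omega
      rw [e1, pow_succ]
      omega
  omega

lemma norm_lt_of_val_lt (r : ℕ) [hr : Fact r.Prime] (x y : ℚ) (hy : y ≠ 0)
    (h : x = 0 ∨ padicValRat r y < padicValRat r x) : padicNorm r x < padicNorm r y := by
  rcases eq_or_ne x 0 with hx | hx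
  · subst hx
    rw [padicNorm.zero]
    exact lt_of_le_of_ne (padicNorm.nonneg _) (padicNorm.nonzero hy).symm
  · have hv : padicValRat r y < padicValRat r x := by
      rcases h with h | h
      · exact absurd h hx
      · exact h
    rw [padicNorm.eq_zpow_of_nonzero hx, padicNorm.eq_zpow_of_nonzero hy]
    apply zpow_lt_zpow_right₀
    · exact_mod_cast hr.out.one_lt
    · omega

lemma term_norm_lt (r : ℕ) [hr : Fact r.Prime] (h3 : 3 ≤ r) (E : ℕ) (hE : E ≠ 0) (hrE : r ∣ E)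
    (j : ℕ) (hj : 2 ≤ j) (b : ℕ) :
    padicNorm r (((E : ℚ) ^ j / j) * (b : ℚ)) < padicNorm r (E : ℚ) := by
  have hEq : (E : ℚ) ≠ 0 := by exact_mod_cast hE
  apply norm_lt_of_val_lt r _ _ hEq
  rcases Nat.eq_zero_or_pos b with hb | hb
  · left
    simp [hb]
  · right
    have hbq : (b : ℚ) ≠ 0 := by exact_mod_cast hb.ne'
    have hjq : (j : ℚ) ≠ 0 := by
      have : j ≠ 0 := by omega
      exact_mod_cast this
    rw [padicValRat.mul (by positivity) hbq, padicValRat.div (by positivity) hjq,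
      padicValRat.pow, padicValRat.of_nat, padicValRat.of_nat, padicValRat.of_nat]
    have h1 : 1 ≤ padicValNat r E := one_le_padicValNat_of_dvd hE hrE
    have h2 := val_lt r h3 j hj
    have h4 : (padicValNat r E : ℤ) + (padicValNat r j : ℤ) < (j : ℤ) * padicValNat r E := by
      have h5 : (padicValNat r j : ℤ) < j - 1 := by omega
      have h6 : (1 : ℤ) ≤ padicValNat r E := by exact_mod_cast h1
      nlinarith
    have h7 : (0 : ℤ) ≤ padicValNat r b := Nat.cast_nonneg _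
    linarith

lemma val_eq_of_norm_eq (r : ℕ) [hr : Fact r.Prime] (x y : ℚ) (hx : x ≠ 0) (hy : y ≠ 0)
    (h : padicNorm r x = padicNorm r y) : padicValRat r x = padicValRat r y := by
  rw [padicNorm.eq_zpow_of_nonzero hx, padicNorm.eq_zpow_of_nonzero hy] at h
  have h1 := zpow_right_injective₀ (by exact_mod_cast hr.out.pos : (0 : ℚ) < (r : ℚ))
    (by exact_mod_cast hr.out.one_lt.ne') h
  omega

lemma bet_val {k : ℕ} (r : ℕ) [hr : Fact r.Prime] (h3 : 3 ≤ r) (E : ℕ) (hE : E ≠ 0) (hrE : r ∣ E)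
    (v : Fin k → ℤ) (hv : v ≠ 0) : padicValRat r (bet E v) = padicValNat r E := by
  have hEq : (E : ℚ) ≠ 0 := by exact_mod_cast hE
  have hb := bet_pos E (Nat.pos_of_ne_zero hE) v hv
  rw [← padicValRat.of_nat]
  apply val_eq_of_norm_eq r _ _ hb.ne' hEq
  have hsplit : bet E v = (E : ℚ) +
      ∑ j ∈ (Finset.Icc 1 (lenN v)).erase 1, ((E : ℚ) ^ j / j) * (bprod j v : ℚ) := by
    unfold bet
    rw [← Finset.add_sum_erase (Finset.Icc 1 (lenN v)) _
      (Finset.mem_Icc.mpr ⟨le_rfl, lenN_pos hv⟩)]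
    simp [bprod_one]
  have hpos : 0 < padicNorm r (E : ℚ) :=
    lt_of_le_of_ne (padicNorm.nonneg _) (padicNorm.nonzero hEq).symm
  have hrest : padicNorm r
      (∑ j ∈ (Finset.Icc 1 (lenN v)).erase 1, ((E : ℚ) ^ j / j) * (bprod j v : ℚ)) <
      padicNorm r (E : ℚ) := by
    apply padicNorm.sum_lt' _ hpos
    intro j hj
    apply term_norm_lt r h3 E hE hrE
    have h1 := Finset.ne_of_mem_erase hj
    have h2 := (Finset.mem_Icc.mp (Finset.mem_of_mem_erase hj)).1
    omega
  rw [hsplit, padicNorm.add_eq_max_of_ne hrest.ne']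
  exact max_eq_left hrest.le

lemma padicValNat_finset_prod {ι : Type*} (r : ℕ) [hr : Fact r.Prime] (s : Finset ι) (f : ι → ℕ)
    (hf : ∀ i ∈ s, f i ≠ 0) : padicValNat r (∏ i ∈ s, f i) = ∑ i ∈ s, padicValNat r (f i) := by
  classical
  induction s using Finset.induction_on with
  | empty => simp
  | insert a s ha ih =>
    rw [Finset.prod_insert ha, Finset.sum_insert ha, padicValNat.mul, ih]
    · intro i hi
      exact hf i (Finset.mem_insert_of_mem hi)
    · exact hf a (Finset.mem_insert_self a s)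
    · rw [Finset.prod_ne_zero_iff]
      intro i hi
      exact hf i (Finset.mem_insert_of_mem hi)

/-- the odd primes -/
noncomputable def pr (j : ℕ) : ℕ := Nat.nth Nat.Prime (j + 1)

lemma pr_prime (j : ℕ) : (pr j).Prime := Nat.prime_nth_prime _

lemma pr_injective : Function.Injective pr := by
  intro a b h
  have := Nat.nth_injective Nat.infinite_setOfPred_prime h
  omega

lemma pr_ge (j : ℕ) : 3 ≤ pr j := by
  have h1 : Nat.nth Nat.Prime 0 < Nat.nth Nat.Prime (j + 1) :=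
    Nat.nth_strictMono Nat.infinite_setOfPred_prime (Nat.succ_pos j)
  rw [Nat.nth_prime_zero_eq_two] at h1
  exact h1

lemma pr_val_other (j j' : ℕ) (h : j ≠ j') (f : ℕ) : padicValNat (pr j) (pr j' ^ f) = 0 := by
  have : Fact (pr j).Prime := ⟨pr_prime j⟩
  apply padicValNat.eq_zero_of_not_dvd
  intro hd
  have h1 := (pr_prime j).dvd_of_dvd_pow hd
  have h2 := (Nat.prime_dvd_prime_iff_eq (pr_prime j) (pr_prime j')).mp h1
  exact h (pr_injective h2)

lemma pr_val_prod (R : ℕ) (f : ℕ → ℕ) (j : ℕ) (hj : j < R) :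
    padicValNat (pr j) (∏ j' ∈ Finset.range R, pr j' ^ f j') = f j := by
  have : Fact (pr j).Prime := ⟨pr_prime j⟩
  rw [padicValNat_finset_prod]
  · rw [Finset.sum_eq_single j]
    · exact padicValNat.prime_pow _
    · intro j' _ hne
      exact pr_val_other j j' (Ne.symm hne) _
    · intro h
      exact absurd (Finset.mem_range.mpr hj) h
  · intro i _
    exact pow_ne_zero _ (pr_prime i).ne_zero

lemma pr_val_two (j n : ℕ) : padicValNat (pr j) (2 ^ n) = 0 := by
  have : Fact (pr j).Prime := ⟨pr_prime j⟩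
  apply padicValNat.eq_zero_of_not_dvd
  intro hd
  have h1 := (pr_prime j).dvd_of_dvd_pow hd
  have h2 := (Nat.prime_dvd_prime_iff_eq (pr_prime j) Nat.prime_two).mp h1
  have h3 := pr_ge j
  omega

/-- the numerators `a_i` -/
noncomputable def aa (k R : ℕ) (i : Fin k) : ℕ :=
  ∏ j ∈ Finset.range R, pr j ^ ((j + 1) ^ ((i : ℕ) + 1))

/-- an injective numbering of the sign vectors -/
noncomputable def tt {k : ℕ} (u : Fin k → SignType) : ℕ :=
  (Fintype.equivFin (Fin k → SignType) u : ℕ)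

lemma tt_injective {k : ℕ} : Function.Injective (tt : (Fin k → SignType) → ℕ) := by
  intro u u' h
  exact (Fintype.equivFin (Fin k → SignType)).injective (Fin.ext h)

/-- the perturbation parameters -/
noncomputable def EE (k R : ℕ) (u : Fin k → SignType) : ℕ :=
  ∏ j ∈ Finset.range R, pr j ^ (1 + tt u)

lemma aa_pos (k R : ℕ) (i : Fin k) : 0 < aa k R i :=
  Finset.prod_pos (fun j _ => pow_pos (pr_prime j).pos _)

lemma EE_pos (k R : ℕ) (u : Fin k → SignType) : 0 < EE k R u :=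
  Finset.prod_pos (fun j _ => pow_pos (pr_prime j).pos _)

lemma aa_val (k R : ℕ) (i : Fin k) (j : ℕ) (hj : j < R) :
    padicValNat (pr j) (aa k R i) = (j + 1) ^ ((i : ℕ) + 1) :=
  pr_val_prod R (fun j => (j + 1) ^ ((i : ℕ) + 1)) j hj

lemma EE_val (k R : ℕ) (u : Fin k → SignType) (j : ℕ) (hj : j < R) :
    padicValNat (pr j) (EE k R u) = 1 + tt u :=
  pr_val_prod R (fun _ => 1 + tt u) j hj

lemma prod_pow_len2 {k : ℕ} (x : ℚ) (v : Fin k → ℤ) :
    ∏ i : Fin k, x ^ (v i).natAbs = x ^ lenN v := by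
  unfold lenN
  rw [Finset.prod_pow_eq_pow_sum]

lemma qq_val {k : ℕ} (R n : ℕ) (v : Fin k → ℤ) (hv : v ≠ 0) (j : ℕ) (hj : j < R) :
    padicValRat (pr j) (qq (2 ^ n) (aa k R) (EE k R) v) =
      ∑ i, ((v i).natAbs : ℤ) * ((j : ℤ) + 1) ^ ((i : ℕ) + 1) + (1 + tt (sgn v)) := by
  have : Fact (pr j).Prime := ⟨pr_prime j⟩
  unfold qq
  have hE : EE k R (fun i => SignType.sign (v i)) = EE k R (sgn v) := rfl
  rw [hE]
  have hb := bet_pos (EE k R (sgn v)) (EE_pos k R _) v hv
  have hprod : ∏ i, ((aa k R i : ℚ) / ((2 ^ n : ℕ) : ℚ)) ^ (v i).natAbs =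
      ((∏ i, aa k R i ^ (v i).natAbs : ℕ) : ℚ) / (((2 ^ n) ^ lenN v : ℕ) : ℚ) := by
    push_cast
    rw [← prod_pow_len2, ← Finset.prod_div_distrib]
    apply Finset.prod_congr rfl
    intro l _
    rw [div_pow]
  have hne1 : (∏ i, aa k R i ^ (v i).natAbs) ≠ 0 :=
    Finset.prod_ne_zero_iff.mpr (fun i _ => pow_ne_zero _ (aa_pos k R i).ne')
  have hne2 : ((2 ^ n) ^ lenN v : ℕ) ≠ 0 := by positivity
  have hq1 : ((∏ i, aa k R i ^ (v i).natAbs : ℕ) : ℚ) ≠ 0 := by exact_mod_cast hne1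
  have hq2 : (((2 ^ n) ^ lenN v : ℕ) : ℚ) ≠ 0 := by exact_mod_cast hne2
  rw [hprod, padicValRat.neg, padicValRat.mul hb.ne' (div_ne_zero hq1 hq2),
    padicValRat.div hq1 hq2, padicValRat.of_nat, padicValRat.of_nat,
    bet_val (pr j) (pr_ge j) _ (EE_pos k R _).ne' _ v hv, EE_val k R _ j hj,
    padicValNat_finset_prod, ← pow_mul, pr_val_two]
  · have hterm : ∀ i ∈ Finset.univ, padicValNat (pr j) (aa k R i ^ (v i).natAbs) =
        (v i).natAbs * (j + 1) ^ ((i : ℕ) + 1) := by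
      intro i _
      rw [padicValNat.pow, aa_val k R i j hj]
    rw [Finset.sum_congr rfl hterm]
    push_cast
    ring
  · intro i _
    exact pow_ne_zero _ (aa_pos k R i).ne'
  · have h1 : padicValNat (pr j) (EE k R (sgn v)) ≠ 0 := by
      rw [EE_val k R _ j hj]
      omega
    exact dvd_of_one_le_padicValNat (by omega)

end Pool.Agent.DistinctMahler
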