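import Pool.Agent.DistinctMahler.Subseq

set_option autoImplicit false

namespace Pool.Agent.DistinctMahler

/-- number of walks -/
noncomputable def walk (k : ℕ) : ℕ → (Fin k → ℤ) → ℝ
  | 0, v => if v = 0 then 1 else 0
  | (j + 1), v => ∑ i, (walk k j (v - Pi.single i 1) + walk k j (v + Pi.single i 1))

lemma walk_nonneg (k : ℕ) (j : ℕ) (v : Fin k → ℤ) : 0 ≤ walk k j v := by
  induction j generalizing v with
  | zero =>
    unfold walk
    split_ifs
    · exact zero_le_one
    · exact le_rfl
  | succ j ih =>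
    unfold walk
    apply Finset.sum_nonneg
    intro i _
    exact add_nonneg (ih _) (ih _)

/-- the symmetric sum of the variables and their inverses -/
noncomputable def PP {k : ℕ} (θ : Fin k → ℝ) : ℂ := ∑ i, (ee (θ i) + ee (-θ i))

lemma HasSum.congr_fun' {ι : Type*} {f g : ι → ℂ} {a : ℂ} (hg : HasSum g a)
    (h : ∀ i, f i = g i) : HasSum f a := by
  have e : f = g := funext h
  rw [e]
  exact hg

lemma walk_hasSum (k : ℕ) (θ : Fin k → ℝ) (j : ℕ) :
    HasSum (fun v : Fin k → ℤ => (walk k j v : ℂ) * ee (∑ l, (v l : ℝ) * θ l)) (PP θ ^ j) := by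
  induction j with
  | zero =>
    rw [pow_zero]
    convert hasSum_ite_eq (0 : Fin k → ℤ) (1 : ℂ) using 1
    funext v
    unfold walk
    split_ifs with h
    · subst h
      simp [ee_zero]
    · simp
  | succ j ih =>
    have h1 : ∀ i : Fin k, HasSum (fun v : Fin k → ℤ =>
        (walk k j (v - Pi.single i 1) : ℂ) * ee (∑ l, (v l : ℝ) * θ l)) (PP θ ^ j * ee (θ i)) := by
      intro i
      rw [← (Equiv.addRight (Pi.single i 1 : Fin k → ℤ)).hasSum_iff]
      refine HasSum.congr_fun' (ih.mul_right (ee (θ i))) ?_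
      intro v
      simp only [Function.comp, Equiv.coe_addRight, add_sub_cancel_right]
      rw [mul_assoc, ← ee_add]
      congr 2
      simp only [Pi.add_apply, Int.cast_add, add_mul, Finset.sum_add_distrib]
      congr 1
      rw [Finset.sum_eq_single i]
      · simp
      · intro l _ hl
        rw [Pi.single_eq_of_ne hl]
        simp
      · intro h
        exact absurd (Finset.mem_univ i) h
    have h2 : ∀ i : Fin k, HasSum (fun v : Fin k → ℤ =>
        (walk k j (v + Pi.single i 1) : ℂ) * ee (∑ l, (v l : ℝ) * θ l)) (PP θ ^ j * ee (-θ i)) := by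
      intro i
      rw [← (Equiv.subRight (Pi.single i 1 : Fin k → ℤ)).hasSum_iff]
      refine HasSum.congr_fun' (ih.mul_right (ee (-θ i))) ?_
      intro v
      simp only [Function.comp, Equiv.subRight_apply, sub_add_cancel]
      rw [mul_assoc, ← ee_add]
      congr 2
      simp only [Pi.sub_apply, Int.cast_sub, sub_mul, Finset.sum_sub_distrib]
      rw [sub_eq_add_neg]
      congr 1
      rw [Finset.sum_eq_single i]
      · simp
      · intro l _ hl
        rw [Pi.single_eq_of_ne hl]
        simp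
      · intro h
        exact absurd (Finset.mem_univ i) h
    have h3 := hasSum_sum (s := Finset.univ) (fun i _ => (h1 i).add (h2 i))
    have e1 : PP θ ^ (j + 1) = ∑ i : Fin k, (PP θ ^ j * ee (θ i) + PP θ ^ j * ee (-θ i)) := by
      rw [pow_succ]
      nth_rewrite 2 [PP]
      rw [Finset.mul_sum]
      apply Finset.sum_congr rfl
      intro i _
      ring
    rw [e1]
    convert h3 using 1
    funext v
    rw [walk]
    push_cast
    rw [Finset.sum_mul]
    apply Finset.sum_congr rfl
    intro i _
    ring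

lemma walk_summable (k j : ℕ) : Summable (walk k j) := by
  have h := (walk_hasSum k 0 j).summable
  have e : (fun v : Fin k → ℤ => (walk k j v : ℂ) * ee (∑ l, (v l : ℝ) * (0 : Fin k → ℝ) l)) =
      fun v : Fin k → ℤ => ((walk k j v : ℝ) : ℂ) := by
    funext v
    simp [ee_zero]
  rw [e] at h
  exact Complex.summable_ofReal.mp h

lemma walk_tsum (k j : ℕ) : ∑' v, walk k j v = (2 * k : ℝ) ^ j := by
  have h := walk_hasSum k 0 j
  have e : (fun v : Fin k → ℤ => (walk k j v : ℂ) * ee (∑ l, (v l : ℝ) * (0 : Fin k → ℝ) l)) =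
      fun v : Fin k → ℤ => ((walk k j v : ℝ) : ℂ) := by
    funext v
    simp [ee_zero]
  have e2 : PP (0 : Fin k → ℝ) ^ j = (((2 * k : ℝ) ^ j : ℝ) : ℂ) := by
    unfold PP
    simp only [Pi.zero_apply, neg_zero, ee_zero, Finset.sum_const, Finset.card_univ,
      Fintype.card_fin, nsmul_eq_mul]
    push_cast
    ring
  rw [e, e2] at h
  exact (Complex.hasSum_ofReal.mp h).tsum_eq

lemma walk_pos (k : ℕ) (n : ℕ) (v : Fin k → ℤ) (hv : lenN v = n) : 0 < walk k n v := by
  induction n generalizing v with
  | zero =>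
    rw [eq_zero_of_lenN hv]
    simp [walk]
  | succ n ih =>
    have hv0 : v ≠ 0 := by
      rintro rfl
      rw [lenN_zero] at hv
      omega
    obtain ⟨i, hi⟩ := exists_ne_of_ne hv0
    have hsplit : ∀ w : Fin k → ℤ, lenN w = (w i).natAbs + ∑ l ∈ Finset.univ.erase i, (w l).natAbs := by
      intro w
      unfold lenN
      rw [Finset.add_sum_erase Finset.univ (fun l => (w l).natAbs) (Finset.mem_univ i)]
    have hother : ∀ s : ℤ, ∑ l ∈ Finset.univ.erase i, ((v + Pi.single i s : Fin k → ℤ) l).natAbs =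
        ∑ l ∈ Finset.univ.erase i, (v l).natAbs := by
      intro s
      apply Finset.sum_congr rfl
      intro l hl
      rw [Pi.add_apply, Pi.single_eq_of_ne (Finset.ne_of_mem_erase hl), add_zero]
    have hlen := hsplit v
    rw [walk]
    apply Finset.sum_pos'
    · intro l _
      exact add_nonneg (walk_nonneg _ _ _) (walk_nonneg _ _ _)
    · refine ⟨i, Finset.mem_univ i, ?_⟩
      rcases lt_or_gt_of_ne hi with h | h
      · -- v i < 0, step with +1
        have h1 : lenN (v + Pi.single i 1) = n := by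
          rw [hsplit, hother]
          have : ((v + Pi.single i 1 : Fin k → ℤ) i).natAbs + 1 = (v i).natAbs := by
            rw [Pi.add_apply, Pi.single_eq_same]
            omega
          omega
        exact add_pos_of_nonneg_of_pos (walk_nonneg _ _ _) (ih _ h1)
      · have h1 : lenN (v - Pi.single i 1) = n := by
          have e : v - Pi.single i 1 = v + Pi.single i (-1) := by
            rw [sub_eq_add_neg, ← Pi.single_neg]
          rw [e, hsplit, hother]
          have : ((v + Pi.single i (-1) : Fin k → ℤ) i).natAbs + 1 = (v i).natAbs := by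
            rw [Pi.add_apply, Pi.single_eq_same]
            omega
          omega
        exact add_pos_of_pos_of_nonneg (ih _ h1) (walk_nonneg _ _ _)

/-- double series -/
noncomputable def gw (k N : ℕ) (j : ℕ) (v : Fin k → ℤ) : ℝ := walk k j v / ((N : ℝ) ^ j * j)

lemma gw_nonneg (k N j : ℕ) (v : Fin k → ℤ) : 0 ≤ gw k N j v := by
  unfold gw
  have := walk_nonneg k j v
  positivity

lemma norm_PP_le {k : ℕ} (θ : Fin k → ℝ) : ‖PP θ‖ ≤ 2 * k := by
  unfold PP
  refine (norm_sum_le _ _).trans ?_
  calc ∑ i : Fin k, ‖ee (θ i) + ee (-θ i)‖ ≤ ∑ _i : Fin k, (2 : ℝ) := by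
        apply Finset.sum_le_sum
        intro i _
        refine (norm_add_le _ _).trans ?_
        rw [norm_ee, norm_ee]
        norm_num
    _ = 2 * k := by
        rw [Finset.sum_const, Finset.card_univ, Fintype.card_fin, nsmul_eq_mul]
        ring

lemma gw_fiber (k N : ℕ) (θ : Fin k → ℝ) (j : ℕ) :
    HasSum (fun v : Fin k → ℤ => (gw k N j v : ℂ) * ee (∑ i, (v i : ℝ) * θ i))
      ((PP θ / N) ^ j / j) := by
  have h := (walk_hasSum k θ j).mul_left (1 / ((N : ℂ) ^ j * j))
  have e1 : (1 / ((N : ℂ) ^ j * j)) * PP θ ^ j = (PP θ / N) ^ j / j := by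
    rw [div_pow]
    ring
  rw [e1] at h
  refine HasSum.congr_fun' h ?_
  intro v
  unfold gw
  push_cast
  ring

lemma gw_summable (k N : ℕ) (hN : 2 * k < N) :
    Summable (fun p : ℕ × (Fin k → ℤ) => gw k N p.1 p.2) := by
  have hnn : ∀ p : ℕ × (Fin k → ℤ), 0 ≤ gw k N p.1 p.2 := fun p => gw_nonneg k N p.1 p.2
  have hNr : (0 : ℝ) < N := by
    have : 0 < N := by omega
    exact_mod_cast this
  rw [summable_prod_of_nonneg hnn]
  have hmul : ∀ j : ℕ, (fun v : Fin k → ℤ => gw k N j v) =
      fun v => walk k j v * ((N : ℝ) ^ j * j)⁻¹ := by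
    intro j
    funext v
    rw [gw, div_eq_mul_inv]
  constructor
  · intro j
    change Summable (fun v : Fin k → ℤ => gw k N j v)
    rw [hmul j]
    exact Summable.mul_right _ (walk_summable k j)
  · have e : ∀ j : ℕ, ∑' v, gw k N j v = (2 * k / N : ℝ) ^ j / j := by
      intro j
      rw [hmul j, tsum_mul_right, walk_tsum, div_pow, div_div, div_eq_mul_inv, mul_comm]
    simp_rw [e]
    have hy : ‖((2 * k / N : ℝ) : ℂ)‖ < 1 := by
      rw [Complex.norm_real, Real.norm_of_nonneg (by positivity), div_lt_one hNr]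
      exact_mod_cast hN
    have h2 := (Complex.hasSum_taylorSeries_neg_log hy).summable
    have h3 : Summable (fun n : ℕ => (((2 * k / N : ℝ) ^ n / n : ℝ) : ℂ)) := by
      refine h2.congr ?_
      intro n
      push_cast
      rfl
    exact Complex.summable_ofReal.mp h3

/-- the Fourier coefficients -/
noncomputable def cw (k N : ℕ) (v : Fin k → ℤ) : ℝ :=
  (if v = 0 then Real.log N else 0) - ∑' j, gw k N j v

lemma gw_col_summable (k N : ℕ) (hN : 2 * k < N) (v : Fin k → ℤ) :
    Summable (fun j => gw k N j v) := by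
  have h := (gw_summable k N hN).prod_symm
  exact h.prod_factor v

lemma cw_neg (k N : ℕ) (hN : 2 * k < N) (v : Fin k → ℤ) (hv : v ≠ 0) : cw k N v < 0 := by
  unfold cw
  rw [if_neg hv, zero_sub, neg_lt_zero]
  apply (gw_col_summable k N hN v).tsum_pos (fun j => gw_nonneg k N j v) (lenN v)
  unfold gw
  have h1 := walk_pos k (lenN v) v rfl
  have h2 : (0 : ℝ) < N := by
    have : 0 < N := by omega
    exact_mod_cast this
  have h3 : (0 : ℝ) < lenN v := by exact_mod_cast lenN_pos hv
  positivity

lemma eval_latticePoly (k N : ℕ) (θ : Fin k → ℝ) :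
    (MvPolynomial.aeval (fun j => ee (θ j)) (latticePoly k N) : ℂ) =
      (∏ j, ee (θ j)) * ((N : ℂ) - PP θ) := by
  unfold latticePoly PP
  simp only [map_sub, map_mul, map_prod, map_sum, map_add, map_pow, map_one, MvPolynomial.aeval_C,
    MvPolynomial.aeval_X]
  rw [mul_sub, Finset.mul_sum]
  congr 1
  · rw [mul_comm]
    simp
  · apply Finset.sum_congr rfl
    intro i _
    rw [← Finset.mul_prod_erase Finset.univ (fun j => ee (θ j)) (Finset.mem_univ i)]
    have h1 : ee (θ i) * ee (-θ i) = 1 := by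
      rw [← ee_add, add_neg_cancel, ee_zero]
    calc (ee (θ i) ^ 2 + 1) * ∏ j ∈ Finset.univ.erase i, ee (θ j)
        = (ee (θ i) ^ 2 + ee (θ i) * ee (-θ i)) * ∏ j ∈ Finset.univ.erase i, ee (θ j) := by
          rw [h1]
      _ = _ := by ring

lemma latticePoly_expansion (k N : ℕ) (hN : 2 * k < N) :
    Summable (cw k N) ∧ ∀ θ : Fin k → ℝ,
    (MvPolynomial.aeval (fun j => ee (θ j)) (latticePoly k N) : ℂ) ≠ 0 ∧
    HasSum (fun v => cw k N v * Real.cos (2 * Real.pi * ∑ j, (v j : ℝ) * θ j))
      (Real.log ‖(MvPolynomial.aeval (fun j => ee (θ j)) (latticePoly k N) : ℂ)‖) := by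
  have hN0 : 0 < N := by omega
  have hNr : (0 : ℝ) < N := by exact_mod_cast hN0
  have hNc : (N : ℂ) ≠ 0 := by exact_mod_cast hN0.ne'
  have key : ∀ θ : Fin k → ℝ,
    (MvPolynomial.aeval (fun j => ee (θ j)) (latticePoly k N) : ℂ) ≠ 0 ∧
    HasSum (fun v => cw k N v * Real.cos (2 * Real.pi * ∑ j, (v j : ℝ) * θ j))
      (Real.log ‖(MvPolynomial.aeval (fun j => ee (θ j)) (latticePoly k N) : ℂ)‖) := by
    intro θ
    have hee : ∀ x, ee x ≠ 0 := by
      intro x h
      have := norm_ee x
      rw [h, norm_zero] at this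
      exact zero_ne_one this
    have hy : ‖PP θ / N‖ < 1 := by
      rw [norm_div, Complex.norm_natCast, div_lt_one hNr]
      refine lt_of_le_of_lt (norm_PP_le θ) ?_
      exact_mod_cast hN
    have hne : (1 : ℂ) - PP θ / N ≠ 0 := by
      intro h
      have h1 : PP θ / N = 1 := (sub_eq_zero.mp h).symm
      rw [h1, norm_one] at hy
      exact lt_irrefl _ hy
    have hfac : (N : ℂ) - PP θ = N * (1 - PP θ / N) := by
      field_simp
    rw [eval_latticePoly, hfac]
    refine ⟨mul_ne_zero (Finset.prod_ne_zero_iff.mpr (fun i _ => hee _)) (mul_ne_zero hNc hne), ?_⟩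
    rw [norm_mul, norm_prod, Finset.prod_congr rfl (fun i _ => norm_ee (θ i)),
      Finset.prod_const_one, one_mul, norm_mul, Complex.norm_natCast,
      Real.log_mul hNr.ne' (norm_ne_zero_iff.mpr hne)]
    have h5 := swap_fiber (fun j v => gw k N j v) (fun j v => gw_nonneg k N j v)
      (gw_summable k N hN) (fun v : Fin k → ℤ => ee (∑ i, (v i : ℝ) * θ i))
      (fun v => norm_ee _) _ _ (fun j => gw_fiber k N θ j)
      (Complex.hasSum_taylorSeries_neg_log hy)
    have h6 := (Complex.hasSum_re h5).neg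
    rw [log_norm_one_sub, neg_neg] at h6
    have h7 := (hasSum_ite_eq (0 : Fin k → ℤ) (Real.log N)).add h6
    have e : (fun v : Fin k → ℤ => cw k N v * Real.cos (2 * Real.pi * ∑ i, (v i : ℝ) * θ i)) =
        fun v : Fin k → ℤ => (if v = 0 then Real.log N else 0) +
          -(((∑' j, gw k N j v : ℝ) : ℂ) * ee (∑ i, (v i : ℝ) * θ i)).re := by
      funext v
      unfold cw
      rw [Complex.re_ofReal_mul, ee_re]
      by_cases hv : v = 0
      · subst hv
        simp
        ring
      · rw [if_neg hv]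
        ring
    rw [e]
    exact h7
  refine ⟨?_, key⟩
  have h := (key 0).2.summable
  refine h.congr ?_
  intro v
  simp

end Pool.Agent.DistinctMahler
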